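import Mathlib

/-! Counting the pairs of shifts with a given determinant. -/

set_option autoImplicit false

namespace Pool.Agent.K7.H63.TQ

open Finset

/-- the hypotheses of the question, for positive integers -/
def AdmT (α β γ : ℕ) : Prop :=
  1 ≤ α ∧ 1 ≤ β ∧ 1 ≤ γ ∧ Nat.Coprime α β ∧ Nat.Coprime α γ ∧ Nat.Coprime β γ ∧
    ¬ (Odd α ∧ Odd β ∧ Odd γ)

/-- the number of admissible classes modulo `6` -/
def n6 (α β γ : ℕ) : ℕ := if 3 ∣ α * β * γ then 2 else 1

theorem n6_le (α β γ : ℕ) : n6 α β γ ≤ 2 := by unfold n6; split_ifs <;> omega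
theorem n6_pos (α β γ : ℕ) : 1 ≤ n6 α β γ := by unfold n6; split_ifs <;> omega

/-- the condition at `2` and `3` on the parameter `t` -/
def P6 (α β b b' t : ℕ) : Prop := Nat.Coprime (b + α * t) 6 ∧ Nat.Coprime (b' + β * t) 6

instance (α β b b' t : ℕ) : Decidable (P6 α β b b' t) := by unfold P6; infer_instance

theorem P6_mod (α β b b' t : ℕ) :
    P6 α β b b' t ↔ P6 (α % 6) (β % 6) (b % 6) (b' % 6) (t % 6) := by
  have h : ∀ x y t : ℕ, Nat.Coprime (x + y * t) 6 ↔ Nat.Coprime (x % 6 + (y % 6) * (t % 6)) 6 := by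
    intro x y t
    have h1 : (x + y * t) % 6 = (x % 6 + (y % 6) * (t % 6)) % 6 := by
      rw [Nat.add_mod, Nat.mul_mod, ← Nat.add_mod]
      simp [Nat.add_mod, Nat.mul_mod]
    have h2 : ∀ z : ℕ, Nat.Coprime z 6 ↔ Nat.Coprime (z % 6) 6 := by
      intro z
      unfold Nat.Coprime
      rw [Nat.gcd_comm z 6, Nat.gcd_rec 6 z]
    rw [h2, h1, ← h2]
  unfold P6
  rw [h b α t, h b' β t]

/-- the conditions modulo `2`, `3` -/
def c23 (α β γ : ℕ) : Prop := α * β * γ % 2 = 0 ∧ ¬ (α % 2 = 0 ∧ β % 2 = 0) ∧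
  ¬ (α % 2 = 0 ∧ γ % 2 = 0) ∧ ¬ (β % 2 = 0 ∧ γ % 2 = 0) ∧ ¬ (α % 3 = 0 ∧ β % 3 = 0) ∧
  ¬ (α % 3 = 0 ∧ γ % 3 = 0) ∧ ¬ (β % 3 = 0 ∧ γ % 3 = 0)

instance (α β γ : ℕ) : Decidable (c23 α β γ) := by unfold c23; infer_instance

/-- the table of the conditions modulo `6` -/
def tab (α β b b' γ : ℕ) : Prop := (α * b') % 6 = (β * b + γ) % 6 → c23 α β γ →
  ((range 6).filter (fun t => P6 α β b b' t)).card = if α * β * γ % 3 = 0 then 2 else 1

instance (α β b b' γ : ℕ) : Decidable (tab α β b b' γ) := by unfold tab; infer_instance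

theorem tab_all : ∀ α β b b' γ : Fin 6, tab α β b b' γ := by
  decide +kernel

theorem six_classes {α β γ b b' : ℕ} (hadm : AdmT α β γ) (h : α * b' = β * b + γ) :
    ((range 6).filter (fun t => P6 α β b b' t)).card = n6 α β γ := by
  obtain ⟨hα, hβ, hγ, hαβ, hαγ, hβγ, hodd⟩ := hadm
  have h6 : (0 : ℕ) < 6 := by norm_num
  have key := tab_all ⟨α % 6, Nat.mod_lt _ h6⟩ ⟨β % 6, Nat.mod_lt _ h6⟩ ⟨b % 6, Nat.mod_lt _ h6⟩
    ⟨b' % 6, Nat.mod_lt _ h6⟩ ⟨γ % 6, Nat.mod_lt _ h6⟩
  have c1 : (α % 6 * (b' % 6)) % 6 = (β % 6 * (b % 6) + γ % 6) % 6 := by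
    have e1 : (α * b') % 6 = (α % 6 * (b' % 6)) % 6 := Nat.mul_mod _ _ _
    have e2 : (β * b + γ) % 6 = (β % 6 * (b % 6) + γ % 6) % 6 := by
      rw [Nat.add_mod, Nat.mul_mod]
      simp [Nat.add_mod]
    rw [← e1, ← e2, h]
  have hcop : ∀ (p x y : ℕ), p.Prime → Nat.Coprime x y → ¬ (p ∣ x ∧ p ∣ y) := by
    intro p x y hp hxy hh
    exact Nat.not_coprime_of_dvd_of_dvd hp.one_lt hh.1 hh.2 hxy
  have m2 : ∀ x : ℕ, x % 6 % 2 = 0 ↔ 2 ∣ x := by intro x; omega
  have m3 : ∀ x : ℕ, x % 6 % 3 = 0 ↔ 3 ∣ x := by intro x; omega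
  have c2 : (α % 6) * (β % 6) * (γ % 6) % 2 = 0 := by
    have : 2 ∣ α ∨ 2 ∣ β ∨ 2 ∣ γ := by
      by_contra hcon
      push Not at hcon
      apply hodd
      refine ⟨?_, ?_, ?_⟩
      · rw [← Nat.not_even_iff_odd, even_iff_two_dvd]; exact hcon.1
      · rw [← Nat.not_even_iff_odd, even_iff_two_dvd]; exact hcon.2.1
      · rw [← Nat.not_even_iff_odd, even_iff_two_dvd]; exact hcon.2.2
    apply Nat.mod_eq_zero_of_dvd
    rcases this with h1 | h1 | h1
    · exact ((Nat.dvd_of_mod_eq_zero ((m2 α).2 h1)).mul_right _).mul_right _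
    · exact ((Nat.dvd_of_mod_eq_zero ((m2 β).2 h1)).mul_left _).mul_right _
    · exact (Nat.dvd_of_mod_eq_zero ((m2 γ).2 h1)).mul_left _
  have c3 : ¬ (α % 6 % 2 = 0 ∧ β % 6 % 2 = 0) := by
    rw [m2, m2]; exact hcop 2 _ _ Nat.prime_two hαβ
  have c4 : ¬ (α % 6 % 2 = 0 ∧ γ % 6 % 2 = 0) := by
    rw [m2, m2]; exact hcop 2 _ _ Nat.prime_two hαγ
  have c5 : ¬ (β % 6 % 2 = 0 ∧ γ % 6 % 2 = 0) := by
    rw [m2, m2]; exact hcop 2 _ _ Nat.prime_two hβγ
  have d3 : ¬ (α % 6 % 3 = 0 ∧ β % 6 % 3 = 0) := by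
    rw [m3, m3]; exact hcop 3 _ _ Nat.prime_three hαβ
  have d4 : ¬ (α % 6 % 3 = 0 ∧ γ % 6 % 3 = 0) := by
    rw [m3, m3]; exact hcop 3 _ _ Nat.prime_three hαγ
  have d5 : ¬ (β % 6 % 3 = 0 ∧ γ % 6 % 3 = 0) := by
    rw [m3, m3]; exact hcop 3 _ _ Nat.prime_three hβγ
  have hfin : ((range 6).filter (fun t => P6 (α % 6) (β % 6) (b % 6) (b' % 6) t)).card =
      if (α % 6) * (β % 6) * (γ % 6) % 3 = 0 then 2 else 1 :=
    key c1 ⟨c2, c3, c4, c5, d3, d4, d5⟩
  have e1 : (range 6).filter (fun t => P6 α β b b' t) =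
      (range 6).filter (fun t => P6 (α % 6) (β % 6) (b % 6) (b' % 6) t) := by
    apply Finset.filter_congr
    intro t ht
    rw [P6_mod, Nat.mod_eq_of_lt (mem_range.1 ht)]
  rw [e1, hfin, n6]
  have e2 : (α % 6) * (β % 6) * (γ % 6) % 3 = (α * β * γ) % 3 := by
    have : ∀ x : ℕ, x % 6 % 3 = x % 3 := by intro x; omega
    rw [Nat.mul_mod, Nat.mul_mod (α % 6), this, this, this]
    simp [Nat.mul_mod]
  rw [e2]
  congr 1
  rw [Nat.dvd_iff_mod_eq_zero]

/-- a predicate of period `6` on an initial interval of length `6 k` -/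
theorem card_six (P : ℕ → Prop) [DecidablePred P] (hP : ∀ t, P t ↔ P (t % 6)) (k : ℕ) :
    ((range (6 * k)).filter P).card = k * ((range 6).filter P).card := by
  induction k with
  | zero => simp
  | succ k ih =>
    have h1 : range (6 * (k + 1)) = range (6 * k) ∪ Ico (6 * k) (6 * k + 6) := by
      ext t; simp only [mem_range, mem_union, mem_Ico]; omega
    have h2 : Disjoint ((range (6 * k)).filter P) ((Ico (6 * k) (6 * k + 6)).filter P) := by
      apply Finset.disjoint_filter_filter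
      rw [Finset.disjoint_left]
      intro t h1 h2
      rw [mem_range] at h1; rw [mem_Ico] at h2; omega
    rw [h1, Finset.filter_union, Finset.card_union_of_disjoint h2, ih]
    have h3 : ((Ico (6 * k) (6 * k + 6)).filter P).card = ((range 6).filter P).card := by
      apply Finset.card_bij (fun t _ => t % 6)
      · intro t ht
        obtain ⟨h4, h5⟩ := mem_filter.1 ht
        exact mem_filter.2 ⟨mem_range.2 (Nat.mod_lt _ (by norm_num)), (hP t).1 h5⟩
      · intro t ht t' ht' h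
        have h4 := mem_Ico.1 (mem_filter.1 ht).1
        have h5 := mem_Ico.1 (mem_filter.1 ht').1
        have h6 : t % 6 = t' % 6 := h
        omega
      · intro t ht
        obtain ⟨h4, h5⟩ := mem_filter.1 ht
        rw [mem_range] at h4
        refine ⟨6 * k + t, mem_filter.2 ⟨mem_Ico.2 ⟨by omega, by omega⟩, ?_⟩, by omega⟩
        rw [hP]
        have : (6 * k + t) % 6 = t := by omega
        rw [this]; exact h5
    rw [h3]; ring

/-- upper bound for a predicate of period `6` -/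
theorem card_six_le (P : ℕ → Prop) [DecidablePred P] (hP : ∀ t, P t ↔ P (t % 6)) (L : ℕ) :
    (((range L).filter P).card : ℝ) ≤ ((L : ℝ) + 5) / 6 * ((range 6).filter P).card := by
  have h1 : (range L).filter P ⊆ (range (6 * ((L + 5) / 6))).filter P := by
    apply Finset.filter_subset_filter
    intro t ht
    rw [mem_range] at ht ⊢
    omega
  have h2 := card_le_card h1
  rw [card_six P hP] at h2
  have h3 : (((L + 5) / 6 : ℕ) : ℝ) ≤ ((L : ℝ) + 5) / 6 := by
    have := @Nat.cast_div_le ℝ _ _ _ (L + 5) 6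
    push_cast at this
    exact this
  calc (((range L).filter P).card : ℝ) ≤ (((L + 5) / 6 : ℕ) : ℝ) * ((range 6).filter P).card := by
        exact_mod_cast h2
    _ ≤ _ := mul_le_mul_of_nonneg_right h3 (Nat.cast_nonneg _)

/-- lower bound for a predicate of period `6` -/
theorem le_card_six (P : ℕ → Prop) [DecidablePred P] (hP : ∀ t, P t ↔ P (t % 6)) (L : ℕ) :
    ((L : ℝ) - 5) / 6 * ((range 6).filter P).card ≤ (((range L).filter P).card : ℝ) := by
  have h1 : (range (6 * (L / 6))).filter P ⊆ (range L).filter P := by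
    apply Finset.filter_subset_filter
    intro t ht
    rw [mem_range] at ht ⊢
    omega
  have h2 := card_le_card h1
  rw [card_six P hP] at h2
  have h3 : ((L : ℝ) - 5) / 6 ≤ ((L / 6 : ℕ) : ℝ) := by
    have h4 : L ≤ 6 * (L / 6) + 5 := by omega
    have h5 : (L : ℝ) ≤ 6 * ((L / 6 : ℕ) : ℝ) + 5 := by exact_mod_cast h4
    linarith
  calc ((L : ℝ) - 5) / 6 * ((range 6).filter P).card ≤ ((L / 6 : ℕ) : ℝ) * ((range 6).filter P).card :=
        mul_le_mul_of_nonneg_right h3 (Nat.cast_nonneg _)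
    _ ≤ _ := by exact_mod_cast h2

/-- a set of numbers below `L` in one class modulo `m` -/
theorem card_one_class (S : Finset ℕ) (L m : ℕ) (hS : ∀ t ∈ S, t < L)
    (hd : ∀ t ∈ S, ∀ t' ∈ S, t % m = t' % m) : (S.card : ℝ) ≤ (L : ℝ) / m + 1 := by
  have h1 : S.card ≤ (range (L / m + 1)).card := by
    apply Finset.card_le_card_of_injOn (fun t => t / m)
    · intro t ht
      rw [mem_coe, mem_range]
      have := hS t ht
      have h2 : t / m ≤ L / m := Nat.div_le_div_right this.le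
      show t / m < L / m + 1
      omega
    · intro t ht t' ht' h
      have h2 : t / m = t' / m := h
      have h3 := hd t ht t' ht'
      rw [← Nat.div_add_mod t m, ← Nat.div_add_mod t' m, h2, h3]
  rw [card_range] at h1
  have h2 : ((L / m : ℕ) : ℝ) ≤ (L : ℝ) / m := Nat.cast_div_le
  have h3 : (S.card : ℝ) ≤ ((L / m : ℕ) : ℝ) + 1 := by exact_mod_cast h1
  linarith

/-- the multiples of a prime `p ≥ 5` in an arithmetic progression of a difference prime to `p`,
under the condition modulo `6` -/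
theorem card_p (P : ℕ → Prop) [DecidablePred P] (hP : ∀ t, P t ↔ P (t % 6)) (L p x y : ℕ)
    (hp : p.Prime) (hp5 : 5 ≤ p) (hy : ¬ p ∣ y) :
    (((range L).filter (fun t => P t ∧ p ∣ x + y * t)).card : ℝ) ≤
      ((range 6).filter P).card * ((L : ℝ) / (6 * p) + 1) := by
  classical
  have h1 : (range L).filter (fun t => P t ∧ p ∣ x + y * t) ⊆
      ((range 6).filter P).biUnion (fun r => (range L).filter (fun t => t % 6 = r ∧ p ∣ x + y * t)) := by
    intro t ht
    obtain ⟨h2, h3, h4⟩ := mem_filter.1 ht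
    rw [mem_biUnion]
    exact ⟨t % 6, mem_filter.2 ⟨mem_range.2 (Nat.mod_lt _ (by norm_num)), (hP t).1 h3⟩,
      mem_filter.2 ⟨h2, rfl, h4⟩⟩
  have h2 : ∀ r ∈ (range 6).filter P,
      (((range L).filter (fun t => t % 6 = r ∧ p ∣ x + y * t)).card : ℝ) ≤ (L : ℝ) / (6 * p) + 1 := by
    intro r _
    have h3 := card_one_class ((range L).filter (fun t => t % 6 = r ∧ p ∣ x + y * t)) L (6 * p)
      (fun t ht => mem_range.1 (mem_filter.1 ht).1) (by
        intro t ht t' ht'
        obtain ⟨-, h4, h5⟩ := mem_filter.1 ht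
        obtain ⟨-, h6, h7⟩ := mem_filter.1 ht'
        have hpz : Prime (p : ℤ) := Nat.prime_iff_prime_int.1 hp
        have h8 : (p : ℤ) ∣ (t : ℤ) - t' := by
          have h9 : (p : ℤ) ∣ (y : ℤ) * ((t : ℤ) - t') := by
            have a1 : (p : ℤ) ∣ (x : ℤ) + y * t := by exact_mod_cast h5
            have a2 : (p : ℤ) ∣ (x : ℤ) + y * t' := by exact_mod_cast h7
            have := dvd_sub a1 a2
            have e : (x : ℤ) + y * t - (x + y * t') = y * ((t : ℤ) - t') := by ring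
            rwa [e] at this
          rcases hpz.dvd_or_dvd h9 with h10 | h10
          · exact absurd (by exact_mod_cast h10) hy
          · exact h10
        have h9 : (6 : ℤ) ∣ (t : ℤ) - t' := by omega
        have hcop : IsCoprime (6 : ℤ) p := by
          have : Nat.Coprime 6 p := by
            have h11 : Nat.Coprime p 6 := by
              rw [Nat.Prime.coprime_iff_not_dvd hp]
              intro h12
              have := Nat.le_of_dvd (by norm_num) h12
              interval_cases p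
              · omega
              · exact absurd hp (by norm_num)
            exact h11.symm
          exact_mod_cast Nat.isCoprime_iff_coprime.2 this
        have h10 : (6 : ℤ) * p ∣ (t : ℤ) - t' := hcop.mul_dvd h9 h8
        have h11 : ((6 * p : ℕ) : ℤ) ∣ (t' : ℤ) - t := by
          push_cast
          have := h10.neg_right
          rwa [neg_sub] at this
        exact (Nat.modEq_iff_dvd.2 h11))
    push_cast at h3
    exact h3
  calc (((range L).filter (fun t => P t ∧ p ∣ x + y * t)).card : ℝ)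
      ≤ (∑ r ∈ (range 6).filter P, ((range L).filter (fun t => t % 6 = r ∧ p ∣ x + y * t)).card : ℕ) := by
        exact_mod_cast (card_le_card h1).trans card_biUnion_le
    _ ≤ ∑ _r ∈ (range 6).filter P, ((L : ℝ) / (6 * p) + 1) := by
        push_cast
        exact Finset.sum_le_sum h2
    _ = _ := by rw [Finset.sum_const, nsmul_eq_mul]

end Pool.Agent.K7.H63.TQ
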