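import Mathlib
import Pool.Agent.K7.H63.TQ.Count

/-! Logarithmic sums over admissible triples: the local density at `3`. -/

set_option autoImplicit false

namespace Pool.Agent.K7.H63.TQ

open Finset

/-- a box of triples -/
def Rg (X Y0 Y : ℕ) : Finset (ℕ × ℕ × ℕ) := Icc 1 X ×ˢ Icc 1 X ×ˢ Icc Y0 Y

/-- the logarithmic weight -/
noncomputable def tt (T : ℕ × ℕ × ℕ) : ℝ := 1 / ((T.1 : ℝ) * T.2.1 * T.2.2)

theorem tt_nonneg (T : ℕ × ℕ × ℕ) : 0 ≤ tt T := by unfold tt; positivity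

/-- admissible triples -/
def Ad (T : ℕ × ℕ × ℕ) : Prop := AdmT T.1 T.2.1 T.2.2

/-- the coordinates -/
def co (i : Fin 3) (T : ℕ × ℕ × ℕ) : ℕ := if i = 0 then T.1 else if i = 1 then T.2.1 else T.2.2

/-- multiplication of one coordinate by `3` -/
def sc (i : Fin 3) (T : ℕ × ℕ × ℕ) : ℕ × ℕ × ℕ :=
  if i = 0 then (3 * T.1, T.2.1, T.2.2) else if i = 1 then (T.1, 3 * T.2.1, T.2.2)
  else (T.1, T.2.1, 3 * T.2.2)

/-- division of one coordinate by `3` -/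
def dv (i : Fin 3) (T : ℕ × ℕ × ℕ) : ℕ × ℕ × ℕ :=
  if i = 0 then (T.1 / 3, T.2.1, T.2.2) else if i = 1 then (T.1, T.2.1 / 3, T.2.2)
  else (T.1, T.2.1, T.2.2 / 3)

/-- core triples -/
def Core (T : ℕ × ℕ × ℕ) : Prop := Ad T ∧ ∀ i, ¬ 3 ∣ co i T

theorem core_iff (T : ℕ × ℕ × ℕ) : Core T ↔ Ad T ∧ ¬ 3 ∣ T.1 * T.2.1 * T.2.2 := by
  unfold Core
  have h3 : Nat.Prime 3 := Nat.prime_three
  constructor
  · rintro ⟨h1, h2⟩
    refine ⟨h1, ?_⟩
    rw [h3.dvd_mul, h3.dvd_mul]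
    have a := h2 0
    have b := h2 1
    have c := h2 2
    simp [co] at a b c
    tauto
  · rintro ⟨h1, h2⟩
    refine ⟨h1, ?_⟩
    rw [h3.dvd_mul, h3.dvd_mul] at h2
    intro i
    fin_cases i <;> simp [co] <;> tauto

theorem sc_inj (i : Fin 3) : Function.Injective (sc i) := by
  rintro ⟨a, b, c⟩ ⟨a', b', c'⟩ h
  fin_cases i <;> simp [sc] at h <;> simp <;> omega

theorem tt_sc (i : Fin 3) (T : ℕ × ℕ × ℕ) : tt (sc i T) = tt T / 3 := by
  obtain ⟨a, b, c⟩ := T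
  fin_cases i <;> simp [sc, tt] <;> ring

theorem sc_dv (i : Fin 3) (T : ℕ × ℕ × ℕ) (h : 3 ∣ co i T) : sc i (dv i T) = T := by
  obtain ⟨a, b, c⟩ := T
  fin_cases i <;> simp [sc, dv, co] at h ⊢ <;> omega

/-- the other coordinates of an admissible triple are prime to `3` -/
theorem other {T : ℕ × ℕ × ℕ} (hT : Ad T) {i j : Fin 3} (hij : i ≠ j) (h : 3 ∣ co i T) :
    ¬ 3 ∣ co j T := by
  obtain ⟨a, b, c⟩ := T
  obtain ⟨-, -, -, h1, h2, h3, -⟩ := hT
  simp only at h1 h2 h3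
  intro h'
  have key : ∀ x y : ℕ, Nat.Coprime x y → 3 ∣ x → 3 ∣ y → False := fun x y hxy hx hy =>
    Nat.not_coprime_of_dvd_of_dvd (by norm_num) hx hy hxy
  fin_cases i <;> fin_cases j <;> simp [co] at h h' hij
  · exact key _ _ h1 h h'
  · exact key _ _ h2 h h'
  · exact key _ _ h1 h' h
  · exact key _ _ h3 h h'
  · exact key _ _ h2 h' h
  · exact key _ _ h3 h' h

/-- admissibility and multiplication by `3` -/
theorem ad_sc {i : Fin 3} {T : ℕ × ℕ × ℕ} (h : ∀ j, j ≠ i → ¬ 3 ∣ co j T) :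
    Ad (sc i T) ↔ Ad T := by
  obtain ⟨a, b, c⟩ := T
  have c3 : ∀ x : ℕ, ¬ 3 ∣ x → Nat.Coprime 3 x := fun x hx =>
    (Nat.Prime.coprime_iff_not_dvd Nat.prime_three).2 hx
  have l1 : ∀ x y : ℕ, ¬ 3 ∣ y → (Nat.Coprime (3 * x) y ↔ Nat.Coprime x y) := by
    intro x y hy
    rw [Nat.coprime_mul_iff_left]
    exact ⟨fun h => h.2, fun h => ⟨c3 y hy, h⟩⟩
  have l2 : ∀ x y : ℕ, ¬ 3 ∣ x → (Nat.Coprime x (3 * y) ↔ Nat.Coprime x y) := by
    intro x y hx
    rw [Nat.coprime_comm, l1 y x hx, Nat.coprime_comm]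
  have o3 : ∀ x : ℕ, Odd (3 * x) ↔ Odd x := by
    intro x
    rw [Nat.odd_mul]
    exact ⟨fun h => h.2, fun h => ⟨by decide, h⟩⟩
  have p3 : ∀ x : ℕ, 1 ≤ 3 * x ↔ 1 ≤ x := by intro x; omega
  have h0 := h 0
  have h1 := h 1
  have h2 := h 2
  fin_cases i <;> simp [co] at h0 h1 h2
  · show AdmT (3 * a) b c ↔ AdmT a b c
    unfold AdmT
    rw [l1 _ _ h1, l1 _ _ h2, o3, p3]
  · show AdmT a (3 * b) c ↔ AdmT a b c
    unfold AdmT
    rw [l2 _ _ h0, l1 _ _ h2, o3, p3]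
  · show AdmT a b (3 * c) ↔ AdmT a b c
    unfold AdmT
    rw [l2 _ _ h0, l2 _ _ h1, o3, p3]

open Classical in
/-- the sum over core triples -/
noncomputable def Cs (X Y0 Y : ℕ) : ℝ := ∑ T ∈ (Rg X Y0 Y).filter Core, tt T

open Classical in
/-- the sum over admissible triples with one coordinate divisible by `3` -/
noncomputable def As (i : Fin 3) (X Y0 Y : ℕ) : ℝ :=
  ∑ T ∈ (Rg X Y0 Y).filter (fun T => Ad T ∧ 3 ∣ co i T), tt T

theorem mem_Rg {X Y0 Y : ℕ} {T : ℕ × ℕ × ℕ} : T ∈ Rg X Y0 Y ↔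
    (1 ≤ T.1 ∧ T.1 ≤ X) ∧ (1 ≤ T.2.1 ∧ T.2.1 ≤ X) ∧ (Y0 ≤ T.2.2 ∧ T.2.2 ≤ Y) := by
  unfold Rg
  rw [mem_product, mem_product, mem_Icc, mem_Icc, mem_Icc]

theorem Cs_nonneg (X Y0 Y : ℕ) : 0 ≤ Cs X Y0 Y := Finset.sum_nonneg fun T _ => tt_nonneg T
theorem As_nonneg (i : Fin 3) (X Y0 Y : ℕ) : 0 ≤ As i X Y0 Y :=
  Finset.sum_nonneg fun T _ => tt_nonneg T

theorem Rg_mono {X Y0 Y X' Y0' Y' : ℕ} (h1 : X ≤ X') (h2 : Y0' ≤ Y0) (h3 : Y ≤ Y') :
    Rg X Y0 Y ⊆ Rg X' Y0' Y' := by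
  intro T hT
  rw [mem_Rg] at hT ⊢
  omega

theorem Cs_mono {X Y0 Y X' Y0' Y' : ℕ} (h1 : X ≤ X') (h2 : Y0' ≤ Y0) (h3 : Y ≤ Y') :
    Cs X Y0 Y ≤ Cs X' Y0' Y' := by
  classical
  unfold Cs
  apply Finset.sum_le_sum_of_subset_of_nonneg
  · exact Finset.filter_subset_filter _ (Rg_mono h1 h2 h3)
  · intro T _ _; exact tt_nonneg T

open Classical in
/-- core triples together with those divisible by `3` at the place `i` -/
theorem Cs_add_As (i : Fin 3) (X Y0 Y : ℕ) : Cs X Y0 Y + As i X Y0 Y =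
    ∑ T ∈ (Rg X Y0 Y).filter (fun T => Ad T ∧ ∀ j, j ≠ i → ¬ 3 ∣ co j T), tt T := by
  unfold Cs As
  rw [← Finset.sum_union]
  · apply Finset.sum_congr _ (fun _ _ => rfl)
    ext T
    simp only [mem_union, mem_filter]
    constructor
    · rintro (⟨h1, h2, h3⟩ | ⟨h1, h2, h3⟩)
      · exact ⟨h1, h2, fun j _ => h3 j⟩
      · exact ⟨h1, h2, fun j hj => other h2 hj.symm h3⟩
    · rintro ⟨h1, h2, h3⟩
      by_cases h4 : 3 ∣ co i T
      · right; exact ⟨h1, h2, h4⟩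
      · left
        refine ⟨h1, h2, fun j => ?_⟩
        by_cases hj : j = i
        · rw [hj]; exact h4
        · exact h3 j hj
  · rw [Finset.disjoint_filter]
    intro T _ h1 h2
    exact h1.2 i h2.2

/-- upper bound for the triples divisible by `3` -/
theorem As_le (i : Fin 3) (X Y : ℕ) : As i X 1 Y ≤ Cs X 1 Y / 2 := by
  classical
  have h1 : As i X 1 Y ≤ (Cs X 1 Y + As i X 1 Y) / 3 := by
    rw [Cs_add_As i]
    unfold As
    have h2 : ∀ T ∈ (Rg X 1 Y).filter (fun T => Ad T ∧ 3 ∣ co i T), tt T = tt (dv i T) / 3 := by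
      intro T hT
      obtain ⟨-, -, h3⟩ := mem_filter.1 hT
      rw [← tt_sc i, sc_dv i T h3]
    rw [Finset.sum_congr rfl h2, ← Finset.sum_div]
    apply div_le_div_of_nonneg_right _ (by norm_num)
    have h3 : ∑ T ∈ (Rg X 1 Y).filter (fun T => Ad T ∧ 3 ∣ co i T), tt (dv i T) =
        ∑ T ∈ ((Rg X 1 Y).filter (fun T => Ad T ∧ 3 ∣ co i T)).image (dv i), tt T := by
      rw [Finset.sum_image]
      intro T hT T' hT' h
      have e1 := sc_dv i T (mem_filter.1 (mem_coe.1 hT)).2.2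
      have e2 := sc_dv i T' (mem_filter.1 (mem_coe.1 hT')).2.2
      rw [← e1, ← e2, h]
    rw [h3]
    apply Finset.sum_le_sum_of_subset_of_nonneg
    · intro S hS
      obtain ⟨T, hT, rfl⟩ := mem_image.1 hS
      obtain ⟨h4, h5, h6⟩ := mem_filter.1 hT
      have h7 := sc_dv i T h6
      have h8 : ∀ j, j ≠ i → ¬ 3 ∣ co j (dv i T) := by
        intro j hj
        have h9 := other h5 hj.symm h6
        have h10 : co j (dv i T) = co j T := by
          obtain ⟨a, b, c⟩ := T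
          fin_cases i <;> fin_cases j <;> simp [dv, co] at hj ⊢
        rw [h10]; exact h9
      refine mem_filter.2 ⟨?_, ?_, h8⟩
      · have h9 : (dv i T).1 ≤ T.1 ∧ (dv i T).2.1 ≤ T.2.1 ∧ (dv i T).2.2 ≤ T.2.2 ∧
            1 ≤ (dv i T).1 ∧ 1 ≤ (dv i T).2.1 ∧ 1 ≤ (dv i T).2.2 := by
          obtain ⟨a, b, c⟩ := T
          rw [mem_Rg] at h4
          fin_cases i <;> simp [dv, co] at h4 h6 ⊢ <;> omega
        rw [mem_Rg] at h4 ⊢
        omega
      · rw [← ad_sc (i := i) h8, h7]; exact h5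
    · intro T _ _; exact tt_nonneg T
  linarith

/-- lower bound for the triples divisible by `3`, one step -/
theorem le_As_step (i : Fin 3) (X Y0 Y : ℕ) :
    (Cs (X / 3) Y0 (Y / 3) + As i (X / 3) Y0 (Y / 3)) / 3 ≤ As i X Y0 Y := by
  classical
  rw [Cs_add_As i]
  unfold As
  have h2 : ∀ T ∈ (Rg (X / 3) Y0 (Y / 3)).filter (fun T => Ad T ∧ ∀ j, j ≠ i → ¬ 3 ∣ co j T),
      tt T / 3 = tt (sc i T) := fun T _ => (tt_sc i T).symm
  rw [Finset.sum_div, Finset.sum_congr rfl h2, ← Finset.sum_image (f := tt)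
    (fun T _ T' _ h => sc_inj i h)]
  apply Finset.sum_le_sum_of_subset_of_nonneg
  · intro S hS
    obtain ⟨T, hT, rfl⟩ := mem_image.1 hS
    obtain ⟨h4, h5, h6⟩ := mem_filter.1 hT
    refine mem_filter.2 ⟨?_, (ad_sc h6).2 h5, ?_⟩
    · obtain ⟨a, b, c⟩ := T
      rw [mem_Rg] at h4 ⊢
      fin_cases i <;> simp [sc] at h4 ⊢ <;> omega
    · obtain ⟨a, b, c⟩ := T
      fin_cases i <;> simp [sc, co]
  · intro T _ _; exact tt_nonneg T

/-- lower bound for the triples divisible by `3` -/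
theorem le_As (i : Fin 3) (Y0 : ℕ) (J : ℕ) : ∀ X Y : ℕ,
    (1 - 1 / 3 ^ J) / 2 * Cs (X / 3 ^ J) Y0 (Y / 3 ^ J) ≤ As i X Y0 Y := by
  induction J with
  | zero => intro X Y; simp; exact As_nonneg _ _ _ _
  | succ J ih =>
    intro X Y
    refine le_trans ?_ (le_As_step i X Y0 Y)
    have h1 := ih (X / 3) (Y / 3)
    have e : ∀ Z : ℕ, Z / 3 / 3 ^ J = Z / 3 ^ (J + 1) := by
      intro Z; rw [Nat.div_div_eq_div_mul, pow_succ, mul_comm]
    rw [e, e] at h1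
    have h2 : Cs (X / 3 ^ (J + 1)) Y0 (Y / 3 ^ (J + 1)) ≤ Cs (X / 3) Y0 (Y / 3) := by
      apply Cs_mono _ le_rfl
      · rw [← e]; exact Nat.div_le_self _ _
      · rw [← e]; exact Nat.div_le_self _ _
    have h3 : (1 - 1 / (3 : ℝ) ^ (J + 1)) / 2 * Cs (X / 3 ^ (J + 1)) Y0 (Y / 3 ^ (J + 1)) =
        (Cs (X / 3 ^ (J + 1)) Y0 (Y / 3 ^ (J + 1)) +
          (1 - 1 / 3 ^ J) / 2 * Cs (X / 3 ^ (J + 1)) Y0 (Y / 3 ^ (J + 1))) / 3 := by
      rw [pow_succ]; field_simp; ring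
    rw [h3]
    linarith

open Classical in
/-- the sum over all admissible triples -/
theorem all_eq (X Y0 Y : ℕ) : ∑ T ∈ (Rg X Y0 Y).filter Ad, tt T =
    Cs X Y0 Y + As 0 X Y0 Y + As 1 X Y0 Y + As 2 X Y0 Y := by
  have h1 : ∀ T : ℕ × ℕ × ℕ, (if Ad T then tt T else 0) = (if Core T then tt T else 0) +
      (if Ad T ∧ 3 ∣ co 0 T then tt T else 0) + (if Ad T ∧ 3 ∣ co 1 T then tt T else 0) +
      (if Ad T ∧ 3 ∣ co 2 T then tt T else 0) := by
    intro T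
    by_cases hT : Ad T
    · by_cases h0 : 3 ∣ co 0 T
      · have h1 := other hT (i := 0) (j := 1) (by decide) h0
        have h2 := other hT (i := 0) (j := 2) (by decide) h0
        have hc : ¬ Core T := fun h => h.2 0 h0
        simp [hT, h0, h1, h2, hc]
      · by_cases h1 : 3 ∣ co 1 T
        · have h2 := other hT (i := 1) (j := 2) (by decide) h1
          have hc : ¬ Core T := fun h => h.2 1 h1
          simp [hT, h0, h1, h2, hc]
        · by_cases h2 : 3 ∣ co 2 T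
          · have hc : ¬ Core T := fun h => h.2 2 h2
            simp [hT, h0, h1, h2, hc]
          · have hc : Core T := by
              refine ⟨hT, fun i => ?_⟩
              fin_cases i
              · exact h0
              · exact h1
              · exact h2
            simp [hT, h0, h1, h2, hc]
    · have hc : ¬ Core T := fun h => hT h.1
      simp [hT, hc]
  rw [Finset.sum_filter, Finset.sum_congr rfl (fun T _ => h1 T), Finset.sum_add_distrib,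
    Finset.sum_add_distrib, Finset.sum_add_distrib, ← Finset.sum_filter, ← Finset.sum_filter,
    ← Finset.sum_filter, ← Finset.sum_filter]
  rfl

open Classical in
theorem all_le (X Y : ℕ) : ∑ T ∈ (Rg X 1 Y).filter Ad, tt T ≤ 5 / 2 * Cs X 1 Y := by
  rw [all_eq]
  have h0 := As_le 0 X Y
  have h1 := As_le 1 X Y
  have h2 := As_le 2 X Y
  linarith

open Classical in
/-- the weighted sum, lower bound -/
theorem le_n6 (J X Y0 Y : ℕ) :
    (4 - 3 / 3 ^ J) * Cs (X / 3 ^ J) Y0 (Y / 3 ^ J) ≤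
      ∑ T ∈ (Rg X Y0 Y).filter Ad, (n6 T.1 T.2.1 T.2.2 : ℝ) * tt T := by
  have h1 : ∀ T : ℕ × ℕ × ℕ, (if Ad T then (n6 T.1 T.2.1 T.2.2 : ℝ) * tt T else 0) =
      2 * (if Ad T then tt T else 0) - (if Core T then tt T else 0) := by
    intro T
    by_cases hT : Ad T
    · by_cases hc : Core T
      · have h3 : ¬ 3 ∣ T.1 * T.2.1 * T.2.2 := ((core_iff T).1 hc).2
        simp only [hT, hc, if_true, n6, if_neg h3]
        push_cast; ring
      · have h3 : 3 ∣ T.1 * T.2.1 * T.2.2 := by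
          by_contra h3
          exact hc ((core_iff T).2 ⟨hT, h3⟩)
        simp only [hT, hc, if_true, if_false, n6, if_pos h3]
        push_cast; ring
    · have hc : ¬ Core T := fun h => hT h.1
      simp [hT, hc]
  rw [Finset.sum_filter, Finset.sum_congr rfl (fun T _ => h1 T), Finset.sum_sub_distrib,
    ← Finset.mul_sum, ← Finset.sum_filter, ← Finset.sum_filter, all_eq]
  have e : ∑ T ∈ (Rg X Y0 Y).filter Core, tt T = Cs X Y0 Y := rfl
  rw [e]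
  have h2 := le_As 0 Y0 J X Y
  have h3 := le_As 1 Y0 J X Y
  have h4 := le_As 2 Y0 J X Y
  have h5 : Cs (X / 3 ^ J) Y0 (Y / 3 ^ J) ≤ Cs X Y0 Y :=
    Cs_mono (Nat.div_le_self _ _) le_rfl (Nat.div_le_self _ _)
  have h6 : (4 - 3 / 3 ^ J) * Cs (X / 3 ^ J) Y0 (Y / 3 ^ J) = Cs (X / 3 ^ J) Y0 (Y / 3 ^ J) +
      6 * ((1 - 1 / 3 ^ J) / 2 * Cs (X / 3 ^ J) Y0 (Y / 3 ^ J)) := by ring
  rw [h6]
  linarith

end Pool.Agent.K7.H63.TQ
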