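import Mathlib
import Pool.Agent.K7.H63.TQ.Count

/-! The number of pairs of shifts with a given determinant: upper and lower bounds. -/

set_option autoImplicit false

namespace Pool.Agent.K7.H63.TQ

open Finset

/-- the pairs of shifts `b < G α D`, `b' < G β D` with `α b' - β b = γ` -/
def NS (G D α β γ : ℕ) : Finset (ℕ × ℕ) :=
  (range (G * α * D) ×ˢ range (G * β * D)).filter (fun x => α * x.2 = β * x.1 + γ ∧
    Nat.Coprime x.1 6 ∧ Nat.Coprime x.2 6 ∧ Nat.Coprime x.1 (G * α) ∧ Nat.Coprime x.2 (G * β))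

/-- a base solution -/
theorem base_sol {α β : ℕ} (γ : ℕ) (hα : 1 ≤ α) (h : Nat.Coprime α β) :
    ∃ b b' : ℕ, b < α ∧ α * b' = β * b + γ := by
  obtain ⟨u, v, huv⟩ := Nat.isCoprime_iff_coprime.2 h
  have hα0 : (0 : ℤ) < α := by exact_mod_cast hα
  obtain ⟨b, hb⟩ : ∃ b : ℕ, (b : ℤ) = (-(γ * v)) % α := by
    refine ⟨((-(γ * v)) % (α : ℤ)).toNat, ?_⟩
    exact Int.toNat_of_nonneg (Int.emod_nonneg _ hα0.ne')
  have hbα : b < α := by
    have : (b : ℤ) < α := by rw [hb]; exact Int.emod_lt_of_pos _ hα0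
    exact_mod_cast this
  have hd : (α : ℤ) ∣ (β * b + γ : ℕ) := by
    have h1 : (α : ℤ) ∣ (-(γ * v)) - b := by
      rw [hb]; exact Int.dvd_self_sub_emod
    obtain ⟨k, hk⟩ := h1
    refine ⟨γ * u - β * k, ?_⟩
    push_cast
    have h2 : (b : ℤ) = -(γ * v) - α * k := by linarith
    rw [h2]
    linear_combination (-(γ : ℤ)) * huv
  obtain ⟨b', hb'⟩ := Int.natCast_dvd_natCast.1 hd
  exact ⟨b, b', hbα, hb'.symm⟩

/-- the parametrization -/
theorem NS_card {G D α β γ b b' : ℕ} (hadm : AdmT α β γ) (hG : 1 ≤ G) (hb : b < α)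
    (h : α * b' = β * b + γ) :
    ∃ L : ℕ, ((NS G D α β γ).card = ((range L).filter (fun t => P6 α β b b' t ∧
      Nat.Coprime (b + α * t) (G * α) ∧ Nat.Coprime (b' + β * t) (G * β))).card) ∧
      ((γ < G * α * β * D → (L : ℝ) ≤ G * D - γ / (α * β) + 1)) ∧
      ((G : ℝ) * D - γ / (α * β) - 1 ≤ L) ∧ (G * α * β * D ≤ γ → L = 0) := by
  obtain ⟨hα, hβ, hγ, hαβ, hαγ, hβγ, hodd⟩ := hadm
  have hα0 : (0 : ℝ) < α := by exact_mod_cast hα
  have hβ0 : (0 : ℝ) < β := by exact_mod_cast hβ
  obtain ⟨L, hL⟩ : ∃ L : ℕ, L = (G * β * D - b' + β - 1) / β := ⟨_, rfl⟩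
  have hLiff : ∀ t : ℕ, t < L ↔ b' + β * t < G * β * D := by
    intro t
    rw [hL]
    constructor
    · intro ht
      have h1 : t + 1 ≤ (G * β * D - b' + β - 1) / β := ht
      have h2 := (Nat.le_div_iff_mul_le (by omega)).1 h1
      have h3 : (t + 1) * β = β * t + β := by ring
      omega
    · intro ht
      have h1 : t + 1 ≤ (G * β * D - b' + β - 1) / β := by
        rw [Nat.le_div_iff_mul_le (by omega)]
        have h3 : (t + 1) * β = β * t + β := by ring
        omega
      exact h1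
  refine ⟨L, ?_, ?_, ?_, ?_⟩
  · symm
    apply Finset.card_bij (fun t _ => (b + α * t, b' + β * t))
    · intro t ht
      obtain ⟨h1, h2, h3, h4⟩ := mem_filter.1 ht
      have h5 := (hLiff t).1 (mem_range.1 h1)
      have h6 : α * (b' + β * t) = β * (b + α * t) + γ := by
        rw [mul_add, h]; ring
      refine mem_filter.2 ⟨mem_product.2 ⟨mem_range.2 ?_, mem_range.2 h5⟩, h6, h2.1, h2.2, h3, h4⟩
      show b + α * t < G * α * D
      have h7 : β * (b + α * t) < β * (G * α * D) := by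
        have h8 : α * (b' + β * t) < α * (G * β * D) := Nat.mul_lt_mul_of_pos_left h5 (by omega)
        have h9 : α * (G * β * D) = β * (G * α * D) := by ring
        omega
      exact Nat.lt_of_mul_lt_mul_left h7
    · intro t _ t' _ he
      have h1 : b + α * t = b + α * t' := congrArg Prod.fst he
      exact Nat.eq_of_mul_eq_mul_left (by omega : 0 < α) (by omega)
    · rintro ⟨x, x'⟩ hx
      obtain ⟨h1, h2, h3, h4, h5, h6⟩ := mem_filter.1 hx
      simp only at h2 h3 h4 h5 h6
      have h1' := (mem_range.1 (mem_product.1 h1).2)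
      simp only at h1'
      -- `x ≡ b` modulo `α`
      have hd : (α : ℤ) ∣ (x : ℤ) - b := by
        have e : (β : ℤ) * ((x : ℤ) - b) = α * ((x' : ℤ) - b') := by
          have e1 : (α : ℤ) * x' = β * x + γ := by exact_mod_cast h2
          have e2 : (α : ℤ) * b' = β * b + γ := by exact_mod_cast h
          linear_combination e2 - e1
        have h7 : (α : ℤ) ∣ (β : ℤ) * ((x : ℤ) - b) := by rw [e]; exact dvd_mul_right _ _
        exact (Nat.isCoprime_iff_coprime.2 hαβ).dvd_of_dvd_mul_left h7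
      have hbx : b ≤ x := by
        by_contra hcon
        push Not at hcon
        have h7 : (α : ℤ) ∣ (b : ℤ) - x := by rw [← neg_sub]; exact hd.neg_right
        have h8 : (0 : ℤ) < (b : ℤ) - x := by
          have : (x : ℤ) < b := by exact_mod_cast hcon
          linarith
        have h9 := Int.le_of_dvd h8 h7
        have h10 : (b : ℤ) < α := by exact_mod_cast hb
        have h11 : (0 : ℤ) ≤ x := Nat.cast_nonneg _
        linarith
      obtain ⟨k, hk⟩ := hd
      have hk0 : 0 ≤ k := by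
        by_contra hcon
        push Not at hcon
        have h7 : (b : ℤ) ≤ x := by exact_mod_cast hbx
        have h8 : (0 : ℤ) < α := by exact_mod_cast hα
        nlinarith
      obtain ⟨t, rfl⟩ := Int.eq_ofNat_of_zero_le hk0
      have hx1 : x = b + α * t := by
        have : (x : ℤ) = b + α * t := by linarith
        exact_mod_cast this
      have hx2 : x' = b' + β * t := by
        have h7 : α * x' = α * (b' + β * t) := by
          rw [h2, mul_add, h, hx1]; ring
        exact Nat.eq_of_mul_eq_mul_left (by omega) h7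
      subst hx1
      subst hx2
      refine ⟨t, mem_filter.2 ⟨mem_range.2 ((hLiff t).2 h1'), ⟨h3, h4⟩, h5, h6⟩, rfl⟩
  · intro hγ'
    -- upper bound for `L`
    have hb'0 : (γ : ℝ) / α ≤ b' := by
      rw [div_le_iff₀ hα0]
      have : γ ≤ b' * α := by rw [mul_comm, h]; exact Nat.le_add_left _ _
      exact_mod_cast this
    by_cases hcase : b' ≤ G * β * D
    · have h1 : (L : ℝ) ≤ ((G * β * D - b' + β - 1 : ℕ) : ℝ) / β := by
        rw [hL]; exact Nat.cast_div_le
      have h2 : ((G * β * D - b' + β - 1 : ℕ) : ℝ) ≤ (G * β * D : ℝ) - b' + β := by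
        have h3 : G * β * D - b' + β - 1 + b' ≤ G * β * D + β := by omega
        have h4 : ((G * β * D - b' + β - 1 : ℕ) : ℝ) + b' ≤ (G * β * D : ℝ) + β := by exact_mod_cast h3
        linarith
      calc (L : ℝ) ≤ ((G * β * D - b' + β - 1 : ℕ) : ℝ) / β := h1
        _ ≤ ((G * β * D : ℝ) - γ / α + β) / β := by
            apply div_le_div_of_nonneg_right _ hβ0.le
            linarith
        _ = G * D - γ / (α * β) + 1 := by field_simp
    · push Not at hcase
      have h1 : L = 0 := by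
        by_contra hne
        have h2 : 0 < L := Nat.pos_of_ne_zero hne
        have h3 := (hLiff 0).1 h2
        omega
      rw [h1]
      have h2 : (γ : ℝ) / (α * β) ≤ G * D := by
        rw [div_le_iff₀ (by positivity)]
        have h3 : γ ≤ G * D * (α * β) := by
          have e : G * D * (α * β) = G * α * β * D := by ring
          rw [e]; exact hγ'.le
        exact_mod_cast h3
      push_cast
      linarith
  · -- lower bound for `L`
    have hb'1 : (b' : ℝ) ≤ β + γ / α := by
      have h1 : (α : ℝ) * b' = β * b + γ := by exact_mod_cast h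
      have h2 : (b : ℝ) ≤ α := by exact_mod_cast hb.le
      have h3 : (b' : ℝ) = (β * b + γ) / α := by field_simp; linarith
      rw [h3, div_le_iff₀ hα0, add_mul]
      have h4 : (γ : ℝ) / α * α = γ := by field_simp
      rw [h4]
      have h5 : (β : ℝ) * b ≤ β * α := mul_le_mul_of_nonneg_left h2 hβ0.le
      linarith
    have h1 : ¬ (b' + β * L < G * β * D) := fun hh => lt_irrefl L ((hLiff L).2 hh)
    push Not at h1
    have h2 : (G * β * D : ℝ) ≤ b' + β * L := by exact_mod_cast h1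
    have h3 : (G : ℝ) * D ≤ (b' : ℝ) / β + L := by
      have e : (b' : ℝ) / β + L = (b' + β * L) / β := by field_simp
      rw [e, le_div_iff₀ hβ0]
      linarith
    have h4 : (b' : ℝ) / β ≤ 1 + γ / (α * β) := by
      rw [div_le_iff₀ hβ0]
      have e : (1 + (γ : ℝ) / (α * β)) * β = β + γ / α := by field_simp
      rw [e]; exact hb'1
    linarith
  · intro hγ'
    by_contra hne
    have h2 : 0 < L := Nat.pos_of_ne_zero hne
    have h3 := (hLiff 0).1 h2
    have h4 : α * b' < α * (G * β * D) := Nat.mul_lt_mul_of_pos_left (by omega) (by omega)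
    have h5 : α * (G * β * D) = G * α * β * D := by ring
    have h6 : γ ≤ α * b' := by rw [h]; exact Nat.le_add_left _ _
    omega

/-- no solutions when `γ` is large -/
theorem NS_empty {G D α β γ : ℕ} (hadm : AdmT α β γ) (hG : 1 ≤ G) (hγ : G * α * β * D ≤ γ) :
    (NS G D α β γ).card = 0 := by
  obtain ⟨b, b', hb, h⟩ := base_sol γ hadm.1 hadm.2.2.2.1
  obtain ⟨L, h1, -, -, h2⟩ := NS_card (D := D) hadm hG hb h
  rw [h1, h2 hγ]
  simp

/-- the upper bound -/
theorem NS_le {G D α β γ : ℕ} (hadm : AdmT α β γ) (hG : 1 ≤ G) (hγ : γ < G * α * β * D) :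
    ((NS G D α β γ).card : ℝ) ≤ n6 α β γ * ((G * D - γ / (α * β)) / 6 + 1) := by
  obtain ⟨b, b', hb, h⟩ := base_sol γ hadm.1 hadm.2.2.2.1
  obtain ⟨L, h1, h2, -, -⟩ := NS_card (D := D) hadm hG hb h
  have h3 := h2 hγ
  rw [h1]
  have h4 : ((range L).filter (fun t => P6 α β b b' t ∧
      Nat.Coprime (b + α * t) (G * α) ∧ Nat.Coprime (b' + β * t) (G * β))).card ≤
      ((range L).filter (fun t => P6 α β b b' t)).card := by
    apply card_le_card
    intro t ht
    obtain ⟨h5, h6, -⟩ := mem_filter.1 ht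
    exact mem_filter.2 ⟨h5, h6⟩
  have hper : ∀ t, P6 α β b b' t ↔ P6 α β b b' (t % 6) := by
    intro t
    rw [P6_mod, P6_mod α β b b' (t % 6), Nat.mod_mod]
  have h5 := card_six_le (fun t => P6 α β b b' t) hper L
  rw [six_classes hadm h] at h5
  calc _ ≤ (((range L).filter (fun t => P6 α β b b' t)).card : ℝ) := by exact_mod_cast h4
    _ ≤ ((L : ℝ) + 5) / 6 * n6 α β γ := h5
    _ ≤ ((G * D - γ / (α * β) + 1) + 5) / 6 * n6 α β γ := by gcongr
    _ = _ := by ring

/-- the primes `≥ 5` dividing `G` -/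
def big (G : ℕ) : Finset ℕ := G.primeFactors.filter (fun p => 5 ≤ p)

/-- the local density factor -/
noncomputable def lam (G : ℕ) : ℝ := 1 - ∑ p ∈ big G, 2 / (p : ℝ)

/-- the lower bound -/
theorem le_NS {G D α β γ : ℕ} (hadm : AdmT α β γ) (hG : 1 ≤ G) (hlam : 0 ≤ lam G) :
    n6 α β γ * (lam G * ((G * D - γ / (α * β)) / 6) - (1 + 2 * (big G).card)) ≤
      ((NS G D α β γ).card : ℝ) := by
  classical
  obtain ⟨b, b', hb, h⟩ := base_sol γ hadm.1 hadm.2.2.2.1
  obtain ⟨L, h1, -, h2, -⟩ := NS_card (D := D) hadm hG hb h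
  have hadm' := hadm
  obtain ⟨hα, hβ, hγ, hαβ, hαγ, hβγ, hodd⟩ := hadm
  rw [h1]
  have hper : ∀ t, P6 α β b b' t ↔ P6 α β b b' (t % 6) := by
    intro t
    rw [P6_mod, P6_mod α β b b' (t % 6), Nat.mod_mod]
  -- the coprimality to `α`, `β` is automatic
  have hsol : ∀ t : ℕ, α * (b' + β * t) = β * (b + α * t) + γ := by
    intro t; rw [mul_add, h]; ring
  have hca : ∀ t : ℕ, Nat.Coprime (b + α * t) α := by
    intro t
    rw [Nat.Coprime, ← Nat.dvd_one]
    have h3 : Nat.gcd (b + α * t) α ∣ γ := by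
      have h4 : Nat.gcd (b + α * t) α ∣ β * (b + α * t) := (Nat.gcd_dvd_left _ _).mul_left _
      have h5 : Nat.gcd (b + α * t) α ∣ β * (b + α * t) + γ := by
        rw [← hsol t]; exact (Nat.gcd_dvd_right _ _).mul_right _
      exact (Nat.dvd_add_right h4).1 h5
    have h4 := Nat.dvd_gcd (Nat.gcd_dvd_right (b + α * t) α) h3
    rwa [hαγ] at h4
  have hcb : ∀ t : ℕ, Nat.Coprime (b' + β * t) β := by
    intro t
    rw [Nat.Coprime, ← Nat.dvd_one]
    have h3 : Nat.gcd (b' + β * t) β ∣ γ := by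
      have h4 : Nat.gcd (b' + β * t) β ∣ β * (b + α * t) := (Nat.gcd_dvd_right _ _).mul_right _
      have h5 : Nat.gcd (b' + β * t) β ∣ β * (b + α * t) + γ := by
        rw [← hsol t]; exact (Nat.gcd_dvd_left _ _).mul_left _
      exact (Nat.dvd_add_right h4).1 h5
    have h4 := Nat.dvd_gcd (Nat.gcd_dvd_right (b' + β * t) β) h3
    rwa [hβγ] at h4
  -- coprimality to `G`
  have hcG : ∀ x : ℕ, Nat.Coprime x 6 → (∀ p ∈ big G, ¬ p ∣ x) → Nat.Coprime x G := by
    intro x hx6 hx
    rw [Nat.Coprime, Nat.eq_one_iff_not_exists_prime_dvd]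
    intro p hp hpd
    have hpx := hpd.trans (Nat.gcd_dvd_left _ _)
    have hpG := hpd.trans (Nat.gcd_dvd_right _ _)
    by_cases hp5 : 5 ≤ p
    · exact hx p (mem_filter.2 ⟨Nat.mem_primeFactors.2 ⟨hp, hpG, by omega⟩, hp5⟩) hpx
    · push Not at hp5
      have hp6 : p ∣ 6 := by
        have := hp.two_le
        interval_cases p
        · norm_num
        · norm_num
        · exact absurd hp (by norm_num)
      exact Nat.not_coprime_of_dvd_of_dvd hp.one_lt hpx hp6 hx6
  obtain ⟨S, hS⟩ : ∃ S, S = (range L).filter (fun t => P6 α β b b' t ∧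
      Nat.Coprime (b + α * t) (G * α) ∧ Nat.Coprime (b' + β * t) (G * β)) := ⟨_, rfl⟩
  rw [← hS]
  have hsub : (range L).filter (fun t => P6 α β b b' t) ⊆ S ∪ (big G).biUnion (fun p =>
      (range L).filter (fun t => P6 α β b b' t ∧ p ∣ b + α * t ∧ ¬ p ∣ α) ∪
      (range L).filter (fun t => P6 α β b b' t ∧ p ∣ b' + β * t ∧ ¬ p ∣ β)) := by
    intro t ht
    obtain ⟨h3, h4⟩ := mem_filter.1 ht
    rw [mem_union]
    by_cases hcase : (∀ p ∈ big G, ¬ p ∣ b + α * t) ∧ (∀ p ∈ big G, ¬ p ∣ b' + β * t)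
    · left
      rw [hS]
      exact mem_filter.2 ⟨h3, h4, (hcG _ h4.1 hcase.1).mul_right (hca t),
        (hcG _ h4.2 hcase.2).mul_right (hcb t)⟩
    · right
      rw [mem_biUnion]
      rw [not_and_or] at hcase
      push Not at hcase
      rcases hcase with ⟨p, hp, hpd⟩ | ⟨p, hp, hpd⟩
      · refine ⟨p, hp, mem_union_left _ (mem_filter.2 ⟨h3, h4, hpd, ?_⟩)⟩
        intro hpα
        have hpp : p.Prime := Nat.prime_of_mem_primeFactors (mem_filter.1 hp).1
        exact Nat.not_coprime_of_dvd_of_dvd hpp.one_lt hpd hpα (hca t)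
      · refine ⟨p, hp, mem_union_right _ (mem_filter.2 ⟨h3, h4, hpd, ?_⟩)⟩
        intro hpα
        have hpp : p.Prime := Nat.prime_of_mem_primeFactors (mem_filter.1 hp).1
        exact Nat.not_coprime_of_dvd_of_dvd hpp.one_lt hpd hpα (hcb t)
  have hone : ∀ p ∈ big G, ∀ x y : ℕ,
      (((range L).filter (fun t => P6 α β b b' t ∧ p ∣ x + y * t ∧ ¬ p ∣ y)).card : ℝ) ≤
        n6 α β γ * ((L : ℝ) / (6 * p) + 1) := by
    intro p hp x y
    obtain ⟨hp1, hp5⟩ := mem_filter.1 hp
    have hpp := Nat.prime_of_mem_primeFactors hp1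
    have hp0 : (0 : ℝ) < p := by exact_mod_cast hpp.pos
    by_cases hy : p ∣ y
    · have h3 : (range L).filter (fun t => P6 α β b b' t ∧ p ∣ x + y * t ∧ ¬ p ∣ y) = ∅ := by
        apply Finset.filter_false_of_mem
        intro t _ hh
        exact hh.2.2 hy
      rw [h3, card_empty, Nat.cast_zero]
      positivity
    · have h3 := card_p (fun t => P6 α β b b' t) hper L p x y hpp hp5 hy
      rw [six_classes hadm' h] at h3
      refine le_trans ?_ h3
      rw [Nat.cast_le]
      apply card_le_card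
      intro t ht
      obtain ⟨h4, h5, h6, -⟩ := mem_filter.1 ht
      exact mem_filter.2 ⟨h4, h5, h6⟩
  have hlow := le_card_six (fun t => P6 α β b b' t) hper L
  rw [six_classes hadm' h] at hlow
  have hn6 : (0 : ℝ) ≤ n6 α β γ := Nat.cast_nonneg _
  have htot : ((L : ℝ) - 5) / 6 * n6 α β γ ≤ (S.card : ℝ) +
      ∑ p ∈ big G, 2 * (n6 α β γ * ((L : ℝ) / (6 * p) + 1)) := by
    refine hlow.trans ?_
    have h3 : ((range L).filter (fun t => P6 α β b b' t)).card ≤ S.card + ∑ p ∈ big G,
        (((range L).filter (fun t => P6 α β b b' t ∧ p ∣ b + α * t ∧ ¬ p ∣ α)).card +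
        ((range L).filter (fun t => P6 α β b b' t ∧ p ∣ b' + β * t ∧ ¬ p ∣ β)).card) := by
      refine (card_le_card hsub).trans ((card_union_le _ _).trans ?_)
      apply Nat.add_le_add_left
      refine card_biUnion_le.trans (Finset.sum_le_sum fun p _ => card_union_le _ _)
    have h4 : (((range L).filter (fun t => P6 α β b b' t)).card : ℝ) ≤ S.card + ∑ p ∈ big G,
        ((((range L).filter (fun t => P6 α β b b' t ∧ p ∣ b + α * t ∧ ¬ p ∣ α)).card : ℝ) +
        ((range L).filter (fun t => P6 α β b b' t ∧ p ∣ b' + β * t ∧ ¬ p ∣ β)).card) := by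
      exact_mod_cast h3
    refine h4.trans (add_le_add le_rfl (Finset.sum_le_sum fun p hp => ?_))
    have h5 := hone p hp b α
    have h6 := hone p hp b' β
    linarith
  have hsum : ∑ p ∈ big G, 2 * (n6 α β γ * ((L : ℝ) / (6 * p) + 1)) =
      n6 α β γ * ((L : ℝ) / 6 * ∑ p ∈ big G, 2 / (p : ℝ) + 2 * (big G).card) := by
    rw [Finset.mul_sum, mul_add, Finset.mul_sum]
    have e : (2 : ℝ) * (big G).card = ∑ _p ∈ big G, (2 : ℝ) := by
      rw [Finset.sum_const, nsmul_eq_mul]; ring
    rw [e, Finset.mul_sum, ← Finset.sum_add_distrib]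
    apply Finset.sum_congr rfl
    intro p hp
    have hpp := Nat.prime_of_mem_primeFactors (mem_filter.1 hp).1
    have hp0 : (p : ℝ) ≠ 0 := by exact_mod_cast hpp.pos.ne'
    field_simp
  rw [hsum] at htot
  -- conclusion
  have hlam1 : lam G ≤ 1 := by
    unfold lam
    have : 0 ≤ ∑ p ∈ big G, 2 / (p : ℝ) := Finset.sum_nonneg fun p _ => by positivity
    linarith
  have hle : n6 α β γ * ((L : ℝ) / 6 * lam G - 5 / 6 - 2 * (big G).card) ≤ (S.card : ℝ) := by
    have e : n6 α β γ * ((L : ℝ) / 6 * lam G - 5 / 6 - 2 * (big G).card) =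
        ((L : ℝ) - 5) / 6 * n6 α β γ -
        n6 α β γ * ((L : ℝ) / 6 * ∑ p ∈ big G, 2 / (p : ℝ) + 2 * (big G).card) := by
      unfold lam; ring
    rw [e]; linarith
  refine le_trans (mul_le_mul_of_nonneg_left ?_ hn6) hle
  have h3 : lam G * ((G * D - γ / (α * β) - 1) / 6) ≤ lam G * ((L : ℝ) / 6) :=
    mul_le_mul_of_nonneg_left (by linarith) hlam
  have h4 : lam G * ((G * D - γ / (α * β) - 1) / 6) = lam G * ((G * D - γ / (α * β)) / 6) - lam G / 6 := by
    ring
  linarith

end Pool.Agent.K7.H63.TQ
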