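import Mathlib
import Pool.Agent.K7.H63.TQ.Count2

/-! The weight of a triple: upper and lower bounds. -/

set_option autoImplicit false

namespace Pool.Agent.K7.H63.TQ

open Finset

/-- telescoping, upper bound -/
theorem tele_le (f φ : ℕ → ℝ) (m : ℕ) (h : ∀ d, m ≤ d → f d ≤ φ d - φ (d + 1)) (n : ℕ) (hmn : m ≤ n) :
    ∑ d ∈ Ico m n, f d ≤ φ m - φ n := by
  induction n, hmn using Nat.le_induction with
  | base => simp
  | succ n hn ih =>
    rw [Finset.sum_Ico_succ_top hn]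
    linarith [h n hn]

/-- telescoping, lower bound -/
theorem le_tele (f φ : ℕ → ℝ) (m : ℕ) (h : ∀ d, m ≤ d → φ d - φ (d + 1) ≤ f d) (n : ℕ) (hmn : m ≤ n) :
    φ m - φ n ≤ ∑ d ∈ Ico m n, f d := by
  induction n, hmn using Nat.le_induction with
  | base => simp
  | succ n hn ih =>
    rw [Finset.sum_Ico_succ_top hn]
    linarith [h n hn]

theorem filter_Ico (D0 D1 : ℕ) (ρ : ℝ) (hρ : 0 ≤ ρ) :
    (Ico D0 D1).filter (fun D : ℕ => ρ < D) = Ico (max D0 (⌊ρ⌋₊ + 1)) D1 := by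
  ext D
  simp only [mem_filter, mem_Ico, max_le_iff]
  have : ρ < D ↔ ⌊ρ⌋₊ + 1 ≤ D := by
    rw [Nat.succ_le_iff, Nat.floor_lt hρ]
  rw [this]
  tauto

/-- the main sum, upper bound -/
theorem sum_main_le (D0 D1 : ℕ) (ρ : ℝ) (hD0 : 2 ≤ D0) (hρ : 0 < ρ) :
    ∑ D ∈ (Ico D0 D1).filter (fun D : ℕ => ρ < D), ((D : ℝ) - ρ) / (D : ℝ) ^ 3 ≤
      (1 + 2 / ((D0 : ℝ) - 1)) / (2 * ρ) := by
  rw [filter_Ico D0 D1 ρ hρ.le]
  set m := max D0 (⌊ρ⌋₊ + 1) with hm
  have hD0' : (2 : ℝ) ≤ D0 := by exact_mod_cast hD0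
  have hD1 : 0 < (D0 : ℝ) - 1 := by linarith
  have hmD : (D0 : ℝ) ≤ m := by exact_mod_cast le_max_left _ _
  have hmρ : ρ < m := by
    have h1 : ρ < ((⌊ρ⌋₊ + 1 : ℕ) : ℝ) := by push_cast; exact Nat.lt_floor_add_one ρ
    exact h1.trans_le (by exact_mod_cast le_max_right _ _)
  rcases le_or_gt m D1 with hmn | hmn
  · have h1 := tele_le (fun D : ℕ => ((D : ℝ) - ρ) / (D : ℝ) ^ 3)
      (fun D : ℕ => 1 / ((D : ℝ) - 1) - ρ / (2 * (D : ℝ) ^ 2)) m (by
        intro d hd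
        have hd' : (m : ℝ) ≤ d := by exact_mod_cast hd
        have hdp : (0 : ℝ) < d := by linarith
        have hd1 : (0 : ℝ) < (d : ℝ) - 1 := by linarith
        have e1 : ((d : ℝ) - ρ) / (d : ℝ) ^ 3 = 1 / (d : ℝ) ^ 2 - ρ / (d : ℝ) ^ 3 := by
          field_simp
        have e2 : 1 / (d : ℝ) ^ 2 ≤ 1 / ((d : ℝ) - 1) - 1 / d := by
          rw [div_sub_div _ _ hd1.ne' hdp.ne', div_le_div_iff₀ (by positivity) (by positivity)]
          nlinarith
        have e3 : ρ / (2 * (d : ℝ) ^ 2) - ρ / (2 * ((d : ℝ) + 1) ^ 2) ≤ ρ / (d : ℝ) ^ 3 := by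
          have e4 : 1 / (2 * (d : ℝ) ^ 2) - 1 / (2 * ((d : ℝ) + 1) ^ 2) ≤ 1 / (d : ℝ) ^ 3 := by
            rw [div_sub_div _ _ (by positivity) (by positivity), div_le_div_iff₀ (by positivity)
              (by positivity)]
            have : 0 < (d : ℝ) ^ 2 := by positivity
            nlinarith [mul_pos this this, mul_pos this hdp]
          have := mul_le_mul_of_nonneg_left e4 hρ.le
          calc ρ / (2 * (d : ℝ) ^ 2) - ρ / (2 * ((d : ℝ) + 1) ^ 2)
              = ρ * (1 / (2 * (d : ℝ) ^ 2) - 1 / (2 * ((d : ℝ) + 1) ^ 2)) := by ring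
            _ ≤ ρ * (1 / (d : ℝ) ^ 3) := this
            _ = _ := by ring
        push_cast
        rw [e1]
        have e5 : (d : ℝ) + 1 - 1 = d := by ring
        rw [e5]
        linarith) D1 hmn
    refine h1.trans ?_
    have hD1m : (m : ℝ) ≤ D1 := by exact_mod_cast hmn
    have hmp : (0 : ℝ) < m := by linarith
    have hm1 : (0 : ℝ) < (m : ℝ) - 1 := by linarith
    have hDp : (0 : ℝ) < D1 := by linarith
    have hDp1 : (0 : ℝ) < (D1 : ℝ) - 1 := by linarith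
    have h2 : 0 ≤ 1 / ((D1 : ℝ) - 1) - ρ / (2 * (D1 : ℝ) ^ 2) := by
      rw [sub_nonneg, div_le_div_iff₀ (by positivity) hDp1]
      have : ρ ≤ D1 := by linarith
      nlinarith [mul_le_mul this (by linarith : (D1 : ℝ) - 1 ≤ D1) hDp1.le hDp.le]
    have h3 : 1 / ((m : ℝ) - 1) - ρ / (2 * (m : ℝ) ^ 2) ≤ (1 + 2 / ((D0 : ℝ) - 1)) / (2 * ρ) := by
      have h4 : 1 / ((m : ℝ) - 1) = 1 / m + 1 / (m * ((m : ℝ) - 1)) := by
        field_simp; ring
      have h5 : 1 / (m : ℝ) - ρ / (2 * (m : ℝ) ^ 2) ≤ 1 / (2 * ρ) := by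
        rw [div_sub_div _ _ hmp.ne' (by positivity), div_le_div_iff₀ (by positivity) (by positivity)]
        have : 0 ≤ (m : ℝ) * ((m : ℝ) - ρ) ^ 2 := by positivity
        nlinarith
      have h6 : 1 / ((m : ℝ) * ((m : ℝ) - 1)) ≤ 2 / ((D0 : ℝ) - 1) / (2 * ρ) := by
        have e : 2 / ((D0 : ℝ) - 1) / (2 * ρ) = 1 / (ρ * ((D0 : ℝ) - 1)) := by
          field_simp
        rw [e]
        apply one_div_le_one_div_of_le (by positivity)
        exact mul_le_mul hmρ.le (by linarith) hD1.le hmp.le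
      rw [add_div, h4]
      linarith
    linarith
  · rw [Finset.Ico_eq_empty (by omega), Finset.sum_empty]
    positivity

/-- the error sum -/
theorem sum_err_le (D0 D1 : ℕ) (ρ : ℝ) (hD0 : 2 ≤ D0) (hρ : 0 < ρ) :
    ∑ D ∈ (Ico D0 D1).filter (fun D : ℕ => ρ < D), 1 / (D : ℝ) ^ 3 ≤
      (4 / (D0 : ℝ)) / (2 * ρ) := by
  rw [filter_Ico D0 D1 ρ hρ.le]
  set m := max D0 (⌊ρ⌋₊ + 1) with hm
  have hD0' : (2 : ℝ) ≤ D0 := by exact_mod_cast hD0
  have hD0p : (0 : ℝ) < D0 := by linarith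
  have hmD : (D0 : ℝ) ≤ m := by exact_mod_cast le_max_left _ _
  have hmρ : ρ < m := by
    have h1 : ρ < ((⌊ρ⌋₊ + 1 : ℕ) : ℝ) := by push_cast; exact Nat.lt_floor_add_one ρ
    exact h1.trans_le (by exact_mod_cast le_max_right _ _)
  rcases le_or_gt m D1 with hmn | hmn
  · have h1 := tele_le (fun D : ℕ => 1 / (D : ℝ) ^ 3)
      (fun D : ℕ => 1 / D0 * (1 / ((D : ℝ) - 1))) m (by
        intro d hd
        have hd' : (m : ℝ) ≤ d := by exact_mod_cast hd
        have hdp : (0 : ℝ) < d := by linarith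
        have hd1 : (0 : ℝ) < (d : ℝ) - 1 := by linarith
        have e1 : 1 / (d : ℝ) ^ 3 ≤ 1 / D0 * (1 / (d : ℝ) ^ 2) := by
          have e : 1 / (D0 : ℝ) * (1 / (d : ℝ) ^ 2) = 1 / (D0 * (d : ℝ) ^ 2) := by
            field_simp
          rw [e]
          apply one_div_le_one_div_of_le (by positivity)
          have h9 : (D0 : ℝ) ≤ d := hmD.trans hd'
          calc (D0 : ℝ) * (d : ℝ) ^ 2 ≤ d * (d : ℝ) ^ 2 := mul_le_mul_of_nonneg_right h9 (by positivity)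
            _ = (d : ℝ) ^ 3 := by ring
        have e2 : 1 / (d : ℝ) ^ 2 ≤ 1 / ((d : ℝ) - 1) - 1 / d := by
          rw [div_sub_div _ _ hd1.ne' hdp.ne', div_le_div_iff₀ (by positivity) (by positivity)]
          nlinarith
        push_cast
        have e5 : (d : ℝ) + 1 - 1 = d := by ring
        rw [e5, ← mul_sub]
        exact e1.trans (mul_le_mul_of_nonneg_left e2 (by positivity))) D1 hmn
    refine h1.trans ?_
    have hD1m : (m : ℝ) ≤ D1 := by exact_mod_cast hmn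
    have hmp : (0 : ℝ) < m := by linarith
    have hm1 : (0 : ℝ) < (m : ℝ) - 1 := by linarith
    have hDp : (0 : ℝ) < D1 := by linarith
    have hDp1 : (0 : ℝ) < (D1 : ℝ) - 1 := by linarith
    have h2 : 0 ≤ 1 / (D0 : ℝ) * (1 / ((D1 : ℝ) - 1)) := by positivity
    have h3 : 1 / (D0 : ℝ) * (1 / ((m : ℝ) - 1)) ≤ (4 / (D0 : ℝ)) / (2 * ρ) := by
      have h4 : 1 / ((m : ℝ) - 1) ≤ 2 / ρ := by
        rw [div_le_div_iff₀ hm1 hρ]
        linarith
      calc 1 / (D0 : ℝ) * (1 / ((m : ℝ) - 1)) ≤ 1 / (D0 : ℝ) * (2 / ρ) :=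
            mul_le_mul_of_nonneg_left h4 (by positivity)
        _ = _ := by field_simp; norm_num
    linarith
  · rw [Finset.Ico_eq_empty (by omega), Finset.sum_empty]
    positivity

end Pool.Agent.K7.H63.TQ
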