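import Mathlib
import Pool.Agent.K7.H63.TQ.Logs
import Pool.Agent.K7.H63.TQ.Sums

/-! Logarithmic sums over admissible triples: regularity. -/

set_option autoImplicit false

namespace Pool.Agent.K7.H63.TQ

open Finset

/-- the harmonic sum -/
noncomputable def hh (n : ℕ) : ℝ := ∑ k ∈ Icc 1 n, 1 / (k : ℝ)

theorem hh_eq (n : ℕ) : hh n = ((harmonic n : ℚ) : ℝ) := by
  rw [harmonic_eq_sum_Icc]
  push_cast
  unfold hh
  apply Finset.sum_congr rfl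
  intro k _
  rw [one_div]

theorem log_le_hh (n : ℕ) : Real.log (n + 1) ≤ hh n := by
  rw [hh_eq]
  exact_mod_cast log_add_one_le_harmonic n

theorem hh_le (n : ℕ) : hh n ≤ 1 + Real.log n := by
  rw [hh_eq]
  exact harmonic_le_one_add_log n

theorem hh_nonneg (n : ℕ) : 0 ≤ hh n := Finset.sum_nonneg fun k _ => by positivity

theorem hh_mono {m n : ℕ} (h : m ≤ n) : hh m ≤ hh n := by
  unfold hh
  apply Finset.sum_le_sum_of_subset_of_nonneg (Icc_subset_Icc le_rfl h)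
  intro k _ _; positivity

theorem hh_tendsto : Filter.Tendsto hh Filter.atTop Filter.atTop := by
  have h1 : Filter.Tendsto (fun n : ℕ => Real.log ((n : ℝ) + 1)) Filter.atTop Filter.atTop :=
    Real.tendsto_log_atTop.comp (Filter.tendsto_atTop_add_const_right _ _ tendsto_natCast_atTop_atTop)
  exact Filter.tendsto_atTop_mono log_le_hh h1

/-- the harmonic sum varies slowly -/
theorem hh_div {Q : ℕ} (hQ : 1 ≤ Q) (X : ℕ) (hX : 1 ≤ X) : hh X - hh (X / Q) ≤ 1 + Real.log Q := by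
  have h1 := hh_le X
  have h2 := log_le_hh (X / Q)
  have hQ0 : (0 : ℝ) < Q := by exact_mod_cast hQ
  have hX0 : (0 : ℝ) < X := by exact_mod_cast hX
  have h3 : (X : ℝ) / Q ≤ ((X / Q : ℕ) : ℝ) + 1 := by
    rw [div_le_iff₀ hQ0]
    have h4 : X < (X / Q + 1) * Q := by
      have := Nat.lt_div_mul_add (a := X) (b := Q) (by omega)
      linarith [this]
    exact_mod_cast h4.le
  have h4 : Real.log ((X : ℝ) / Q) ≤ Real.log (((X / Q : ℕ) : ℝ) + 1) :=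
    Real.log_le_log (by positivity) h3
  rw [Real.log_div hX0.ne' hQ0.ne'] at h4
  linarith

theorem prod2 {ι κ : Type} (A : Finset ι) (B : Finset κ) (f : ι → ℝ) (g : κ → ℝ) :
    ∑ x ∈ A ×ˢ B, f x.1 * g x.2 = (∑ a ∈ A, f a) * ∑ b ∈ B, g b := by
  rw [Finset.sum_product, Finset.sum_mul_sum]

theorem prod3 (A B C : Finset ℕ) (f g h : ℕ → ℝ) :
    ∑ T ∈ A ×ˢ B ×ˢ C, f T.1 * (g T.2.1 * h T.2.2) =
      (∑ a ∈ A, f a) * ((∑ b ∈ B, g b) * ∑ c ∈ C, h c) := by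
  rw [prod2 A (B ×ˢ C) f (fun y => g y.1 * h y.2), prod2]

theorem tt_eq (T : ℕ × ℕ × ℕ) : tt T = 1 / (T.1 : ℝ) * (1 / (T.2.1 : ℝ) * (1 / (T.2.2 : ℝ))) := by
  unfold tt
  rw [one_div_mul_one_div, one_div_mul_one_div, mul_assoc]

theorem sum_tt (A B C : Finset ℕ) : ∑ T ∈ A ×ˢ B ×ˢ C, tt T =
    (∑ a ∈ A, 1 / (a : ℝ)) * ((∑ b ∈ B, 1 / (b : ℝ)) * ∑ c ∈ C, 1 / (c : ℝ)) := by
  rw [← prod3]
  exact Finset.sum_congr rfl fun T _ => tt_eq T

theorem sum_Ioc (m n : ℕ) (h : m ≤ n) : ∑ k ∈ Ioc m n, 1 / (k : ℝ) = hh n - hh m := by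
  unfold hh
  have h1 : Icc 1 n = Icc 1 m ∪ Ioc m n := by
    ext k; simp only [mem_Icc, mem_union, mem_Ioc]; omega
  have h2 : Disjoint (Icc 1 m) (Ioc m n) := by
    rw [Finset.disjoint_left]; intro k h1 h2
    rw [mem_Icc] at h1; rw [mem_Ioc] at h2; omega
  rw [h1, Finset.sum_union h2]; ring

/-- the boundary terms -/
theorem Cs_diff (X Y Q Y1 Q' : ℕ) (hQ : 1 ≤ Q) (hQ' : 1 ≤ Q') (hX : 1 ≤ X) (hY : 1 ≤ Y) :
    Cs X 1 Y ≤ Cs (X / Q) Y1 (Y / Q') + 2 * ((1 + Real.log Q) * (hh X * hh Y)) +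
      hh X * (hh X * (hh Y1 + (1 + Real.log Q'))) := by
  classical
  unfold Cs
  have h1 : (Rg X 1 Y).filter Core ⊆ (Rg (X / Q) Y1 (Y / Q')).filter Core ∪
      ((Ioc (X / Q) X ×ˢ Icc 1 X ×ˢ Icc 1 Y) ∪ ((Icc 1 X ×ˢ Ioc (X / Q) X ×ˢ Icc 1 Y) ∪
      ((Icc 1 X ×ˢ Icc 1 X ×ˢ Icc 1 Y1) ∪ (Icc 1 X ×ˢ Icc 1 X ×ˢ Ioc (Y / Q') Y)))) := by
    intro T hT
    obtain ⟨h2, h3⟩ := mem_filter.1 hT
    simp only [mem_union, mem_filter, mem_product, mem_Ioc, mem_Icc, mem_Rg] at h2 ⊢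
    by_cases c1 : T.1 ≤ X / Q
    · by_cases c2 : T.2.1 ≤ X / Q
      · by_cases c3 : Y1 ≤ T.2.2
        · by_cases c4 : T.2.2 ≤ Y / Q'
          · left; exact ⟨⟨⟨h2.1.1, c1⟩, ⟨h2.2.1.1, c2⟩, c3, c4⟩, h3⟩
          · right; right; right; right; omega
        · right; right; right; left; omega
      · right; right; left; omega
    · right; left; omega
  have h2 := Finset.sum_le_sum_of_subset_of_nonneg (f := tt) h1 (fun T _ _ => tt_nonneg T)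
  have hun : ∀ A B : Finset (ℕ × ℕ × ℕ), ∑ T ∈ A ∪ B, tt T ≤ ∑ T ∈ A, tt T + ∑ T ∈ B, tt T := by
    intro A B
    rw [← Finset.sum_union_inter]
    have : 0 ≤ ∑ T ∈ A ∩ B, tt T := Finset.sum_nonneg fun T _ => tt_nonneg T
    linarith
  have h3 := hun ((Rg (X / Q) Y1 (Y / Q')).filter Core)
      ((Ioc (X / Q) X ×ˢ Icc 1 X ×ˢ Icc 1 Y) ∪ ((Icc 1 X ×ˢ Ioc (X / Q) X ×ˢ Icc 1 Y) ∪
      ((Icc 1 X ×ˢ Icc 1 X ×ˢ Icc 1 Y1) ∪ (Icc 1 X ×ˢ Icc 1 X ×ˢ Ioc (Y / Q') Y))))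
  have h4 := hun (Ioc (X / Q) X ×ˢ Icc 1 X ×ˢ Icc 1 Y) ((Icc 1 X ×ˢ Ioc (X / Q) X ×ˢ Icc 1 Y) ∪
      ((Icc 1 X ×ˢ Icc 1 X ×ˢ Icc 1 Y1) ∪ (Icc 1 X ×ˢ Icc 1 X ×ˢ Ioc (Y / Q') Y)))
  have h5 := hun (Icc 1 X ×ˢ Ioc (X / Q) X ×ˢ Icc 1 Y)
      ((Icc 1 X ×ˢ Icc 1 X ×ˢ Icc 1 Y1) ∪ (Icc 1 X ×ˢ Icc 1 X ×ˢ Ioc (Y / Q') Y))
  have h6 := hun (Icc 1 X ×ˢ Icc 1 X ×ˢ Icc 1 Y1) (Icc 1 X ×ˢ Icc 1 X ×ˢ Ioc (Y / Q') Y)
  rw [sum_tt, sum_Ioc _ _ (Nat.div_le_self _ _)] at h4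
  rw [sum_tt, sum_Ioc _ _ (Nat.div_le_self _ _)] at h5
  rw [sum_tt, sum_tt, sum_Ioc _ _ (Nat.div_le_self _ _)] at h6
  have e : ∀ n : ℕ, ∑ k ∈ Icc 1 n, 1 / (k : ℝ) = hh n := fun n => rfl
  rw [e, e] at h4
  rw [e, e] at h5
  rw [e, e] at h6
  have h7 := hh_div hQ X hX
  have h8 := hh_div hQ' Y hY
  have hX0 := hh_nonneg X
  have hY0 := hh_nonneg Y
  have h9 : (hh X - hh (X / Q)) * (hh X * hh Y) ≤ (1 + Real.log Q) * (hh X * hh Y) :=
    mul_le_mul_of_nonneg_right h7 (by positivity)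
  have h10 : hh X * ((hh X - hh (X / Q)) * hh Y) ≤ (1 + Real.log Q) * (hh X * hh Y) := by
    have : hh X * ((hh X - hh (X / Q)) * hh Y) = (hh X - hh (X / Q)) * (hh X * hh Y) := by ring
    rw [this]; exact h9
  have h11 : hh X * (hh X * (hh Y - hh (Y / Q'))) ≤ hh X * (hh X * (1 + Real.log Q')) := by
    apply mul_le_mul_of_nonneg_left _ hX0
    exact mul_le_mul_of_nonneg_left h8 hX0
  have h12 : hh X * (hh X * (hh Y1 + (1 + Real.log Q'))) =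
      hh X * (hh X * hh Y1) + hh X * (hh X * (1 + Real.log Q')) := by ring
  rw [h12]
  linarith

/-- the numbers prime to `6` -/
def S6 (X : ℕ) : Finset ℕ := (Icc 1 X).filter (fun a => Nat.Coprime a 6)

/-- the even numbers prime to `3` -/
def Se (Y : ℕ) : Finset ℕ := (Icc 1 Y).filter (fun c => 2 ∣ c ∧ ¬ 3 ∣ c)

theorem S6_lower (X : ℕ) : hh ((X - 1) / 6) / 7 ≤ ∑ a ∈ S6 X, 1 / (a : ℝ) := by
  have h1 : (Icc 1 ((X - 1) / 6)).image (fun n => 6 * n + 1) ⊆ S6 X := by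
    intro a ha
    obtain ⟨n, hn, rfl⟩ := mem_image.1 ha
    rw [mem_Icc] at hn
    refine mem_filter.2 ⟨mem_Icc.2 ⟨by omega, by omega⟩, ?_⟩
    have h6 : (6 * n + 1) % 6 = 1 := by omega
    unfold Nat.Coprime
    rw [Nat.gcd_comm, Nat.gcd_rec, h6]
    norm_num
  have h2 := Finset.sum_le_sum_of_subset_of_nonneg (f := fun a : ℕ => 1 / (a : ℝ)) h1
    (fun a _ _ => by positivity)
  rw [Finset.sum_image (by intro a _ b _ h; simp only at h; omega)] at h2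
  refine le_trans ?_ h2
  unfold hh
  rw [Finset.sum_div]
  apply Finset.sum_le_sum
  intro n hn
  rw [mem_Icc] at hn
  have hn1 : (1 : ℝ) ≤ n := by exact_mod_cast hn.1
  rw [div_div]
  apply one_div_le_one_div_of_le (by positivity)
  push_cast
  linarith

theorem Se_lower (Y : ℕ) : hh ((Y - 2) / 6) / 8 ≤ ∑ a ∈ Se Y, 1 / (a : ℝ) := by
  have h1 : (Icc 1 ((Y - 2) / 6)).image (fun n => 6 * n + 2) ⊆ Se Y := by
    intro a ha
    obtain ⟨n, hn, rfl⟩ := mem_image.1 ha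
    rw [mem_Icc] at hn
    exact mem_filter.2 ⟨mem_Icc.2 ⟨by omega, by omega⟩, by omega, by omega⟩
  have h2 := Finset.sum_le_sum_of_subset_of_nonneg (f := fun a : ℕ => 1 / (a : ℝ)) h1
    (fun a _ _ => by positivity)
  rw [Finset.sum_image (by intro a _ b _ h; simp only at h; omega)] at h2
  refine le_trans ?_ h2
  unfold hh
  rw [Finset.sum_div]
  apply Finset.sum_le_sum
  intro n hn
  rw [mem_Icc] at hn
  have hn1 : (1 : ℝ) ≤ n := by exact_mod_cast hn.1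
  rw [div_div]
  apply one_div_le_one_div_of_le (by positivity)
  push_cast
  linarith

theorem S6_mul (X m : ℕ) (hm : 1 ≤ m) :
    ∑ a ∈ (S6 X).filter (fun a => m ∣ a), 1 / (a : ℝ) ≤ 1 / m * ∑ a ∈ S6 X, 1 / (a : ℝ) := by
  have h1 : ∑ a ∈ (S6 X).filter (fun a => m ∣ a), 1 / (a : ℝ) =
      ∑ a ∈ (S6 X).filter (fun a => m ∣ a), 1 / m * (1 / ((a / m : ℕ) : ℝ)) := by
    apply Finset.sum_congr rfl
    intro a ha
    obtain ⟨k, rfl⟩ := (mem_filter.1 ha).2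
    rw [Nat.mul_div_cancel_left _ (by omega)]
    push_cast
    rw [one_div_mul_one_div]
  rw [h1, ← Finset.mul_sum]
  apply mul_le_mul_of_nonneg_left _ (by positivity)
  rw [← Finset.sum_image (f := fun a : ℕ => 1 / (a : ℝ)) (g := fun a => a / m)]
  · apply Finset.sum_le_sum_of_subset_of_nonneg
    · intro b hb
      obtain ⟨a, ha, rfl⟩ := mem_image.1 hb
      obtain ⟨h2, k, rfl⟩ := mem_filter.1 ha
      obtain ⟨h3, h4⟩ := mem_filter.1 h2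
      rw [mem_Icc] at h3
      rw [Nat.mul_div_cancel_left _ (by omega)]
      refine mem_filter.2 ⟨mem_Icc.2 ⟨?_, ?_⟩, Nat.Coprime.coprime_mul_left h4⟩
      · rcases Nat.eq_zero_or_pos k with h | h
        · rw [h, mul_zero] at h3; omega
        · exact h
      · exact (Nat.le_mul_of_pos_left _ (by omega)).trans h3.2
    · intro a _ _; positivity
  · intro a ha b hb h
    obtain ⟨k, rfl⟩ := (mem_filter.1 (mem_coe.1 ha)).2
    obtain ⟨l, rfl⟩ := (mem_filter.1 (mem_coe.1 hb)).2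
    simp only at h
    rw [Nat.mul_div_cancel_left _ (by omega), Nat.mul_div_cancel_left _ (by omega)] at h
    rw [h]

theorem Se_mul (Y m : ℕ) (hm : 1 ≤ m) (hm6 : Nat.Coprime m 6) :
    ∑ a ∈ (Se Y).filter (fun a => m ∣ a), 1 / (a : ℝ) ≤ 1 / m * ∑ a ∈ Se Y, 1 / (a : ℝ) := by
  have h1 : ∑ a ∈ (Se Y).filter (fun a => m ∣ a), 1 / (a : ℝ) =
      ∑ a ∈ (Se Y).filter (fun a => m ∣ a), 1 / m * (1 / ((a / m : ℕ) : ℝ)) := by
    apply Finset.sum_congr rfl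
    intro a ha
    obtain ⟨k, rfl⟩ := (mem_filter.1 ha).2
    rw [Nat.mul_div_cancel_left _ (by omega)]
    push_cast
    rw [one_div_mul_one_div]
  rw [h1, ← Finset.mul_sum]
  apply mul_le_mul_of_nonneg_left _ (by positivity)
  rw [← Finset.sum_image (f := fun a : ℕ => 1 / (a : ℝ)) (g := fun a => a / m)]
  · apply Finset.sum_le_sum_of_subset_of_nonneg
    · intro b hb
      obtain ⟨a, ha, rfl⟩ := mem_image.1 hb
      obtain ⟨h2, k, rfl⟩ := mem_filter.1 ha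
      obtain ⟨h3, h4, h5⟩ := mem_filter.1 h2
      rw [mem_Icc] at h3
      rw [Nat.mul_div_cancel_left _ (by omega)]
      refine mem_filter.2 ⟨mem_Icc.2 ⟨?_, ?_⟩, ?_, fun h => h5 (h.mul_left _)⟩
      · rcases Nat.eq_zero_or_pos k with h | h
        · rw [h, mul_zero] at h3; omega
        · exact h
      · exact (Nat.le_mul_of_pos_left _ (by omega)).trans h3.2
      · have hm2 : Nat.Coprime 2 m := by
          have : Nat.Coprime m 2 := Nat.Coprime.coprime_dvd_right (by norm_num) hm6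
          exact this.symm
        exact (Nat.Coprime.dvd_mul_left hm2).1 h4
    · intro a _ _; positivity
  · intro a ha b hb h
    obtain ⟨k, rfl⟩ := (mem_filter.1 (mem_coe.1 ha)).2
    obtain ⟨l, rfl⟩ := (mem_filter.1 (mem_coe.1 hb)).2
    simp only at h
    rw [Nat.mul_div_cancel_left _ (by omega), Nat.mul_div_cancel_left _ (by omega)] at h
    rw [h]

end Pool.Agent.K7.H63.TQ
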