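import Mathlib
import Pool.Agent.TH899.UG.BoxP
import Pool.Agent.H362R2.CM.Moon
import Pool.Agent.H361R2.Bridge

/-! A third of the pairs, for an abstract symmetric relation on linear forms which is hit by any four
classes of `K` forms. The proof is that of `Pool.Agent.TH899.UG.PairsP`, with constants which depend on
`K` only and for forms of a prescribed set. -/

set_option autoImplicit false

namespace Pool.Agent.K7.H63.TQ

open Finset Pool.Agent.H362R2.CM

/-- the tuple of forms `a_i n + b_i` has no fixed prime divisor -/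
def Adm4 {T : ℕ} (f : Fin T → ℤ × ℤ) : Prop :=
  ∀ p : ℕ, p.Prime → ∃ n : ℤ, ∀ i, ¬ ((p : ℤ) ∣ (f i).1 * n + (f i).2)

/-- any four classes of `K` forms from `F` contain two forms of different classes related by `R` -/
def HitR (K : ℕ) (F : Set (ℤ × ℤ)) (R : ℤ × ℤ → ℤ × ℤ → Prop) : Prop :=
  ∀ A : Fin 4 → Fin K → ℤ × ℤ, (∀ g i, A g i ∈ F) →
    Function.Injective (fun x : Fin 4 × Fin K => A x.1 x.2) →
    (∀ p : ℕ, p.Prime → ∃ n : ℤ, ∀ g i, ¬ ((p : ℤ) ∣ (A g i).1 * n + (A g i).2)) →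
    ∃ (g g' : Fin 4) (i j : Fin K), g ≠ g' ∧ R (A g i) (A g' j)

/-- injectivity, as an opaque predicate -/
def InjO {α : Type} {T : ℕ} (f : Fin T → α) : Prop := Function.Injective f

open Classical in
/-- non injective tuples are rare -/
theorem card_not_inj {α : Type} (T : ℕ) (V : Finset α) :
    ((Fintype.piFinset (fun _ : Fin T => V)).filter (fun φ => ¬ InjO φ)).card * V.card ≤
      T ^ 2 * V.card ^ T := by
  have hsub : (Fintype.piFinset (fun _ : Fin T => V)).filter (fun φ => ¬ InjO φ) ⊆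
      (univ : Finset (Fin T × Fin T)).biUnion (fun x =>
        if x.1 ≠ x.2 then (Fintype.piFinset (fun _ : Fin T => V)).filter (fun φ => φ x.1 = φ x.2)
        else ∅) := by
    intro φ hφ
    rw [mem_filter] at hφ
    obtain ⟨h1, h2⟩ := hφ
    rw [InjO, Function.Injective] at h2
    push Not at h2
    obtain ⟨i, j, hij, hne⟩ := h2
    rw [mem_biUnion]
    refine ⟨(i, j), mem_univ _, ?_⟩
    simp only [ne_eq, hne, not_false_eq_true, if_true, mem_filter]
    exact ⟨h1, hij⟩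
  have hone : ∀ x : Fin T × Fin T, x.1 ≠ x.2 →
      ((Fintype.piFinset (fun _ : Fin T => V)).filter (fun φ => φ x.1 = φ x.2)).card * V.card ≤
        V.card ^ T := by
    intro x hx
    have h1 : (((Fintype.piFinset (fun _ : Fin T => V)).filter (fun φ => φ x.1 = φ x.2)) ×ˢ V).card ≤
        (Fintype.piFinset (fun _ : Fin T => V)).card := by
      apply Finset.card_le_card_of_injOn (fun y => Function.update y.1 x.1 y.2)
      · intro y hy
        simp only [coe_product, Set.mem_prod, mem_coe, mem_filter, Fintype.mem_piFinset] at hy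
        simp only [mem_coe, Fintype.mem_piFinset]
        intro i
        by_cases hi : i = x.1
        · subst hi; simp only [Function.update_self]; exact hy.2
        · rw [Function.update_of_ne hi]; exact hy.1.1 i
      · intro y hy z hz hyz
        simp only [coe_product, Set.mem_prod, mem_coe, mem_filter] at hy hz
        have e1 : y.2 = z.2 := by
          have := congrFun hyz x.1
          simpa using this
        have e2 : y.1 = z.1 := by
          funext i
          by_cases hi : i = x.1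
          · subst hi
            rw [hy.1.2, hz.1.2]
            have := congrFun hyz x.2
            simp only [Function.update_of_ne hx.symm] at this
            exact this
          · have := congrFun hyz i
            simpa only [Function.update_of_ne hi] using this
        exact Prod.ext e2 e1
    rw [card_product, Fintype.card_piFinset_const] at h1
    exact h1
  have h2 : ((Fintype.piFinset (fun _ : Fin T => V)).filter (fun φ => ¬ InjO φ)).card ≤
      ∑ x : Fin T × Fin T, (if x.1 ≠ x.2 then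
          (Fintype.piFinset (fun _ : Fin T => V)).filter (fun φ => φ x.1 = φ x.2) else ∅).card :=
    (card_le_card hsub).trans card_biUnion_le
  calc _ ≤ (∑ x : Fin T × Fin T, (if x.1 ≠ x.2 then
          (Fintype.piFinset (fun _ : Fin T => V)).filter (fun φ => φ x.1 = φ x.2) else ∅).card) * V.card :=
        Nat.mul_le_mul_right _ h2
    _ = ∑ x : Fin T × Fin T, (if x.1 ≠ x.2 then
          (Fintype.piFinset (fun _ : Fin T => V)).filter (fun φ => φ x.1 = φ x.2) else ∅).card * V.card :=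
        Finset.sum_mul _ _ _
    _ ≤ ∑ _x : Fin T × Fin T, V.card ^ T := by
        apply Finset.sum_le_sum
        intro x _
        split_ifs with hx
        · exact hone x hx
        · simp
    _ = T ^ 2 * V.card ^ T := by
        rw [Finset.sum_const, Finset.card_univ, Fintype.card_prod, Fintype.card_fin, smul_eq_mul]
        ring

/-- the same supersaturated Turan theorem as in `PairsP` -/
theorem turan4' {α : Type} (V : Finset α) (C : α → α → Prop) (hC : ∀ x y, C x y → C y x)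
    (hV : 0 < V.card) (δ : ℝ) (hδ : 0 < δ)
    (h : (2 / 3 + δ) * (V.card : ℝ) ^ 2 ≤ ((clq V C 2).card : ℝ)) :
    2 / 3 * δ * (V.card : ℝ) ^ 4 ≤ ((clq V C 4).card : ℝ) := by
  set v : ℝ := (V.card : ℝ) with hv
  have hvp : 0 < v := by rw [hv]; exact_mod_cast hV
  have m1 : ((clq V C 1).card : ℝ) = v := by rw [card_clq_one]
  have hm2 : 0 < ((clq V C 2).card : ℝ) := lt_of_lt_of_le (by positivity) h
  have s1 : (1 / 3 + 2 * δ) * v * ((clq V C 2).card : ℝ) ≤ ((clq V C 3).card : ℝ) := by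
    have := ratio_step (a := ((clq V C 1).card : ℝ)) (b := ((clq V C 2).card : ℝ))
      (c := ((clq V C 3).card : ℝ)) (v := v) (k := 1) (r := 2 / 3 + δ) (by rw [m1]; exact hvp) hm2 hvp
      one_pos (by rw [m1]; nlinarith) (by
        have := moon_moser (V := V) hC 1
        push_cast at this
        exact this)
    refine le_trans (le_of_eq ?_) this
    ring
  have hm3 : 0 < ((clq V C 3).card : ℝ) := lt_of_lt_of_le (by positivity) s1
  have s2 : (3 * δ) * v * ((clq V C 3).card : ℝ) ≤ ((clq V C 4).card : ℝ) := by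
    have := ratio_step (a := ((clq V C 2).card : ℝ)) (b := ((clq V C 3).card : ℝ))
      (c := ((clq V C 4).card : ℝ)) (v := v) (k := 2) (r := 1 / 3 + 2 * δ) hm2 hm3 hvp
      two_pos s1 (by
        have := moon_moser (V := V) hC 2
        push_cast at this
        exact this)
    refine le_trans (le_of_eq ?_) this
    ring
  have t2 : 2 / 3 * v ^ 2 ≤ ((clq V C 2).card : ℝ) := by nlinarith [sq_nonneg v]
  have t3 : 2 / 9 * v ^ 3 ≤ ((clq V C 3).card : ℝ) := by
    calc 2 / 9 * v ^ 3 = 1 / 3 * v * (2 / 3 * v ^ 2) := by ring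
      _ ≤ (1 / 3 + 2 * δ) * v * ((clq V C 2).card : ℝ) := by gcongr; linarith
      _ ≤ _ := s1
  calc 2 / 3 * δ * v ^ 4 = (3 * δ) * v * (2 / 9 * v ^ 3) := by ring
    _ ≤ (3 * δ) * v * ((clq V C 3).card : ℝ) := by gcongr
    _ ≤ _ := s2

/-- no box of four classes of `K` forms, all congruent mod `(4K)!` in each class, has only bad
transversals -/
theorem no_bad (K : ℕ) (hK : 1 ≤ K) (F : Set (ℤ × ℤ)) (R : ℤ × ℤ → ℤ × ℤ → Prop)
    (hq : HitR K F R) (A : Fin 4 → Fin K → ℤ × ℤ) (hF : ∀ g i, A g i ∈ F)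
    (hAinj : ∀ g, Function.Injective (A g))
    (hres : ∀ g i j, ((4 * K).factorial : ℤ) ∣ (A g i).1 - (A g j).1 ∧
      ((4 * K).factorial : ℤ) ∣ (A g i).2 - (A g j).2)
    (hadm : ∀ c : Fin 4 → Fin K, Adm4 (fun g => A g (c g)))
    (hfinj : ∀ c : Fin 4 → Fin K, Function.Injective (fun g => A g (c g))) :
    ∃ c : Fin 4 → Fin K, ∃ g g', g ≠ g' ∧ R (A g (c g)) (A g' (c g')) := by
  classical
  have h0 : 0 < K := hK
  obtain ⟨g, g', i, j, hgg, hR⟩ := hq A hF (by
    rintro ⟨g, i⟩ ⟨g', i'⟩ hA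
    simp only at hA
    by_cases hg : g = g'
    · subst hg
      rw [hAinj g hA]
    · exfalso
      have h1 := hfinj (Function.update (fun _ => i) g' i')
      apply hg
      apply h1
      simp only [Function.update_self, Function.update_of_ne hg]
      exact hA) (by
    intro p hp
    by_cases hpk : p ≤ 4 * K
    · obtain ⟨n, hn⟩ := hadm (fun _ => ⟨0, h0⟩) p hp
      refine ⟨n, fun g i hdvd => hn g ?_⟩
      have hpQ : (p : ℤ) ∣ ((4 * K).factorial : ℤ) :=
        Int.natCast_dvd_natCast.2 ((hp.dvd_factorial).2 hpk)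
      have h1 := hpQ.trans (hres g i ⟨0, h0⟩).1
      have h2 := hpQ.trans (hres g i ⟨0, h0⟩).2
      have h3 := dvd_sub hdvd (dvd_add (Dvd.dvd.mul_right h1 n) h2)
      have h4 : (A g i).1 * n + (A g i).2 - (((A g i).1 - (A g ⟨0, h0⟩).1) * n +
        ((A g i).2 - (A g ⟨0, h0⟩).2)) = (A g ⟨0, h0⟩).1 * n + (A g ⟨0, h0⟩).2 := by ring
      rwa [h4] at h3
    · push Not at hpk
      obtain ⟨n, hn⟩ := Pool.Agent.H361R2.exists_avoid' (m := 4 * K) hp hpk
        (fun x => (A (finProdFinEquiv.symm x).1 (finProdFinEquiv.symm x).2).1)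
        (fun x => (A (finProdFinEquiv.symm x).1 (finProdFinEquiv.symm x).2).2) (by
          rintro x ⟨h1, h2⟩
          obtain ⟨n, hn⟩ := hadm (fun _ => (finProdFinEquiv.symm x).2) p hp
          exact hn (finProdFinEquiv.symm x).1 (dvd_add (Dvd.dvd.mul_right h1 n) h2))
      refine ⟨n, fun g i => ?_⟩
      have h1 := hn (finProdFinEquiv (g, i))
      simpa only [Equiv.symm_apply_apply] using h1)
  refine ⟨Function.update (fun _ => i) g' j, g, g', hgg, ?_⟩
  simp only [Function.update_self, Function.update_of_ne hgg]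
  exact hR

open Classical in
/-- few bad quadruples, with a power saving -/
theorem few_bad (K : ℕ) (hK : 1 ≤ K) :
    ∃ C δ : ℝ, 0 < C ∧ 0 < δ ∧ δ ≤ 1 ∧ ∀ (F : Set (ℤ × ℤ)) (R : ℤ × ℤ → ℤ × ℤ → Prop),
    HitR K F R → ∀ V : Finset (ℤ × ℤ), (∀ f ∈ V, f ∈ F) → 1 ≤ V.card →
    (∀ f : Fin 4 → ℤ × ℤ, (∀ i, f i ∈ V) → Adm4 f) →
    ((clq V (fun f g => ¬ R f g) 4).card : ℝ) ≤ C * (V.card : ℝ) ^ (-δ) * (V.card : ℝ) ^ 4 := by
  set Q : ℕ := (4 * K).factorial with hQ
  have hQpos : 0 < Q := Nat.factorial_pos _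
  set t : Finset (Fin 4 → ℤ × ℤ) :=
    Fintype.piFinset (fun _ : Fin 4 => (Finset.Ico (0 : ℤ) Q ×ˢ Finset.Ico (0 : ℤ) Q)) with ht
  have htne : t.Nonempty := by
    refine ⟨fun _ => (0, 0), ?_⟩
    rw [ht, Fintype.mem_piFinset]
    intro i
    rw [mem_product]
    have : (0 : ℤ) < Q := by exact_mod_cast hQpos
    exact ⟨mem_Ico.2 ⟨le_rfl, this⟩, mem_Ico.2 ⟨le_rfl, this⟩⟩
  obtain ⟨Rr, hR⟩ : ∃ Rr : ℝ, Rr = (t.card : ℝ) := ⟨_, rfl⟩
  have hR1 : 1 ≤ Rr := by
    rw [hR]
    exact_mod_cast Nat.one_le_iff_ne_zero.2 htne.card_pos.ne'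
  have hRpos : 0 < Rr := by linarith
  obtain ⟨C₀, E, hC₀, hbox⟩ := Pool.Agent.TH899.UG.box_pow K 4
  set δ₀ : ℝ := 1 / ((E : ℝ) + 1) with hδ₀
  have hδ₀pos : 0 < δ₀ := by positivity
  have hδ₀1 : δ₀ ≤ 1 := by
    rw [hδ₀, div_le_one (by positivity)]
    have : (0 : ℝ) ≤ E := Nat.cast_nonneg _
    linarith
  set C : ℝ := 2 * Rr * C₀ + 2 * ((4 : ℕ) : ℝ) ^ 2 + 1 with hC
  have hCpos : 0 < C := by positivity
  refine ⟨C, δ₀, hCpos, hδ₀pos, hδ₀1, ?_⟩
  intro F R hq V hVF hN hVadm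
  obtain ⟨N, hNdef⟩ : ∃ N : ℕ, N = V.card := ⟨_, rfl⟩
  rw [← hNdef] at hN ⊢
  obtain ⟨P', hP'⟩ : ∃ P' : ℝ, P' = (N : ℝ) ^ 4 := ⟨_, rfl⟩
  have hN0 : (0 : ℝ) < N := by exact_mod_cast hN
  have hN1 : (1 : ℝ) ≤ N := by exact_mod_cast hN
  have hPpos : 0 < P' := by
    rw [hP']; positivity
  obtain ⟨ε, hε⟩ : ∃ ε : ℝ, ε = C * (N : ℝ) ^ (-δ₀) := ⟨_, rfl⟩
  have hεpos : 0 < ε := by rw [hε]; positivity
  rw [← hε, ← hP']
  -- facts on `ε`
  have hNδ : (N : ℝ) ^ (-δ₀) * (N : ℝ) ^ δ₀ = 1 := by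
    rw [← Real.rpow_add hN0]
    simp
  have hNδ1 : (N : ℝ) ^ (-(1 : ℝ)) ≤ (N : ℝ) ^ (-δ₀) :=
    Real.rpow_le_rpow_of_exponent_le hN1 (by linarith)
  have hNinv : (N : ℝ) ^ (-(1 : ℝ)) = 1 / N := by
    rw [Real.rpow_neg_one, one_div]
  have hεT : 2 * ((4 : ℕ) : ℝ) ^ 2 / N ≤ ε := by
    have h1 : 2 * ((4 : ℕ) : ℝ) ^ 2 ≤ C := by
      have : 0 ≤ 2 * Rr * C₀ := by positivity
      linarith
    calc 2 * ((4 : ℕ) : ℝ) ^ 2 / N = 2 * ((4 : ℕ) : ℝ) ^ 2 * (N : ℝ) ^ (-(1 : ℝ)) := by rw [hNinv]; ring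
      _ ≤ C * (N : ℝ) ^ (-δ₀) := mul_le_mul h1 hNδ1 (Real.rpow_nonneg hN0.le _) hCpos.le
      _ = ε := hε.symm
  have hεE : ε ^ (E + 1) * N = C ^ (E + 1) := by
    have h1 : ((N : ℝ) ^ (-δ₀)) ^ (E + 1) = (N : ℝ) ^ (-(1 : ℝ)) := by
      rw [← Real.rpow_natCast, ← Real.rpow_mul hN0.le]
      congr 1
      rw [hδ₀]
      push_cast
      field_simp
    rw [hε, mul_pow, h1, hNinv]
    field_simp
  by_contra hcon'
  have hcon := not_le.1 hcon'
  set Bad := clq V (fun f g => ¬ R f g) 4 with hBad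
  have hcardV : (Fintype.piFinset (fun _ : Fin 4 => V)).card = N ^ 4 := by
    rw [Fintype.card_piFinset_const, hNdef]
  have hBadsub : Bad ⊆ Fintype.piFinset (fun _ : Fin 4 => V) := by
    intro f hf
    rw [hBad, mem_clq] at hf
    rw [Fintype.mem_piFinset]
    exact hf.1
  have hε1 : ε ≤ 1 := by
    by_contra hgt
    have hgt := not_le.1 hgt
    have h1 : (Bad.card : ℝ) ≤ P' := by
      have h2 : Bad.card ≤ (Fintype.piFinset (fun _ : Fin 4 => V)).card := card_le_card hBadsub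
      rw [hcardV] at h2
      rw [hP']
      exact_mod_cast h2
    nlinarith
  set Bad' := Bad.filter (fun f => InjO f) with hBad'
  -- remove the non injective tuples
  have hni := card_not_inj 4 V
  rw [← hNdef] at hni
  have hni' : (((Fintype.piFinset (fun _ : Fin 4 => V)).filter (fun φ => ¬ InjO φ)).card : ℝ) ≤
      ε / 2 * P' := by
    have h1 : (((Fintype.piFinset (fun _ : Fin 4 => V)).filter (fun φ => ¬ InjO φ)).card : ℝ) * N ≤
        ((4 : ℕ) : ℝ) ^ 2 * P' := by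
      rw [hP']
      exact_mod_cast hni
    have h2 : (((Fintype.piFinset (fun _ : Fin 4 => V)).filter (fun φ => ¬ InjO φ)).card : ℝ) ≤
        ((4 : ℕ) : ℝ) ^ 2 * P' / N := by
      rw [le_div_iff₀ hN0]; exact h1
    refine h2.trans ?_
    have h3 : ((4 : ℕ) : ℝ) ^ 2 * P' / N = (2 * ((4 : ℕ) : ℝ) ^ 2 / N) / 2 * P' := by ring
    rw [h3]
    exact mul_le_mul_of_nonneg_right (by linarith) hPpos.le
  have hBad'card : ε / 2 * P' ≤ (Bad'.card : ℝ) := by
    have h1 : Bad.card = Bad'.card + (Bad.filter (fun f => ¬ InjO f)).card := by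
      rw [hBad']
      exact (Finset.card_filter_add_card_filter_not _).symm
    have h2 : (Bad.filter (fun f => ¬ InjO f)).card ≤
        ((Fintype.piFinset (fun _ : Fin 4 => V)).filter (fun φ => ¬ InjO φ)).card := by
      apply card_le_card
      exact Finset.filter_subset_filter _ hBadsub
    have h1' : (Bad.card : ℝ) = Bad'.card + (Bad.filter (fun f => ¬ InjO f)).card := by
      exact_mod_cast h1
    have h2' : ((Bad.filter (fun f => ¬ InjO f)).card : ℝ) ≤
        (((Fintype.piFinset (fun _ : Fin 4 => V)).filter (fun φ => ¬ InjO φ)).card : ℝ) := by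
      exact_mod_cast h2
    linarith
  -- pigeonhole on residues
  obtain ⟨δ, hδ⟩ : ∃ δ : ℝ, δ = ε / (2 * Rr) := ⟨_, rfl⟩
  have hδpos : 0 < δ := by rw [hδ]; positivity
  have hδ1 : δ ≤ 1 := by
    rw [hδ, div_le_one (by positivity)]
    linarith
  set res : (Fin 4 → ℤ × ℤ) → (Fin 4 → ℤ × ℤ) := fun f i => ((f i).1 % Q, (f i).2 % Q) with hres
  have hmaps : ∀ f ∈ Bad', res f ∈ t := by
    intro f _
    rw [ht, Fintype.mem_piFinset]
    intro i
    have hQ' : (0 : ℤ) < Q := by exact_mod_cast hQpos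
    rw [mem_product, mem_Ico, mem_Ico]
    exact ⟨⟨Int.emod_nonneg _ hQ'.ne', Int.emod_lt_of_pos _ hQ'⟩,
      ⟨Int.emod_nonneg _ hQ'.ne', Int.emod_lt_of_pos _ hQ'⟩⟩
  obtain ⟨ρ, _, hρ⟩ := Finset.exists_le_card_fiber_of_nsmul_le_card_of_maps_to hmaps htne
    (b := δ * P') (by
      rw [nsmul_eq_mul, ← hR]
      calc Rr * (δ * P') = ε / 2 * P' := by rw [hδ]; field_simp
        _ ≤ _ := hBad'card)
  set B := Bad'.filter (fun f => res f = ρ) with hB
  set W : Fin 4 → Finset (ℤ × ℤ) := fun i => V.filter (fun x => (x.1 % Q, x.2 % Q) = ρ i) with hW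
  have hBmem : ∀ f ∈ B, (∀ i, f i ∈ V) ∧ (∀ i j, i ≠ j → ¬ R (f i) (f j)) ∧ InjO f ∧
      res f = ρ := by
    intro f hf
    rw [hB, mem_filter, hBad', mem_filter, hBad, mem_clq] at hf
    exact ⟨hf.1.1.1, hf.1.1.2, hf.1.2, hf.2⟩
  have hBW : B ⊆ Fintype.piFinset W := by
    intro f hf
    obtain ⟨h1, _, _, h5⟩ := hBmem f hf
    rw [Fintype.mem_piFinset]
    intro i
    rw [hW]
    simp only [mem_filter]
    exact ⟨h1 i, congrFun h5 i⟩
  have hWle : ∀ i, (W i).card ≤ N := fun i => by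
    rw [hNdef]; exact Finset.card_filter_le _ _
  have hprodW : δ * P' ≤ ∏ i, ((W i).card : ℝ) := by
    have h1 := card_le_card hBW
    rw [Fintype.card_piFinset] at h1
    have h2 : (B.card : ℝ) ≤ ∏ i, ((W i).card : ℝ) := by exact_mod_cast h1
    exact hρ.trans h2
  have hWN : ∀ i, C₀ / δ ^ E ≤ ((W i).card : ℝ) := by
    intro i
    have h1 : ∏ j, ((W j).card : ℝ) ≤ (W i).card * (N : ℝ) ^ 3 := by
      rw [← Finset.mul_prod_erase univ (fun j => ((W j).card : ℝ)) (mem_univ i)]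
      apply mul_le_mul_of_nonneg_left _ (Nat.cast_nonneg _)
      calc ∏ j ∈ univ.erase i, ((W j).card : ℝ) ≤ ∏ _j ∈ univ.erase i, (N : ℝ) :=
            Finset.prod_le_prod (fun _ _ => Nat.cast_nonneg _)
              (fun j _ => by exact_mod_cast hWle j)
        _ = (N : ℝ) ^ 3 := by
            rw [Finset.prod_const, Finset.card_erase_of_mem (mem_univ i), Finset.card_univ,
              Fintype.card_fin]
    have h4 : δ * (N : ℝ) ≤ (W i).card := by
      have h5 := hprodW.trans h1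
      rw [hP'] at h5
      have h6 : (0 : ℝ) < (N : ℝ) ^ 3 := by positivity
      have h7 : δ * (N : ℝ) ^ 4 = δ * N * (N : ℝ) ^ 3 := by ring
      rw [h7] at h5
      exact le_of_mul_le_mul_right h5 h6
    refine le_trans ?_ h4
    rw [div_le_iff₀ (by positivity)]
    have h7 : δ ^ (E + 1) * N = (C / (2 * Rr)) ^ (E + 1) := by
      rw [hδ, div_pow, div_pow, div_mul_eq_mul_div, hεE]
    have h8 : C₀ ≤ C / (2 * Rr) := by
      rw [le_div_iff₀ (by positivity)]
      have : (0 : ℝ) ≤ 2 * ((4 : ℕ) : ℝ) ^ 2 := by positivity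
      linarith
    have h9 : C₀ ≤ (C / (2 * Rr)) ^ (E + 1) := by
      calc C₀ ≤ C₀ ^ (E + 1) := le_self_pow₀ hC₀ (by omega)
        _ ≤ (C / (2 * Rr)) ^ (E + 1) := pow_le_pow_left₀ (by linarith) h8 _
    calc C₀ ≤ δ ^ (E + 1) * N := by rw [h7]; exact h9
      _ = δ * N * δ ^ E := by ring
  have hdens : δ * ∏ i, ((W i).card : ℝ) ≤ (B.card : ℝ) := by
    have h1 : ∏ i, ((W i).card : ℝ) ≤ P' := by
      rw [hP']
      calc ∏ i, ((W i).card : ℝ) ≤ ∏ _i : Fin 4, (N : ℝ) :=
            Finset.prod_le_prod (fun _ _ => Nat.cast_nonneg _)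
              (fun j _ => by exact_mod_cast hWle j)
        _ = (N : ℝ) ^ 4 := by rw [Finset.prod_const, Finset.card_univ, Fintype.card_fin]
    calc δ * ∏ i, ((W i).card : ℝ) ≤ δ * P' := mul_le_mul_of_nonneg_left h1 hδpos.le
      _ ≤ _ := hρ
  obtain ⟨A, hA1, hA2⟩ := hbox δ hδpos hδ1 (ℤ × ℤ) W hWN B hBW hdens
  obtain ⟨c, g, g', hgg, hRR⟩ := no_bad K hK F R hq A
    (fun g i => by
      have h1 := (hBmem _ (hA2 (fun _ => i))).1 g
      exact hVF _ h1)
    hA1
    (fun g i j => by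
      have h1 := congrFun (hBmem _ (hA2 (fun _ => i))).2.2.2 g
      have h2 := congrFun (hBmem _ (hA2 (fun _ => j))).2.2.2 g
      rw [← h2] at h1
      simp only [hres, Prod.mk.injEq] at h1
      exact ⟨Int.ModEq.dvd (Int.ModEq.symm h1.1), Int.ModEq.dvd (Int.ModEq.symm h1.2)⟩)
    (fun c => hVadm _ (hBmem _ (hA2 c)).1)
    (fun c => (hBmem _ (hA2 c)).2.2.1)
  exact (hBmem _ (hA2 c)).2.1 g g' hgg hRR

open Classical in
/-- **a third of the pairs** -/
theorem third (K : ℕ) (hK : 1 ≤ K) : ∃ C δ : ℝ, 0 < C ∧ 0 < δ ∧ δ ≤ 1 ∧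
    ∀ (F : Set (ℤ × ℤ)) (R : ℤ × ℤ → ℤ × ℤ → Prop), (∀ x y, R x y → R y x) →
    HitR K F R → ∀ V : Finset (ℤ × ℤ), (∀ f ∈ V, f ∈ F) → 1 ≤ V.card →
    (∀ f : Fin 4 → ℤ × ℤ, (∀ i, f i ∈ V) → Adm4 f) →
    1 / 3 * (V.card : ℝ) ^ 2 - C * (V.card : ℝ) ^ (-δ) * (V.card : ℝ) ^ 2 ≤
      (((V ×ˢ V).filter (fun x => R x.1 x.2)).card : ℝ) := by
  obtain ⟨C, δ, hC0, hδ, hδ1, hN⟩ := few_bad K hK
  refine ⟨3 / 2 * (C + 1), δ, by positivity, hδ, hδ1, ?_⟩
  intro F R hsymm hq V hVF hVpos hadm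
  have hVpos' : (0 : ℝ) < V.card := by exact_mod_cast hVpos
  by_contra hcon
  have hcon := not_le.1 hcon
  set Cr : ℤ × ℤ → ℤ × ℤ → Prop := fun f g => ¬ R f g with hCr
  have hCs : ∀ x y, Cr x y → Cr y x := fun x y h h' => h (hsymm _ _ h')
  set v : ℝ := (V.card : ℝ) with hv
  set ε : ℝ := 3 / 2 * (C + 1) * v ^ (-δ) with hε
  have hvδ : 0 < v ^ (-δ) := Real.rpow_pos_of_pos hVpos' _
  have hεpos : 0 < ε := by positivity
  -- number of bad pairs
  have h2 : ((clq V Cr 2).card : ℝ) = (((V ×ˢ V).filter (fun x => ¬ R x.1 x.2)).card : ℝ) := by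
    congr 1
    apply Finset.card_bij (fun f _ => (f 0, f 1))
    · intro f hf
      rw [mem_clq] at hf
      rw [mem_filter, mem_product]
      exact ⟨⟨hf.1 0, hf.1 1⟩, hf.2 0 1 (by decide)⟩
    · intro f _ f' _ h
      simp only [Prod.mk.injEq] at h
      funext i
      fin_cases i
      · exact h.1
      · exact h.2
    · intro x hx
      rw [mem_filter, mem_product] at hx
      refine ⟨![x.1, x.2], ?_, by simp⟩
      rw [mem_clq]
      constructor
      · intro i
        fin_cases i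
        · exact hx.1.1
        · exact hx.1.2
      · intro i j hij
        fin_cases i <;> fin_cases j
        · exact absurd rfl hij
        · exact hx.2
        · exact fun h => hx.2 (hsymm _ _ h)
        · exact absurd rfl hij
  have h3 : (((V ×ˢ V).filter (fun x => R x.1 x.2)).card : ℝ) +
      (((V ×ˢ V).filter (fun x => ¬ R x.1 x.2)).card : ℝ) = v ^ 2 := by
    have h4 := Finset.card_filter_add_card_filter_not (s := V ×ˢ V)
      (fun x : (ℤ × ℤ) × (ℤ × ℤ) => R x.1 x.2)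
    rw [card_product] at h4
    rw [pow_two, hv]
    exact_mod_cast h4
  have h5 := turan4' V Cr hCs hVpos ε hεpos (by
    rw [h2, ← hv]
    nlinarith)
  have h8 : ((clq V Cr 4).card : ℝ) ≤ C * v ^ (-δ) * v ^ 4 := hN F R hq V hVF hVpos hadm
  have h9 : 2 / 3 * ε * v ^ 4 = (C + 1) * v ^ (-δ) * v ^ 4 := by
    rw [hε]; ring
  have h10 : 0 < v ^ (-δ) * v ^ 4 := by positivity
  rw [← hv] at h5
  nlinarith

end Pool.Agent.K7.H63.TQ
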