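import Mathlib
import Pool.Agent.K7.H63.TQ.Comb

/-! The weighted form of the theorem on a third of the pairs, by sampling. -/

set_option autoImplicit false

namespace Pool.Agent.K7.H63.TQ

open Finset

/-- marginals of a product weight -/
theorem marg {α : Type} [DecidableEq α] {n : ℕ} (V : Finset α) (w : α → ℝ) (P : α → α → ℝ)
    (i j : Fin n) (hij : i ≠ j) :
    ∑ x ∈ Fintype.piFinset (fun _ : Fin n => V), (∏ k, w (x k)) * P (x i) (x j) =
      (∑ v ∈ V, w v) ^ (n - 2) * ∑ f ∈ V, ∑ g ∈ V, w f * w g * P f g := by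
  classical
  have h1 : ∀ f ∈ V, ∀ g ∈ V, ∑ x ∈ Fintype.piFinset (fun _ : Fin n => V),
      ((∏ k, w (x k)) * if x i = f ∧ x j = g then P f g else 0) =
      (∑ v ∈ V, w v) ^ (n - 2) * (w f * w g * P f g) := by
    intro f hf g hg
    have h2 : ∀ x : Fin n → α, ((∏ k, w (x k)) * if x i = f ∧ x j = g then P f g else 0) =
        P f g * ∏ k, (if k = i then (if x k = f then w (x k) else 0) else
          if k = j then (if x k = g then w (x k) else 0) else w (x k)) := by
      intro x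
      by_cases hx : x i = f ∧ x j = g
      · rw [if_pos hx, mul_comm]
        congr 1
        apply Finset.prod_congr rfl
        intro k _
        by_cases hki : k = i
        · rw [if_pos hki, if_pos (by rw [hki]; exact hx.1)]
        · rw [if_neg hki]
          by_cases hkj : k = j
          · rw [if_pos hkj, if_pos (by rw [hkj]; exact hx.2)]
          · rw [if_neg hkj]
      · rw [if_neg hx, mul_zero]
        have h3 : ∏ k, (if k = i then (if x k = f then w (x k) else 0) else
          if k = j then (if x k = g then w (x k) else 0) else w (x k)) = 0 := by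
          by_cases hi : x i = f
          · have hj : x j ≠ g := fun h => hx ⟨hi, h⟩
            apply Finset.prod_eq_zero (mem_univ j)
            rw [if_neg hij.symm, if_pos rfl, if_neg hj]
          · apply Finset.prod_eq_zero (mem_univ i)
            rw [if_pos rfl, if_neg hi]
        rw [h3, mul_zero]
    rw [Finset.sum_congr rfl (fun x _ => h2 x), ← Finset.mul_sum,
      ← Finset.prod_univ_sum (fun _ : Fin n => V) (fun k v => (if k = i then (if v = f then w v else 0) else
          if k = j then (if v = g then w v else 0) else w v))]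
    have h4 : ∀ k : Fin n, (∑ v ∈ V, (if k = i then (if v = f then w v else 0) else
          if k = j then (if v = g then w v else 0) else w v)) =
        if k = i then w f else if k = j then w g else ∑ v ∈ V, w v := by
      intro k
      by_cases hki : k = i
      · simp only [if_pos hki]
        rw [Finset.sum_ite_eq' V f w, if_pos hf]
      · simp only [if_neg hki]
        by_cases hkj : k = j
        · simp only [if_pos hkj]
          rw [Finset.sum_ite_eq' V g w, if_pos hg]
        · simp only [if_neg hkj]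
    rw [Finset.prod_congr rfl (fun k _ => h4 k)]
    have hi : i ∈ (univ : Finset (Fin n)) := mem_univ i
    have hj : j ∈ (univ : Finset (Fin n)).erase i := mem_erase.2 ⟨hij.symm, mem_univ j⟩
    rw [← Finset.mul_prod_erase univ _ hi, ← Finset.mul_prod_erase _ _ hj, if_pos rfl,
      if_neg hij.symm, if_pos rfl]
    have h5 : ∏ k ∈ ((univ : Finset (Fin n)).erase i).erase j,
        (if k = i then w f else if k = j then w g else ∑ v ∈ V, w v) =
        ∏ _k ∈ ((univ : Finset (Fin n)).erase i).erase j, ∑ v ∈ V, w v := by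
      apply Finset.prod_congr rfl
      intro k hk
      obtain ⟨hk1, hk2⟩ := mem_erase.1 hk
      obtain ⟨hk3, -⟩ := mem_erase.1 hk2
      rw [if_neg hk3, if_neg hk1]
    rw [h5, Finset.prod_const, Finset.card_erase_of_mem hj, Finset.card_erase_of_mem hi,
      Finset.card_univ, Fintype.card_fin]
    have h6 : n - 1 - 1 = n - 2 := by omega
    rw [h6]
    ring
  have h7 : ∀ x ∈ Fintype.piFinset (fun _ : Fin n => V), (∏ k, w (x k)) * P (x i) (x j) =
      ∑ f ∈ V, ∑ g ∈ V, ((∏ k, w (x k)) * if x i = f ∧ x j = g then P f g else 0) := by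
    intro x hx
    rw [Fintype.mem_piFinset] at hx
    rw [Finset.sum_eq_single_of_mem (x i) (hx i), Finset.sum_eq_single_of_mem (x j) (hx j)]
    · rw [if_pos ⟨rfl, rfl⟩]
    · intro g _ hg
      rw [if_neg (fun h => hg h.2.symm), mul_zero]
    · intro f _ hf
      apply Finset.sum_eq_zero
      intro g _
      rw [if_neg (fun h => hf h.1.symm), mul_zero]
  rw [Finset.sum_congr rfl h7, Finset.sum_comm, Finset.mul_sum]
  apply Finset.sum_congr rfl
  intro f hf
  rw [Finset.sum_comm, Finset.mul_sum]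
  apply Finset.sum_congr rfl
  intro g hg
  exact h1 f hf g hg

open Classical in
/-- **a third of the pairs, weighted** -/
theorem third_w (K : ℕ) (hK : 1 ≤ K) (ε : ℝ) (hε : 0 < ε) : ∃ κ : ℝ, 0 < κ ∧
    ∀ (F : Set (ℤ × ℤ)) (R : ℤ × ℤ → ℤ × ℤ → Prop), (∀ x y, R x y → R y x) →
    HitR K F R → ∀ V : Finset (ℤ × ℤ), (∀ f ∈ V, f ∈ F) →
    (∀ f : Fin 4 → ℤ × ℤ, (∀ i, f i ∈ V) → Adm4 f) →
    ∀ w : ℤ × ℤ → ℝ, (∀ f ∈ V, 0 ≤ w f) → (∀ f ∈ V, w f ≤ κ * ∑ g ∈ V, w g) →
    (1 / 3 - ε) * (∑ g ∈ V, w g) ^ 2 ≤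
      ∑ f ∈ V, ∑ g ∈ V, w f * w g * (if R f g then 1 else 0) := by
  obtain ⟨C, δ, hC, hδ, hδ1, H⟩ := third K hK
  -- the number of samples
  obtain ⟨n, hn2, hn3, hn4⟩ : ∃ n : ℕ, 2 ≤ n ∧ C * (n : ℝ) ^ (-δ) ≤ ε / 3 ∧ 1 / (n : ℝ) ≤ ε / 3 := by
    have t1 : Filter.Tendsto (fun n : ℕ => C * (n : ℝ) ^ (-δ)) Filter.atTop (nhds (C * 0)) :=
      ((tendsto_rpow_neg_atTop hδ).comp tendsto_natCast_atTop_atTop).const_mul C
    have t2 : Filter.Tendsto (fun n : ℕ => 1 / (n : ℝ)) Filter.atTop (nhds 0) :=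
      tendsto_one_div_atTop_nhds_zero_nat
    rw [mul_zero] at t1
    have e1 := t1.eventually (gt_mem_nhds (by positivity : (0 : ℝ) < ε / 3))
    have e2 := t2.eventually (gt_mem_nhds (by positivity : (0 : ℝ) < ε / 3))
    obtain ⟨n, h1, h2, h3⟩ := (e1.and (e2.and (Filter.eventually_ge_atTop 2))).exists
    exact ⟨n, h3, h1.le, h2.le⟩
  have hn0 : (0 : ℝ) < n := by exact_mod_cast (by omega : 0 < n)
  refine ⟨ε / (3 * (n : ℝ) ^ 2), by positivity, ?_⟩
  intro F R hsymm hq V hVF hadm w hw0 hwκ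
  set W : ℝ := ∑ g ∈ V, w g with hW
  have hW0 : 0 ≤ W := Finset.sum_nonneg hw0
  set S : ℝ := ∑ f ∈ V, ∑ g ∈ V, w f * w g * (if R f g then 1 else 0) with hS
  have hS0 : 0 ≤ S := by
    apply Finset.sum_nonneg; intro f hf
    apply Finset.sum_nonneg; intro g hg
    have := hw0 f hf
    have := hw0 g hg
    split_ifs <;> simp <;> positivity
  rcases hW0.eq_or_lt with hWz | hWpos
  · rw [← hWz]; simpa using hS0
  -- pointwise inequality
  have hpt : ∀ x ∈ Fintype.piFinset (fun _ : Fin n => V),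
      (1 / 3 * (n : ℝ) ^ 2 - C * (n : ℝ) ^ (-δ) * (n : ℝ) ^ 2 - n) -
        (n : ℝ) ^ 2 * ∑ y ∈ (univ : Finset (Fin n × Fin n)).filter (fun y => y.1 ≠ y.2),
          (if x y.1 = x y.2 then (1 : ℝ) else 0) ≤
      ∑ y ∈ (univ : Finset (Fin n × Fin n)).filter (fun y => y.1 ≠ y.2),
        (if R (x y.1) (x y.2) then (1 : ℝ) else 0) := by
    intro x hx
    rw [Fintype.mem_piFinset] at hx
    have hnn : 0 ≤ ∑ y ∈ (univ : Finset (Fin n × Fin n)).filter (fun y => y.1 ≠ y.2),
        (if R (x y.1) (x y.2) then (1 : ℝ) else 0) := by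
      apply Finset.sum_nonneg; intro y _; split_ifs <;> norm_num
    by_cases hinj : Function.Injective x
    · have hz : ∑ y ∈ (univ : Finset (Fin n × Fin n)).filter (fun y => y.1 ≠ y.2),
          (if x y.1 = x y.2 then (1 : ℝ) else 0) = 0 := by
        apply Finset.sum_eq_zero
        intro y hy
        rw [if_neg (fun h => (mem_filter.1 hy).2 (hinj h))]
      rw [hz, mul_zero, sub_zero]
      set V' : Finset (ℤ × ℤ) := univ.image x with hV'
      have hc' : V'.card = n := by
        rw [hV', Finset.card_image_of_injective _ hinj, Finset.card_univ, Fintype.card_fin]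
      have hsub : ∀ f ∈ V', f ∈ V := by
        intro f hf
        obtain ⟨i, -, rfl⟩ := mem_image.1 hf
        exact hx i
      have h1 := H F R hsymm hq V' (fun f hf => hVF f (hsub f hf)) (by rw [hc']; omega)
        (fun f hf => hadm f (fun i => hsub _ (hf i)))
      rw [hc'] at h1
      have h2 : (((V' ×ˢ V').filter (fun x => R x.1 x.2)).card : ℝ) ≤
          ∑ y ∈ (univ : Finset (Fin n × Fin n)).filter (fun y => y.1 ≠ y.2),
            (if R (x y.1) (x y.2) then (1 : ℝ) else 0) + n := by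
        have h3 : ((V' ×ˢ V').filter (fun x => R x.1 x.2)).card ≤
            ((univ : Finset (Fin n × Fin n)).filter (fun y => R (x y.1) (x y.2))).card := by
          have h4 : (V' ×ˢ V').filter (fun x => R x.1 x.2) ⊆
              ((univ : Finset (Fin n × Fin n)).filter (fun y => R (x y.1) (x y.2))).image
                (fun y => (x y.1, x y.2)) := by
            rintro ⟨f, g⟩ hfg
            obtain ⟨h5, h6⟩ := mem_filter.1 hfg
            obtain ⟨h7, h8⟩ := mem_product.1 h5
            obtain ⟨i, -, hi⟩ := mem_image.1 h7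
            obtain ⟨j, -, hj⟩ := mem_image.1 h8
            refine mem_image.2 ⟨(i, j), mem_filter.2 ⟨mem_univ _, ?_⟩, ?_⟩
            · simp only at hi hj h6 ⊢
              rw [hi, hj]; exact h6
            · simp only at hi hj ⊢
              rw [hi, hj]
          exact (card_le_card h4).trans card_image_le
        have h5 : ((univ : Finset (Fin n × Fin n)).filter (fun y => R (x y.1) (x y.2))).card ≤
            (((univ : Finset (Fin n × Fin n)).filter (fun y => y.1 ≠ y.2)).filter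
              (fun y => R (x y.1) (x y.2))).card + n := by
          have h6 : (univ : Finset (Fin n × Fin n)).filter (fun y => R (x y.1) (x y.2)) ⊆
              (((univ : Finset (Fin n × Fin n)).filter (fun y => y.1 ≠ y.2)).filter
              (fun y => R (x y.1) (x y.2))) ∪ (univ.image (fun i : Fin n => (i, i))) := by
            rintro ⟨i, j⟩ hy
            rw [mem_union]
            by_cases hij : i = j
            · right
              exact mem_image.2 ⟨i, mem_univ _, by rw [hij]⟩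
            · left
              exact mem_filter.2 ⟨mem_filter.2 ⟨mem_univ _, hij⟩, (mem_filter.1 hy).2⟩
          refine (card_le_card h6).trans ((card_union_le _ _).trans ?_)
          have h7 : (univ.image (fun i : Fin n => (i, i))).card ≤ n := by
            refine card_image_le.trans ?_
            rw [Finset.card_univ, Fintype.card_fin]
          omega
        have h8 : ∑ y ∈ (univ : Finset (Fin n × Fin n)).filter (fun y => y.1 ≠ y.2),
            (if R (x y.1) (x y.2) then (1 : ℝ) else 0) =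
            ((((univ : Finset (Fin n × Fin n)).filter (fun y => y.1 ≠ y.2)).filter
              (fun y => R (x y.1) (x y.2))).card : ℝ) := by
          rw [Finset.sum_ite, Finset.sum_const_zero, add_zero, Finset.sum_const, nsmul_eq_mul,
            mul_one]
        rw [h8]
        exact_mod_cast h3.trans h5
      linarith
    · have h1 : (1 : ℝ) ≤ ∑ y ∈ (univ : Finset (Fin n × Fin n)).filter (fun y => y.1 ≠ y.2),
          (if x y.1 = x y.2 then (1 : ℝ) else 0) := by
        rw [Function.Injective] at hinj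
        push Not at hinj
        obtain ⟨i, j, hij, hne⟩ := hinj
        have h2 := Finset.single_le_sum (f := fun y : Fin n × Fin n =>
          (if x y.1 = x y.2 then (1 : ℝ) else 0)) (s := (univ : Finset (Fin n × Fin n)).filter
            (fun y => y.1 ≠ y.2)) (fun y _ => by split_ifs <;> norm_num) (a := (i, j))
            (mem_filter.2 ⟨mem_univ _, hne⟩)
        simpa [hij] using h2
      have h2 : (n : ℝ) ^ 2 * 1 ≤ (n : ℝ) ^ 2 *
          ∑ y ∈ (univ : Finset (Fin n × Fin n)).filter (fun y => y.1 ≠ y.2),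
          (if x y.1 = x y.2 then (1 : ℝ) else 0) := mul_le_mul_of_nonneg_left h1 (by positivity)
      have h3 : 0 ≤ C * (n : ℝ) ^ (-δ) * (n : ℝ) ^ 2 := by positivity
      have h4 : (0 : ℝ) ≤ (n : ℝ) ^ 2 := by positivity
      linarith
  -- sum with the product weight
  have hprodnn : ∀ x ∈ Fintype.piFinset (fun _ : Fin n => V), 0 ≤ ∏ k, w (x k) := by
    intro x hx
    rw [Fintype.mem_piFinset] at hx
    exact Finset.prod_nonneg (fun k _ => hw0 _ (hx k))
  have htot : ∑ x ∈ Fintype.piFinset (fun _ : Fin n => V), ∏ k, w (x k) = W ^ n := by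
    rw [← Finset.prod_univ_sum (fun _ : Fin n => V) (fun _ v => w v), Finset.prod_const,
      Finset.card_univ, Fintype.card_fin]
  have hsum : ∑ x ∈ Fintype.piFinset (fun _ : Fin n => V), (∏ k, w (x k)) *
      ((1 / 3 * (n : ℝ) ^ 2 - C * (n : ℝ) ^ (-δ) * (n : ℝ) ^ 2 - n) -
        (n : ℝ) ^ 2 * ∑ y ∈ (univ : Finset (Fin n × Fin n)).filter (fun y => y.1 ≠ y.2),
          (if x y.1 = x y.2 then (1 : ℝ) else 0)) ≤
      ∑ x ∈ Fintype.piFinset (fun _ : Fin n => V), (∏ k, w (x k)) *
        ∑ y ∈ (univ : Finset (Fin n × Fin n)).filter (fun y => y.1 ≠ y.2),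
        (if R (x y.1) (x y.2) then (1 : ℝ) else 0) :=
    Finset.sum_le_sum (fun x hx => mul_le_mul_of_nonneg_left (hpt x hx) (hprodnn x hx))
  -- right side
  set M : ℝ := (((univ : Finset (Fin n × Fin n)).filter (fun y => y.1 ≠ y.2)).card : ℝ) with hM
  have hM0 : 0 ≤ M := Nat.cast_nonneg _
  have hMle : M ≤ (n : ℝ) ^ 2 := by
    have h1 : ((univ : Finset (Fin n × Fin n)).filter (fun y => y.1 ≠ y.2)).card ≤ n ^ 2 := by
      refine (card_filter_le _ _).trans ?_
      rw [Finset.card_univ, Fintype.card_prod, Fintype.card_fin, pow_two]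
    rw [hM]; exact_mod_cast h1
  have hright : ∑ x ∈ Fintype.piFinset (fun _ : Fin n => V), (∏ k, w (x k)) *
        ∑ y ∈ (univ : Finset (Fin n × Fin n)).filter (fun y => y.1 ≠ y.2),
        (if R (x y.1) (x y.2) then (1 : ℝ) else 0) = M * (W ^ (n - 2) * S) := by
    have h1 : ∀ x ∈ Fintype.piFinset (fun _ : Fin n => V), (∏ k, w (x k)) *
        ∑ y ∈ (univ : Finset (Fin n × Fin n)).filter (fun y => y.1 ≠ y.2),
        (if R (x y.1) (x y.2) then (1 : ℝ) else 0) =
        ∑ y ∈ (univ : Finset (Fin n × Fin n)).filter (fun y => y.1 ≠ y.2),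
          (∏ k, w (x k)) * (fun f g => if R f g then (1 : ℝ) else 0) (x y.1) (x y.2) := by
      intro x _
      rw [Finset.mul_sum]
    rw [Finset.sum_congr rfl h1, Finset.sum_comm]
    have h2 : ∀ y ∈ (univ : Finset (Fin n × Fin n)).filter (fun y => y.1 ≠ y.2),
        ∑ x ∈ Fintype.piFinset (fun _ : Fin n => V), (∏ k, w (x k)) *
          (fun f g => if R f g then (1 : ℝ) else 0) (x y.1) (x y.2) = W ^ (n - 2) * S := by
      intro y hy
      exact marg V w (fun f g => if R f g then (1 : ℝ) else 0) y.1 y.2 (mem_filter.1 hy).2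
    rw [Finset.sum_congr rfl h2, Finset.sum_const, nsmul_eq_mul]
  -- the collisions
  have hcoll : ∑ f ∈ V, ∑ g ∈ V, w f * w g * (if f = g then (1 : ℝ) else 0) ≤
      ε / (3 * (n : ℝ) ^ 2) * W ^ 2 := by
    have h1 : ∀ f ∈ V, ∑ g ∈ V, w f * w g * (if f = g then (1 : ℝ) else 0) = w f * w f := by
      intro f hf
      rw [Finset.sum_eq_single_of_mem f hf]
      · rw [if_pos rfl, mul_one]
      · intro g _ hg
        rw [if_neg (fun h => hg h.symm), mul_zero]
    rw [Finset.sum_congr rfl h1]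
    calc ∑ f ∈ V, w f * w f ≤ ∑ f ∈ V, w f * (ε / (3 * (n : ℝ) ^ 2) * W) :=
          Finset.sum_le_sum (fun f hf => mul_le_mul_of_nonneg_left (hwκ f hf) (hw0 f hf))
      _ = ε / (3 * (n : ℝ) ^ 2) * W ^ 2 := by
          rw [← Finset.sum_mul, ← hW]; ring
  have hleft : ∑ x ∈ Fintype.piFinset (fun _ : Fin n => V), (∏ k, w (x k)) *
      ((1 / 3 * (n : ℝ) ^ 2 - C * (n : ℝ) ^ (-δ) * (n : ℝ) ^ 2 - n) -
        (n : ℝ) ^ 2 * ∑ y ∈ (univ : Finset (Fin n × Fin n)).filter (fun y => y.1 ≠ y.2),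
          (if x y.1 = x y.2 then (1 : ℝ) else 0)) =
      (1 / 3 * (n : ℝ) ^ 2 - C * (n : ℝ) ^ (-δ) * (n : ℝ) ^ 2 - n) * W ^ n -
        (n : ℝ) ^ 2 * (M * (W ^ (n - 2) *
          ∑ f ∈ V, ∑ g ∈ V, w f * w g * (if f = g then (1 : ℝ) else 0))) := by
    have h1 : ∀ x ∈ Fintype.piFinset (fun _ : Fin n => V), (∏ k, w (x k)) *
        ((1 / 3 * (n : ℝ) ^ 2 - C * (n : ℝ) ^ (-δ) * (n : ℝ) ^ 2 - n) -
        (n : ℝ) ^ 2 * ∑ y ∈ (univ : Finset (Fin n × Fin n)).filter (fun y => y.1 ≠ y.2),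
          (if x y.1 = x y.2 then (1 : ℝ) else 0)) =
        (1 / 3 * (n : ℝ) ^ 2 - C * (n : ℝ) ^ (-δ) * (n : ℝ) ^ 2 - n) * (∏ k, w (x k)) -
          (n : ℝ) ^ 2 * ∑ y ∈ (univ : Finset (Fin n × Fin n)).filter (fun y => y.1 ≠ y.2),
          (∏ k, w (x k)) * (fun f g => if f = g then (1 : ℝ) else 0) (x y.1) (x y.2) := by
      intro x _
      have h2 : (∑ y ∈ (univ : Finset (Fin n × Fin n)).filter (fun y => y.1 ≠ y.2),
          (∏ k, w (x k)) * (fun f g => if f = g then (1 : ℝ) else 0) (x y.1) (x y.2)) =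
          (∏ k, w (x k)) * ∑ y ∈ (univ : Finset (Fin n × Fin n)).filter (fun y => y.1 ≠ y.2),
          (if x y.1 = x y.2 then (1 : ℝ) else 0) := by
        rw [Finset.mul_sum]
      rw [h2]
      ring
    rw [Finset.sum_congr rfl h1, Finset.sum_sub_distrib, ← Finset.mul_sum, htot, ← Finset.mul_sum,
      Finset.sum_comm]
    have h2 : ∀ y ∈ (univ : Finset (Fin n × Fin n)).filter (fun y => y.1 ≠ y.2),
        ∑ x ∈ Fintype.piFinset (fun _ : Fin n => V), (∏ k, w (x k)) *
          (fun f g => if f = g then (1 : ℝ) else 0) (x y.1) (x y.2) =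
          W ^ (n - 2) * ∑ f ∈ V, ∑ g ∈ V, w f * w g * (if f = g then (1 : ℝ) else 0) := by
      intro y hy
      exact marg V w (fun f g => if f = g then (1 : ℝ) else 0) y.1 y.2 (mem_filter.1 hy).2
    rw [Finset.sum_congr rfl h2, Finset.sum_const, nsmul_eq_mul]
  rw [hleft, hright] at hsum
  -- divide by `W ^ (n - 2)`
  have hWn : W ^ n = W ^ (n - 2) * W ^ 2 := by
    rw [← pow_add]; congr 1; omega
  have hWp : 0 < W ^ (n - 2) := by positivity
  obtain ⟨D, hD⟩ : ∃ D : ℝ, D = ∑ f ∈ V, ∑ g ∈ V, w f * w g * (if f = g then (1 : ℝ) else 0) :=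
    ⟨_, rfl⟩
  rw [← hD] at hsum hcoll
  have hD0 : 0 ≤ D := by
    rw [hD]
    apply Finset.sum_nonneg; intro f hf
    apply Finset.sum_nonneg; intro g hg
    have := hw0 f hf
    have := hw0 g hg
    split_ifs <;> simp <;> positivity
  rw [hWn] at hsum
  obtain ⟨a, ha⟩ : ∃ a : ℝ, a = 1 / 3 * (n : ℝ) ^ 2 - C * (n : ℝ) ^ (-δ) * (n : ℝ) ^ 2 - n := ⟨_, rfl⟩
  rw [← ha] at hsum
  have h1 : W ^ (n - 2) * (a * W ^ 2 - (n : ℝ) ^ 2 * (M * D)) ≤ W ^ (n - 2) * (M * S) := by
    calc _ = a * (W ^ (n - 2) * W ^ 2) - (n : ℝ) ^ 2 * (M * (W ^ (n - 2) * D)) := by ring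
      _ ≤ _ := hsum
      _ = _ := by ring
  have h2 := le_of_mul_le_mul_left h1 hWp
  have h3 : M * D ≤ (n : ℝ) ^ 2 * (ε / (3 * (n : ℝ) ^ 2) * W ^ 2) :=
    mul_le_mul hMle hcoll hD0 (by positivity)
  have h4 : (n : ℝ) ^ 2 * (ε / (3 * (n : ℝ) ^ 2) * W ^ 2) = ε / 3 * W ^ 2 := by
    field_simp
  have h5 : M * S ≤ (n : ℝ) ^ 2 * S := mul_le_mul_of_nonneg_right hMle hS0
  have h6 : (n : ℝ) ^ 2 * ((1 / 3 - ε) * W ^ 2) ≤ (n : ℝ) ^ 2 * S := by
    refine le_trans ?_ (h2.trans h5)
    rw [h4] at h3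
    have h7 : (n : ℝ) ^ 2 * (M * D) ≤ (n : ℝ) ^ 2 * (ε / 3 * W ^ 2) :=
      mul_le_mul_of_nonneg_left h3 (by positivity)
    have h8 : (n : ℝ) ^ 2 * (1 / 3 - ε / 3 - ε / 3) ≤ a := by
      rw [ha]
      have h9 : C * (n : ℝ) ^ (-δ) * (n : ℝ) ^ 2 ≤ ε / 3 * (n : ℝ) ^ 2 :=
        mul_le_mul_of_nonneg_right hn3 (by positivity)
      have h10 : (n : ℝ) ≤ ε / 3 * (n : ℝ) ^ 2 := by
        have := mul_le_mul_of_nonneg_right hn4 (by positivity : (0 : ℝ) ≤ (n : ℝ) ^ 2)
        have e : 1 / (n : ℝ) * (n : ℝ) ^ 2 = n := by field_simp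
        rwa [e] at this
      nlinarith
    have h11 : (n : ℝ) ^ 2 * (1 / 3 - ε / 3 - ε / 3) * W ^ 2 ≤ a * W ^ 2 :=
      mul_le_mul_of_nonneg_right h8 (by positivity)
    nlinarith
  exact le_of_mul_le_mul_left h6 (by positivity)

end Pool.Agent.K7.H63.TQ
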