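import Mathlib
import Pool.Agent.K7.H63.TQ.Sums

/-! The weight of a triple: upper and lower bounds (continued). -/

set_option autoImplicit false

namespace Pool.Agent.K7.H63.TQ

open Finset

/-- the main sum, lower bound -/
theorem le_sum_main (D0 D1 : ℕ) (ρ : ℝ) (hD0 : (D0 : ℝ) ≤ ρ) (hρ : 4 ≤ ρ) (hD1 : 2 * ρ ≤ D1) :
    (1 - 6 / ρ) / (2 * ρ) - 1 / D1 ≤
      ∑ D ∈ (Ico D0 D1).filter (fun D : ℕ => ρ < D), ((D : ℝ) - ρ) / (D : ℝ) ^ 3 := by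
  have hρ0 : 0 < ρ := by linarith
  rw [filter_Ico D0 D1 ρ hρ0.le]
  have hmax : max D0 (⌊ρ⌋₊ + 1) = ⌊ρ⌋₊ + 1 := by
    apply max_eq_right
    have : D0 ≤ ⌊ρ⌋₊ := Nat.le_floor hD0
    omega
  rw [hmax]
  obtain ⟨r, hr⟩ : ∃ r : ℕ, r = ⌊ρ⌋₊ := ⟨_, rfl⟩
  rw [← hr]
  have hr1 : (r : ℝ) ≤ ρ := by rw [hr]; exact Nat.floor_le hρ0.le
  have hr2 : ρ < (r : ℝ) + 1 := by rw [hr]; exact Nat.lt_floor_add_one ρ
  have hr3 : (3 : ℝ) < r := by linarith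
  have hmn : r + 1 ≤ D1 := by
    have : ((r + 1 : ℕ) : ℝ) ≤ D1 := by push_cast; linarith
    exact_mod_cast this
  have h1 := le_tele (fun D : ℕ => ((D : ℝ) - ρ) / (D : ℝ) ^ 3)
      (fun D : ℕ => 1 / (D : ℝ) - ρ / (2 * ((D : ℝ) - 1) ^ 2)) (r + 1) (by
        intro d hd
        have hd' : ((r : ℝ) + 1) ≤ d := by exact_mod_cast hd
        have hdp : (0 : ℝ) < d := by linarith
        have hd1 : (0 : ℝ) < (d : ℝ) - 1 := by linarith
        have e1 : ((d : ℝ) - ρ) / (d : ℝ) ^ 3 = 1 / (d : ℝ) ^ 2 - ρ / (d : ℝ) ^ 3 := by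
          field_simp
        have e2 : 1 / (d : ℝ) - 1 / ((d : ℝ) + 1) ≤ 1 / (d : ℝ) ^ 2 := by
          rw [div_sub_div _ _ hdp.ne' (by positivity), div_le_div_iff₀ (by positivity) (by positivity)]
          nlinarith
        have e3 : ρ / (d : ℝ) ^ 3 ≤ ρ / (2 * ((d : ℝ) - 1) ^ 2) - ρ / (2 * (d : ℝ) ^ 2) := by
          have e4 : 1 / (d : ℝ) ^ 3 ≤ 1 / (2 * ((d : ℝ) - 1) ^ 2) - 1 / (2 * (d : ℝ) ^ 2) := by
            rw [div_sub_div _ _ (by positivity) (by positivity), div_le_div_iff₀ (by positivity)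
              (by positivity)]
            have h5 : 0 < (d : ℝ) ^ 2 := by positivity
            nlinarith [mul_pos h5 h5, mul_pos h5 hdp, mul_pos h5 hd1, mul_pos (mul_pos h5 hdp) hd1]
          have := mul_le_mul_of_nonneg_left e4 hρ0.le
          calc ρ / (d : ℝ) ^ 3 = ρ * (1 / (d : ℝ) ^ 3) := by ring
            _ ≤ ρ * (1 / (2 * ((d : ℝ) - 1) ^ 2) - 1 / (2 * (d : ℝ) ^ 2)) := this
            _ = _ := by ring
        push_cast
        rw [e1]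
        have e5 : (d : ℝ) + 1 - 1 = d := by ring
        rw [e5]
        linarith) D1 hmn
  refine le_trans ?_ h1
  push_cast
  have hD1p : (0 : ℝ) < D1 := by linarith
  have hD1m : (0 : ℝ) < (D1 : ℝ) - 1 := by linarith
  have e5 : (r : ℝ) + 1 - 1 = r := by ring
  rw [e5]
  have h2 : 0 ≤ ρ / (2 * ((D1 : ℝ) - 1) ^ 2) := by positivity
  have h3 : (1 - 6 / ρ) / (2 * ρ) ≤ 1 / ((r : ℝ) + 1) - ρ / (2 * (r : ℝ) ^ 2) := by
    have h4 : 1 / (ρ + 1) ≤ 1 / ((r : ℝ) + 1) := by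
      apply one_div_le_one_div_of_le (by linarith); linarith
    have h5 : ρ / (2 * (r : ℝ) ^ 2) ≤ ρ / (2 * (ρ - 1) ^ 2) := by
      apply div_le_div_of_nonneg_left hρ0.le
      · have : 0 < ρ - 1 := by linarith
        positivity
      · have : 0 ≤ ρ - 1 := by linarith
        nlinarith
    have h6 : (1 - 6 / ρ) / (2 * ρ) ≤ 1 / (ρ + 1) - ρ / (2 * (ρ - 1) ^ 2) := by
      have hρ1 : 0 < ρ - 1 := by linarith
      rw [div_sub_div _ _ (by positivity) (by positivity)]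
      have e6 : (1 - 6 / ρ) / (2 * ρ) = (ρ - 6) / (2 * ρ ^ 2) := by field_simp
      rw [e6, div_le_div_iff₀ (by positivity) (by positivity)]
      have h7 : 0 ≤ ρ - 4 := by linarith
      obtain ⟨y, hy⟩ : ∃ y, y = ρ - 4 := ⟨_, rfl⟩
      have hρy : ρ = y + 4 := by linarith
      rw [hρy]
      have hy0 : 0 ≤ y := by linarith
      nlinarith [pow_nonneg hy0 2, pow_nonneg hy0 3, pow_nonneg hy0 4]
    linarith
  linarith

/-- the error sum, for large `ρ` -/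
theorem sum_err_le' (D0 D1 : ℕ) (ρ : ℝ) (hD0 : (D0 : ℝ) ≤ ρ) (hρ : 4 ≤ ρ) :
    ∑ D ∈ (Ico D0 D1).filter (fun D : ℕ => ρ < D), 1 / (D : ℝ) ^ 3 ≤ 2 / ρ ^ 2 := by
  have hρ0 : 0 < ρ := by linarith
  rw [filter_Ico D0 D1 ρ hρ0.le]
  have hmax : max D0 (⌊ρ⌋₊ + 1) = ⌊ρ⌋₊ + 1 := by
    apply max_eq_right
    have : D0 ≤ ⌊ρ⌋₊ := Nat.le_floor hD0
    omega
  rw [hmax]
  obtain ⟨r, hr⟩ : ∃ r : ℕ, r = ⌊ρ⌋₊ := ⟨_, rfl⟩
  rw [← hr]
  have hr1 : (r : ℝ) ≤ ρ := by rw [hr]; exact Nat.floor_le hρ0.le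
  have hr2 : ρ < (r : ℝ) + 1 := by rw [hr]; exact Nat.lt_floor_add_one ρ
  have hr3 : (3 : ℝ) < r := by linarith
  rcases le_or_gt (r + 1) D1 with hmn | hmn
  · have h1 := tele_le (fun D : ℕ => 1 / (D : ℝ) ^ 3)
      (fun D : ℕ => 1 / (2 * ((D : ℝ) - 1) ^ 2)) (r + 1) (by
        intro d hd
        have hd' : ((r : ℝ) + 1) ≤ d := by exact_mod_cast hd
        have hdp : (0 : ℝ) < d := by linarith
        have hd1 : (0 : ℝ) < (d : ℝ) - 1 := by linarith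
        push_cast
        have e5 : (d : ℝ) + 1 - 1 = d := by ring
        rw [e5]
        rw [div_sub_div _ _ (by positivity) (by positivity), div_le_div_iff₀ (by positivity)
              (by positivity)]
        have h5 : 0 < (d : ℝ) ^ 2 := by positivity
        nlinarith [mul_pos h5 h5, mul_pos h5 hdp, mul_pos h5 hd1, mul_pos (mul_pos h5 hdp) hd1]) D1 hmn
    refine h1.trans ?_
    push_cast
    have hD1' : ((r : ℝ) + 1) ≤ D1 := by exact_mod_cast hmn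
    have h2 : 0 ≤ 1 / (2 * ((D1 : ℝ) - 1) ^ 2) := by
      have : 0 < (D1 : ℝ) - 1 := by linarith
      positivity
    have e5 : (r : ℝ) + 1 - 1 = r := by ring
    rw [e5]
    have h3 : 1 / (2 * (r : ℝ) ^ 2) ≤ 2 / ρ ^ 2 := by
      rw [div_le_div_iff₀ (by positivity) (by positivity)]
      nlinarith
    linarith
  · rw [Finset.Ico_eq_empty (by omega), Finset.sum_empty]
    positivity

/-- the admissible values of the greatest common divisor of the slopes -/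
def Gs (X α β : ℕ) : Finset ℕ := (Icc 1 X).filter (fun G => G * α ≤ X ∧ G * β ≤ X)

/-- the weight of a triple -/
noncomputable def PT (X D0 D1 α β γ : ℕ) : ℝ :=
  ∑ D ∈ Ico D0 D1, 1 / (D : ℝ) ^ 3 *
    ∑ G ∈ Gs X α β, 1 / (((G * α : ℕ) : ℝ) ^ 2 * ((G * β : ℕ) : ℝ) ^ 2) * (NS G D α β γ).card

theorem PT_swap (X D0 D1 α β γ : ℕ) : PT X D0 D1 α β γ =
    ∑ G ∈ Gs X α β, 1 / (((G * α : ℕ) : ℝ) ^ 2 * ((G * β : ℕ) : ℝ) ^ 2) *
      ∑ D ∈ Ico D0 D1, 1 / (D : ℝ) ^ 3 * (NS G D α β γ).card := by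
  unfold PT
  simp only [Finset.mul_sum]
  rw [Finset.sum_comm]
  apply Finset.sum_congr rfl; intro G _
  apply Finset.sum_congr rfl; intro D _
  ring

theorem rho_lt_iff {G D α β γ : ℕ} (hG : 1 ≤ G) (hα : 1 ≤ α) (hβ : 1 ≤ β) :
    (γ : ℝ) / (G * α * β) < D ↔ γ < G * α * β * D := by
  have h1 : (0 : ℝ) < (G : ℝ) * α * β := by
    have : (0 : ℝ) < G := by exact_mod_cast hG
    have : (0 : ℝ) < α := by exact_mod_cast hα
    have : (0 : ℝ) < β := by exact_mod_cast hβ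
    positivity
  rw [div_lt_iff₀ h1]
  constructor
  · intro h
    have h2 : (γ : ℝ) < ((G * α * β * D : ℕ) : ℝ) := by push_cast; linarith
    exact_mod_cast h2
  · intro h
    have h2 : (γ : ℝ) < ((G * α * β * D : ℕ) : ℝ) := by exact_mod_cast h
    push_cast at h2; linarith

/-- the sum over `D`, upper bound -/
theorem sumD_le {X D0 D1 G α β γ : ℕ} (hadm : AdmT α β γ) (hG : 1 ≤ G) (hD0 : 2 ≤ D0) :
    ∑ D ∈ Ico D0 D1, 1 / (D : ℝ) ^ 3 * (NS G D α β γ).card ≤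
      n6 α β γ * ((G : ℝ) ^ 2 * α * β / (12 * γ)) * (1 + 2 / ((D0 : ℝ) - 1) + 24 / D0) := by
  obtain ⟨ρ, hρ⟩ : ∃ ρ : ℝ, ρ = (γ : ℝ) / (G * α * β) := ⟨_, rfl⟩
  have hG0 : (0 : ℝ) < G := by exact_mod_cast hG
  have hG1 : (1 : ℝ) ≤ G := by exact_mod_cast hG
  have hα0 : (0 : ℝ) < α := by exact_mod_cast hadm.1
  have hβ0 : (0 : ℝ) < β := by exact_mod_cast hadm.2.1
  have hγ0 : (0 : ℝ) < γ := by exact_mod_cast hadm.2.2.1
  have hρ0 : 0 < ρ := by rw [hρ]; positivity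
  have hD0' : (2 : ℝ) ≤ D0 := by exact_mod_cast hD0
  have hn : (0 : ℝ) ≤ n6 α β γ := Nat.cast_nonneg _
  -- the terms
  have h1 : ∑ D ∈ Ico D0 D1, 1 / (D : ℝ) ^ 3 * ((NS G D α β γ).card : ℝ) ≤
      ∑ D ∈ (Ico D0 D1).filter (fun D : ℕ => ρ < D),
        (n6 α β γ * (G / 6) * (((D : ℝ) - ρ) / (D : ℝ) ^ 3) + n6 α β γ * (1 / (D : ℝ) ^ 3)) := by
    rw [Finset.sum_filter]
    apply Finset.sum_le_sum
    intro D hD
    have hD2 : 2 ≤ D := hD0.trans (mem_Ico.1 hD).1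
    have hDp : (0 : ℝ) < D := by exact_mod_cast (by omega : 0 < D)
    split_ifs with hlt
    · have h2 : γ < G * α * β * D := (rho_lt_iff hG hadm.1 hadm.2.1).1 (by rw [← hρ]; exact hlt)
      have h3 := NS_le hadm hG h2
      calc 1 / (D : ℝ) ^ 3 * ((NS G D α β γ).card : ℝ)
          ≤ 1 / (D : ℝ) ^ 3 * (n6 α β γ * ((G * D - γ / (α * β)) / 6 + 1)) :=
            mul_le_mul_of_nonneg_left h3 (by positivity)
        _ = _ := by
            rw [hρ]; field_simp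
    · have h2 : G * α * β * D ≤ γ := by
        by_contra hcon
        push Not at hcon
        exact hlt (by rw [hρ]; exact (rho_lt_iff hG hadm.1 hadm.2.1).2 hcon)
      rw [NS_empty hadm hG h2, Nat.cast_zero, mul_zero]
  refine h1.trans ?_
  rw [Finset.sum_add_distrib, ← Finset.mul_sum, ← Finset.mul_sum]
  have h2 := sum_main_le D0 D1 ρ hD0 hρ0
  have h3 := sum_err_le D0 D1 ρ hD0 hρ0
  have h4 : n6 α β γ * (G / 6) * ∑ D ∈ (Ico D0 D1).filter (fun D : ℕ => ρ < D),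
      (((D : ℝ) - ρ) / (D : ℝ) ^ 3) ≤ n6 α β γ * (G / 6) * ((1 + 2 / ((D0 : ℝ) - 1)) / (2 * ρ)) :=
    mul_le_mul_of_nonneg_left h2 (by positivity)
  have h5 : n6 α β γ * ∑ D ∈ (Ico D0 D1).filter (fun D : ℕ => ρ < D), (1 / (D : ℝ) ^ 3) ≤
      n6 α β γ * ((4 / (D0 : ℝ)) / (2 * ρ)) := mul_le_mul_of_nonneg_left h3 hn
  have hD01 : (0 : ℝ) < (D0 : ℝ) - 1 := by linarith
  have hD0p : (0 : ℝ) < (D0 : ℝ) := by linarith
  have h6 : (4 / (D0 : ℝ)) / (2 * ρ) ≤ G / 6 * ((24 / D0) / (2 * ρ)) := by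
    have e : G / 6 * ((24 / D0) / (2 * ρ)) = G * ((4 / (D0 : ℝ)) / (2 * ρ)) := by
      field_simp; norm_num
    rw [e]
    exact le_mul_of_one_le_left (by positivity) hG1
  have h7 := mul_le_mul_of_nonneg_left h6 hn
  have e : n6 α β γ * ((G : ℝ) ^ 2 * α * β / (12 * γ)) * (1 + 2 / ((D0 : ℝ) - 1) + 24 / D0) =
      n6 α β γ * (G / 6) * ((1 + 2 / ((D0 : ℝ) - 1)) / (2 * ρ)) +
      n6 α β γ * (G / 6 * ((24 / D0) / (2 * ρ))) := by
    rw [hρ]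
    field_simp
    ring
  rw [e]
  linarith

/-- the weight of a triple, upper bound -/
theorem PT_le {X D0 D1 α β γ : ℕ} (hadm : AdmT α β γ) (hD0 : 2 ≤ D0) :
    PT X D0 D1 α β γ ≤ n6 α β γ * (1 / (12 * (α * β * γ))) * (1 + 2 / ((D0 : ℝ) - 1) + 24 / D0) *
      (Real.pi ^ 2 / 6) := by
  rw [PT_swap]
  have hα0 : (0 : ℝ) < α := by exact_mod_cast hadm.1
  have hβ0 : (0 : ℝ) < β := by exact_mod_cast hadm.2.1
  have hγ0 : (0 : ℝ) < γ := by exact_mod_cast hadm.2.2.1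
  have hD0' : (2 : ℝ) ≤ D0 := by exact_mod_cast hD0
  have hD01 : (0 : ℝ) < (D0 : ℝ) - 1 := by linarith
  obtain ⟨E, hE⟩ : ∃ E : ℝ, E = 1 + 2 / ((D0 : ℝ) - 1) + 24 / D0 := ⟨_, rfl⟩
  have hE0 : 0 ≤ E := by rw [hE]; positivity
  rw [← hE]
  have h1 : ∑ G ∈ Gs X α β, 1 / (((G * α : ℕ) : ℝ) ^ 2 * ((G * β : ℕ) : ℝ) ^ 2) *
      ∑ D ∈ Ico D0 D1, 1 / (D : ℝ) ^ 3 * ((NS G D α β γ).card : ℝ) ≤
      ∑ G ∈ Gs X α β, n6 α β γ * (1 / (12 * (α * β * γ))) * E * (1 / (G : ℝ) ^ 2) := by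
    apply Finset.sum_le_sum
    intro G hG
    have hG1 : 1 ≤ G := (mem_Icc.1 (mem_filter.1 hG).1).1
    have hG0 : (0 : ℝ) < G := by exact_mod_cast hG1
    have h2 := sumD_le (X := X) (D1 := D1) hadm hG1 hD0
    rw [← hE] at h2
    calc _ ≤ 1 / (((G * α : ℕ) : ℝ) ^ 2 * ((G * β : ℕ) : ℝ) ^ 2) *
          (n6 α β γ * ((G : ℝ) ^ 2 * α * β / (12 * γ)) * E) :=
          mul_le_mul_of_nonneg_left h2 (by positivity)
      _ = _ := by push_cast; field_simp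
  refine h1.trans ?_
  rw [← Finset.mul_sum]
  apply mul_le_mul_of_nonneg_left _ (by positivity)
  have h3 : Summable (fun n : ℕ => 1 / (n : ℝ) ^ 2) := hasSum_zeta_two.summable
  calc ∑ G ∈ Gs X α β, 1 / (G : ℝ) ^ 2 ≤ ∑' n : ℕ, 1 / (n : ℝ) ^ 2 :=
        h3.sum_le_tsum _ (fun n _ => by positivity)
    _ = Real.pi ^ 2 / 6 := hasSum_zeta_two.tsum_eq

end Pool.Agent.K7.H63.TQ
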