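import Mathlib
import Pool.Agent.K7.H63.TQ.Samp
import Pool.Agent.K7.H63.TQ.Sums2

/-! From pairs of forms to triples. -/

set_option autoImplicit false

namespace Pool.Agent.K7.H63.TQ

open Finset

/-- the forms `a n + b` with `a ≤ X`, `b < a D`, `b` prime to `6 a` -/
def VN (X D : ℕ) : Finset (ℕ × ℕ) :=
  (Icc 1 X ×ˢ range (X * D)).filter (fun f => f.2 < f.1 * D ∧ Nat.Coprime f.2 6 ∧ Nat.Coprime f.2 f.1)

/-- the weight of a form -/
noncomputable def wt (f : ℕ × ℕ) : ℝ := 1 / (f.1 : ℝ) ^ 2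

/-- the pairs of forms with positive determinant -/
def QD (X D : ℕ) : Finset ((ℕ × ℕ) × (ℕ × ℕ)) :=
  (VN X D ×ˢ VN X D).filter (fun x => x.2.1 * x.1.2 < x.1.1 * x.2.2)

/-- the triple of a pair of forms -/
def tau (x : (ℕ × ℕ) × (ℕ × ℕ)) : ℕ × ℕ × ℕ :=
  (x.1.1 / Nat.gcd x.1.1 x.2.1, x.2.1 / Nat.gcd x.1.1 x.2.1,
    (x.1.1 * x.2.2 - x.2.1 * x.1.2) / Nat.gcd x.1.1 x.2.1)

/-- the weight of a triple at one `D` -/
noncomputable def PD (X D α β γ : ℕ) : ℝ :=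
  ∑ G ∈ Gs X α β, 1 / (((G * α : ℕ) : ℝ) ^ 2 * ((G * β : ℕ) : ℝ) ^ 2) * (NS G D α β γ).card

theorem PT_eq (X D0 D1 α β γ : ℕ) : PT X D0 D1 α β γ = ∑ D ∈ Ico D0 D1, 1 / (D : ℝ) ^ 3 * PD X D α β γ :=
  rfl

theorem mem_VN {X D : ℕ} {f : ℕ × ℕ} : f ∈ VN X D ↔ (1 ≤ f.1 ∧ f.1 ≤ X) ∧ f.2 < f.1 * D ∧
    Nat.Coprime f.2 6 ∧ Nat.Coprime f.2 f.1 := by
  unfold VN
  rw [mem_filter, mem_product, mem_Icc, mem_range]
  constructor
  · rintro ⟨⟨h1, -⟩, h2⟩; exact ⟨h1, h2⟩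
  · rintro ⟨h1, h2⟩
    refine ⟨⟨h1, ?_⟩, h2⟩
    exact h2.1.trans_le (Nat.mul_le_mul_right _ h1.2)

/-- the decomposition of a pair with positive determinant -/
theorem decomp {X D : ℕ} {x : (ℕ × ℕ) × (ℕ × ℕ)} (hx : x ∈ QD X D) :
    ∃ G α β γ : ℕ, 1 ≤ G ∧ x.1.1 = G * α ∧ x.2.1 = G * β ∧ α * x.2.2 = β * x.1.2 + γ ∧
      AdmT α β γ ∧ tau x = (α, β, γ) ∧ Nat.gcd x.1.1 x.2.1 = G ∧ γ ≤ X * X * D ∧ α ≤ X ∧ β ≤ X := by
  obtain ⟨⟨a, b⟩, a', b'⟩ := x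
  obtain ⟨h1, h2⟩ := mem_filter.1 hx
  obtain ⟨h3, h4⟩ := mem_product.1 h1
  obtain ⟨⟨ha1, haX⟩, hb, hb6, hba⟩ := mem_VN.1 h3
  obtain ⟨⟨ha1', haX'⟩, hb', hb6', hba'⟩ := mem_VN.1 h4
  simp only at h2 ha1 haX hb hb6 hba ha1' haX' hb' hb6' hba' ⊢
  obtain ⟨G, hG⟩ : ∃ G, G = Nat.gcd a a' := ⟨_, rfl⟩
  have hG0 : 0 < G := by rw [hG]; exact Nat.gcd_pos_of_pos_left _ (by omega)
  obtain ⟨α, hα⟩ : G ∣ a := by rw [hG]; exact Nat.gcd_dvd_left _ _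
  obtain ⟨β, hβ⟩ : G ∣ a' := by rw [hG]; exact Nat.gcd_dvd_right _ _
  subst hα
  subst hβ
  have hαβ : Nat.Coprime α β := by
    have h5 : Nat.gcd (G * α) (G * β) = G * Nat.gcd α β := Nat.gcd_mul_left _ _ _
    rw [← hG] at h5
    have h6 : G * 1 = G * Nat.gcd α β := by rw [mul_one]; exact h5
    exact (Nat.eq_of_mul_eq_mul_left hG0 h6).symm
  have hα1 : 1 ≤ α := by
    rcases Nat.eq_zero_or_pos α with h | h
    · rw [h, mul_zero] at ha1; omega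
    · exact h
  have hβ1 : 1 ≤ β := by
    rcases Nat.eq_zero_or_pos β with h | h
    · rw [h, mul_zero] at ha1'; omega
    · exact h
  have h5 : β * b < α * b' := by
    have h6 : G * (β * b) < G * (α * b') := by
      have e1 : G * (β * b) = G * β * b := by ring
      have e2 : G * (α * b') = G * α * b' := by ring
      rw [e1, e2]; exact h2
    exact Nat.lt_of_mul_lt_mul_left h6
  obtain ⟨γ, hγ⟩ : ∃ γ, γ = α * b' - β * b := ⟨_, rfl⟩
  have hγ1 : 1 ≤ γ := by omega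
  have hsol : α * b' = β * b + γ := by omega
  have hcop1 : Nat.Coprime b α := Nat.Coprime.coprime_dvd_right (dvd_mul_left _ _) hba
  have hcop2 : Nat.Coprime b' β := Nat.Coprime.coprime_dvd_right (dvd_mul_left _ _) hba'
  have hαγ : Nat.Coprime α γ := by
    have h6 : Nat.Coprime α (β * b) := Nat.Coprime.mul_right hαβ hcop1.symm
    rw [Nat.Coprime, ← Nat.dvd_one]
    have h7 : Nat.gcd α γ ∣ β * b := by
      have h8 : Nat.gcd α γ ∣ β * b + γ := by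
        rw [← hsol]; exact (Nat.gcd_dvd_left _ _).mul_right _
      exact (Nat.dvd_add_left (Nat.gcd_dvd_right _ _)).1 h8
    have h8 := Nat.dvd_gcd (Nat.gcd_dvd_left α γ) h7
    rwa [h6] at h8
  have hβγ : Nat.Coprime β γ := by
    have h6 : Nat.Coprime β (α * b') := Nat.Coprime.mul_right hαβ.symm hcop2.symm
    rw [Nat.Coprime, ← Nat.dvd_one]
    have h7 : Nat.gcd β γ ∣ α * b' := by
      rw [hsol]
      exact dvd_add ((Nat.gcd_dvd_left _ _).mul_right _) (Nat.gcd_dvd_right _ _)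
    have h8 := Nat.dvd_gcd (Nat.gcd_dvd_left β γ) h7
    rwa [h6] at h8
  have hodd : ¬ (Odd α ∧ Odd β ∧ Odd γ) := by
    rintro ⟨o1, o2, o3⟩
    have ob : Odd b := by
      rw [← Nat.not_even_iff_odd, even_iff_two_dvd]
      intro h6
      exact Nat.not_coprime_of_dvd_of_dvd (by norm_num) h6 (by norm_num) hb6
    have ob' : Odd b' := by
      rw [← Nat.not_even_iff_odd, even_iff_two_dvd]
      intro h6
      exact Nat.not_coprime_of_dvd_of_dvd (by norm_num) h6 (by norm_num) hb6'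
    have h6 : Odd (α * b') := o1.mul ob'
    rw [hsol] at h6
    have h7 : Even (β * b + γ) := (o2.mul ob).add_odd o3
    exact (Nat.not_even_iff_odd.2 h6) h7
  have hαX : α ≤ X := (Nat.le_mul_of_pos_left _ hG0).trans haX
  have hβX : β ≤ X := (Nat.le_mul_of_pos_left _ hG0).trans haX'
  refine ⟨G, α, β, γ, hG0, rfl, rfl, hsol, ⟨hα1, hβ1, hγ1, hαβ, hαγ, hβγ, hodd⟩, ?_, hG.symm, ?_,
    hαX, hβX⟩
  · unfold tau
    simp only
    rw [← hG, Nat.mul_div_cancel_left _ hG0, Nat.mul_div_cancel_left _ hG0]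
    have e1 : G * α * b' - G * β * b = G * γ := by
      rw [hγ, Nat.mul_sub]; congr 1 <;> ring
    rw [e1, Nat.mul_div_cancel_left _ hG0]
  · calc γ ≤ α * b' := by omega
      _ ≤ X * (X * D) := Nat.mul_le_mul hαX (hb'.le.trans (Nat.mul_le_mul_right _ haX'))
      _ = X * X * D := by ring

/-- the fiber of a triple -/
theorem fiber {X D α β γ : ℕ} (hadm : AdmT α β γ) :
    ∑ x ∈ (QD X D).filter (fun x => tau x = (α, β, γ)), wt x.1 * wt x.2 = PD X D α β γ := by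
  obtain ⟨hα, hβ, hγ, hαβ, hαγ, hβγ, hodd⟩ := hadm
  unfold PD
  have h1 : ∀ G ∈ Gs X α β, 1 / (((G * α : ℕ) : ℝ) ^ 2 * ((G * β : ℕ) : ℝ) ^ 2) *
      ((NS G D α β γ).card : ℝ) =
      ∑ _y ∈ NS G D α β γ, 1 / (((G * α : ℕ) : ℝ) ^ 2 * ((G * β : ℕ) : ℝ) ^ 2) := by
    intro G _
    rw [Finset.sum_const, nsmul_eq_mul, mul_comm]
  rw [Finset.sum_congr rfl h1, Finset.sum_sigma']
  refine Finset.sum_nbij' (fun x => ⟨Nat.gcd x.1.1 x.2.1, (x.1.2, x.2.2)⟩)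
    (fun z => ((z.1 * α, z.2.1), (z.1 * β, z.2.2))) ?_ ?_ ?_ ?_ ?_
  · intro x hx
    obtain ⟨hx1, hx2⟩ := mem_filter.1 hx
    obtain ⟨G, α', β', γ', hG, e1, e2, e3, -, e4, e5, -, -, -⟩ := decomp hx1
    rw [e4] at hx2
    simp only [Prod.mk.injEq] at hx2
    obtain ⟨rfl, rfl, rfl⟩ := hx2
    obtain ⟨h2, h3⟩ := mem_filter.1 hx1
    obtain ⟨h4, h5⟩ := mem_product.1 h2
    obtain ⟨⟨ha1, haX⟩, hb, hb6, hba⟩ := mem_VN.1 h4
    obtain ⟨⟨ha1', haX'⟩, hb', hb6', hba'⟩ := mem_VN.1 h5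
    rw [e1] at haX hb hba
    rw [e2] at haX' hb' hba'
    rw [mem_sigma]
    simp only [e5]
    refine ⟨mem_filter.2 ⟨mem_Icc.2 ⟨hG, ?_⟩, haX, haX'⟩, ?_⟩
    · exact (Nat.le_mul_of_pos_right _ (by omega)).trans haX
    · exact mem_filter.2 ⟨mem_product.2 ⟨mem_range.2 hb, mem_range.2 hb'⟩, e3, hb6, hb6', hba, hba'⟩
  · rintro ⟨G, b, b'⟩ hz
    rw [mem_sigma] at hz
    obtain ⟨hz1, hz2⟩ := hz
    simp only at hz1 hz2 ⊢
    obtain ⟨h2, h3, h4⟩ := mem_filter.1 hz1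
    obtain ⟨hG1, hGX⟩ := mem_Icc.1 h2
    obtain ⟨h5, h6, h7, h8, h9, h10⟩ := mem_filter.1 hz2
    obtain ⟨h11, h12⟩ := mem_product.1 h5
    rw [mem_range] at h11 h12
    simp only at h6 h7 h8 h9 h10 h11 h12
    have e1 : G * α * b' = G * β * b + G * γ := by
      have : G * (α * b') = G * (β * b + γ) := by rw [h6]
      calc G * α * b' = G * (α * b') := by ring
        _ = G * (β * b + γ) := this
        _ = _ := by ring
    have hGγ : 0 < G * γ := Nat.mul_pos hG1 hγ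
    refine mem_filter.2 ⟨mem_filter.2 ⟨mem_product.2 ⟨mem_VN.2 ⟨⟨?_, h3⟩, h11, h7, h9⟩,
      mem_VN.2 ⟨⟨?_, h4⟩, h12, h8, h10⟩⟩, ?_⟩, ?_⟩
    · exact Nat.mul_pos hG1 hα
    · exact Nat.mul_pos hG1 hβ
    · show G * β * b < G * α * b'
      omega
    · unfold tau
      simp only
      have hg : Nat.gcd (G * α) (G * β) = G := by
        rw [Nat.gcd_mul_left, hαβ, mul_one]
      rw [hg, Nat.mul_div_cancel_left _ hG1, Nat.mul_div_cancel_left _ hG1]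
      have e2 : G * α * b' - G * β * b = G * γ := by omega
      rw [e2, Nat.mul_div_cancel_left _ hG1]
  · intro x hx
    obtain ⟨hx1, hx2⟩ := mem_filter.1 hx
    obtain ⟨G, α', β', γ', hG, e1, e2, e3, -, e4, e5, -, -, -⟩ := decomp hx1
    rw [e4] at hx2
    simp only [Prod.mk.injEq] at hx2
    obtain ⟨rfl, rfl, rfl⟩ := hx2
    simp only [e5]
    rw [← e1, ← e2]
  · rintro ⟨G, b, b'⟩ hz
    simp only
    have hg : Nat.gcd (G * α) (G * β) = G := by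
      rw [Nat.gcd_mul_left, hαβ, mul_one]
    rw [hg]
  · intro x hx
    obtain ⟨hx1, hx2⟩ := mem_filter.1 hx
    obtain ⟨G, α', β', γ', hG, e1, e2, e3, -, e4, e5, -, -, -⟩ := decomp hx1
    rw [e4] at hx2
    simp only [Prod.mk.injEq] at hx2
    obtain ⟨rfl, rfl, rfl⟩ := hx2
    simp only [e5, wt]
    rw [e1, e2, one_div_mul_one_div]

end Pool.Agent.K7.H63.TQ
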