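import Mathlib
import Pool.Agent.K7.H63.TQ.Sums2

/-! The weight of a triple: lower bound. -/

set_option autoImplicit false

namespace Pool.Agent.K7.H63.TQ

open Finset

/-- the rational density factor -/
def lamQ (G : ℕ) : ℚ := 1 - ∑ p ∈ big G, 2 / (p : ℚ)

theorem lam_eq (G : ℕ) : lam G = ((lamQ G : ℚ) : ℝ) := by
  unfold lam lamQ
  push_cast
  rfl

theorem lamQ_nonneg : ∀ G ∈ Icc 1 30, 0 ≤ lamQ G := by decide +kernel

theorem big_card : ∀ G ∈ Icc 1 30, (big G).card ≤ 1 := by decide +kernel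

theorem lamQ_sum : (1575 : ℚ) / 1000 ≤ ∑ G ∈ Icc 1 30, lamQ G / (G : ℚ) ^ 2 := by decide +kernel

theorem lam_sum : (1575 : ℝ) / 1000 ≤ ∑ G ∈ Icc 1 30, lam G / (G : ℝ) ^ 2 := by
  have h : (((1575 : ℚ) / 1000 : ℚ) : ℝ) ≤ ((∑ G ∈ Icc 1 30, lamQ G / (G : ℚ) ^ 2 : ℚ) : ℝ) := by
    exact_mod_cast lamQ_sum
  push_cast at h
  refine h.trans (le_of_eq ?_)
  apply Finset.sum_congr rfl
  intro G _
  rw [lam_eq]

theorem lam_le_one (G : ℕ) : lam G ≤ 1 := by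
  unfold lam
  have : 0 ≤ ∑ p ∈ big G, 2 / (p : ℝ) := Finset.sum_nonneg fun p _ => by positivity
  linarith

/-- the sum over `D`, lower bound -/
theorem le_sumD {D0 D1 G α β γ : ℕ} (R K : ℝ) (hadm : AdmT α β γ) (hG : G ∈ Icc 1 30) (hR : 4 ≤ R)
    (hK : 2 ≤ K) (hRρ : R ≤ (γ : ℝ) / (30 * α * β)) (hD0 : (D0 : ℝ) ≤ (γ : ℝ) / (30 * α * β))
    (hD0' : 1 ≤ D0) (hD1 : K * ((γ : ℝ) / (α * β)) ≤ D1) :
    n6 α β γ * ((G : ℝ) ^ 2 * α * β / (12 * γ)) * (lam G - (78 / R + 2 / K)) ≤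
      ∑ D ∈ Ico D0 D1, 1 / (D : ℝ) ^ 3 * ((NS G D α β γ).card : ℝ) := by
  obtain ⟨ρ, hρ⟩ : ∃ ρ : ℝ, ρ = (γ : ℝ) / (G * α * β) := ⟨_, rfl⟩
  have hG1 : 1 ≤ G := (mem_Icc.1 hG).1
  have hG30 : G ≤ 30 := (mem_Icc.1 hG).2
  have hG0 : (0 : ℝ) < G := by exact_mod_cast hG1
  have hG1' : (1 : ℝ) ≤ G := by exact_mod_cast hG1
  have hG30' : (G : ℝ) ≤ 30 := by exact_mod_cast hG30
  have hα0 : (0 : ℝ) < α := by exact_mod_cast hadm.1
  have hβ0 : (0 : ℝ) < β := by exact_mod_cast hadm.2.1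
  have hγ0 : (0 : ℝ) < γ := by exact_mod_cast hadm.2.2.1
  have hρ0 : 0 < ρ := by rw [hρ]; positivity
  have hR0 : 0 < R := by linarith
  have hK0 : 0 < K := by linarith
  have hn : (0 : ℝ) ≤ n6 α β γ := Nat.cast_nonneg _
  have hlam0 : 0 ≤ lam G := by
    rw [lam_eq]; exact_mod_cast lamQ_nonneg G hG
  have hlam1 := lam_le_one G
  have hρ30 : (γ : ℝ) / (30 * α * β) ≤ ρ := by
    rw [hρ]
    apply div_le_div_of_nonneg_left hγ0.le (by positivity)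
    have := mul_le_mul_of_nonneg_right hG30' (by positivity : (0 : ℝ) ≤ α * β)
    linarith
  have hρ1 : ρ ≤ (γ : ℝ) / (α * β) := by
    rw [hρ]
    apply div_le_div_of_nonneg_left hγ0.le (by positivity)
    have := mul_le_mul_of_nonneg_right hG1' (by positivity : (0 : ℝ) ≤ α * β)
    linarith
  have hRρ' : R ≤ ρ := hRρ.trans hρ30
  have hD0ρ : (D0 : ℝ) ≤ ρ := hD0.trans hρ30
  have hKρ : K * ρ ≤ D1 := (mul_le_mul_of_nonneg_left hρ1 hK0.le).trans hD1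
  have h2ρ : 2 * ρ ≤ D1 := (mul_le_mul_of_nonneg_right hK hρ0.le).trans hKρ
  have hD1p : (0 : ℝ) < D1 := by linarith
  have hbig : ((big G).card : ℝ) ≤ 1 := by exact_mod_cast big_card G hG
  -- the terms
  have h1 : ∑ D ∈ (Ico D0 D1).filter (fun D : ℕ => ρ < D),
        (n6 α β γ * (lam G * (G / 6)) * (((D : ℝ) - ρ) / (D : ℝ) ^ 3) -
          n6 α β γ * 3 * (1 / (D : ℝ) ^ 3)) ≤
      ∑ D ∈ Ico D0 D1, 1 / (D : ℝ) ^ 3 * ((NS G D α β γ).card : ℝ) := by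
    rw [Finset.sum_filter]
    apply Finset.sum_le_sum
    intro D hD
    have hDp : (0 : ℝ) < D := by exact_mod_cast (by have := (mem_Ico.1 hD).1; omega : 0 < D)
    split_ifs with hlt
    · have h3 := le_NS (D := D) hadm hG1 hlam0
      have h4 : n6 α β γ * (lam G * ((G * D - γ / (α * β)) / 6) - 3) ≤
          n6 α β γ * (lam G * ((G * D - γ / (α * β)) / 6) - (1 + 2 * (big G).card)) := by
        apply mul_le_mul_of_nonneg_left _ hn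
        linarith
      calc _ = 1 / (D : ℝ) ^ 3 * (n6 α β γ * (lam G * ((G * D - γ / (α * β)) / 6) - 3)) := by
            rw [hρ]; field_simp
        _ ≤ 1 / (D : ℝ) ^ 3 * ((NS G D α β γ).card : ℝ) :=
            mul_le_mul_of_nonneg_left (h4.trans h3) (by positivity)
    · positivity
  refine le_trans ?_ h1
  rw [Finset.sum_sub_distrib, ← Finset.mul_sum, ← Finset.mul_sum]
  have h2 := le_sum_main D0 D1 ρ hD0ρ (hR.trans hRρ') h2ρ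
  have h3 := sum_err_le' D0 D1 ρ hD0ρ (hR.trans hRρ')
  have h4 : n6 α β γ * (lam G * (G / 6)) * ((1 - 6 / ρ) / (2 * ρ) - 1 / D1) ≤
      n6 α β γ * (lam G * (G / 6)) * ∑ D ∈ (Ico D0 D1).filter (fun D : ℕ => ρ < D),
        (((D : ℝ) - ρ) / (D : ℝ) ^ 3) := mul_le_mul_of_nonneg_left h2 (by positivity)
  have h5 : n6 α β γ * 3 * ∑ D ∈ (Ico D0 D1).filter (fun D : ℕ => ρ < D), (1 / (D : ℝ) ^ 3) ≤
      n6 α β γ * 3 * (2 / ρ ^ 2) := mul_le_mul_of_nonneg_left h3 (by positivity)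
  have h6 : (1 - 6 / R - 2 / K) / (2 * ρ) ≤ (1 - 6 / ρ) / (2 * ρ) - 1 / D1 := by
    have a1 : 6 / ρ ≤ 6 / R := div_le_div_of_nonneg_left (by norm_num) hR0 hRρ'
    have a2 : 1 / (D1 : ℝ) ≤ (2 / K) / (2 * ρ) := by
      have e : (2 / K) / (2 * ρ) = 1 / (K * ρ) := by field_simp
      rw [e]
      exact one_div_le_one_div_of_le (by positivity) hKρ
    have a3 : (1 - 6 / R - 2 / K) / (2 * ρ) = (1 - 6 / R) / (2 * ρ) - (2 / K) / (2 * ρ) := by ring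
    have a4 : (1 - 6 / R) / (2 * ρ) ≤ (1 - 6 / ρ) / (2 * ρ) := by
      apply div_le_div_of_nonneg_right _ (by positivity)
      linarith
    linarith
  have h7 : 2 / ρ ^ 2 ≤ (4 / R) / (2 * ρ) := by
    have e : (4 / R) / (2 * ρ) = 2 / (R * ρ) := by field_simp; norm_num
    rw [e]
    apply div_le_div_of_nonneg_left (by norm_num) (by positivity)
    nlinarith
  have h8 : n6 α β γ * (lam G * (G / 6)) * ((1 - 6 / R - 2 / K) / (2 * ρ)) ≤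
      n6 α β γ * (lam G * (G / 6)) * ((1 - 6 / ρ) / (2 * ρ) - 1 / D1) :=
    mul_le_mul_of_nonneg_left h6 (by positivity)
  have h9 : n6 α β γ * 3 * (2 / ρ ^ 2) ≤ n6 α β γ * 3 * ((4 / R) / (2 * ρ)) :=
    mul_le_mul_of_nonneg_left h7 (by positivity)
  have h10 : n6 α β γ * 3 * ((4 / R) / (2 * ρ)) ≤ n6 α β γ * (G / 6) * (72 / R) / (2 * ρ) := by
    have e : n6 α β γ * (G / 6) * (72 / R) / (2 * ρ) = G * (n6 α β γ * 3 * ((4 / R) / (2 * ρ))) := by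
      field_simp; ring
    rw [e]
    exact le_mul_of_one_le_left (by positivity) hG1'
  have h11 : n6 α β γ * (G / 6) / (2 * ρ) * (lam G - (6 / R + 2 / K)) ≤
      n6 α β γ * (lam G * (G / 6)) * ((1 - 6 / R - 2 / K) / (2 * ρ)) := by
    have e : n6 α β γ * (lam G * (G / 6)) * ((1 - 6 / R - 2 / K) / (2 * ρ)) =
      n6 α β γ * (G / 6) / (2 * ρ) * (lam G * (1 - (6 / R + 2 / K))) := by ring
    rw [e]
    apply mul_le_mul_of_nonneg_left _ (by positivity)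
    have h12 : 0 ≤ 6 / R + 2 / K := by positivity
    nlinarith
  have e : n6 α β γ * ((G : ℝ) ^ 2 * α * β / (12 * γ)) * (lam G - (78 / R + 2 / K)) =
      n6 α β γ * (G / 6) / (2 * ρ) * (lam G - (6 / R + 2 / K)) -
      n6 α β γ * (G / 6) * (72 / R) / (2 * ρ) := by
    rw [hρ]
    field_simp
    ring
  rw [e]
  linarith

/-- the weight of a triple, lower bound -/
theorem le_PT {X D0 D1 α β γ : ℕ} (R K : ℝ) (hadm : AdmT α β γ) (hR : 4 ≤ R)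
    (hK : 2 ≤ K) (hRρ : R ≤ (γ : ℝ) / (30 * α * β)) (hD0 : (D0 : ℝ) ≤ (γ : ℝ) / (30 * α * β))
    (hD0' : 1 ≤ D0) (hD1 : K * ((γ : ℝ) / (α * β)) ≤ D1) (hαX : 30 * α ≤ X) (hβX : 30 * β ≤ X) :
    n6 α β γ * (1 / (12 * (α * β * γ))) * (1575 / 1000 - 2 * (78 / R + 2 / K)) ≤
      PT X D0 D1 α β γ := by
  rw [PT_swap]
  have hα0 : (0 : ℝ) < α := by exact_mod_cast hadm.1
  have hβ0 : (0 : ℝ) < β := by exact_mod_cast hadm.2.1
  have hγ0 : (0 : ℝ) < γ := by exact_mod_cast hadm.2.2.1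
  have hR0 : 0 < R := by linarith
  have hK0 : 0 < K := by linarith
  have hsub : Icc 1 30 ⊆ Gs X α β := by
    intro G hG
    obtain ⟨h1, h2⟩ := mem_Icc.1 hG
    have h3 : G * α ≤ X := (Nat.mul_le_mul_right _ h2).trans hαX
    have h4 : G * β ≤ X := (Nat.mul_le_mul_right _ h2).trans hβX
    refine mem_filter.2 ⟨mem_Icc.2 ⟨h1, ?_⟩, h3, h4⟩
    have := hadm.1
    exact (Nat.le_mul_of_pos_right _ (by omega)).trans h3
  have h1 : ∑ G ∈ Icc 1 30, n6 α β γ * (1 / (12 * (α * β * γ))) *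
      (lam G / (G : ℝ) ^ 2 - (78 / R + 2 / K) * (1 / (G : ℝ) ^ 2)) ≤
      ∑ G ∈ Icc 1 30, 1 / (((G * α : ℕ) : ℝ) ^ 2 * ((G * β : ℕ) : ℝ) ^ 2) *
      ∑ D ∈ Ico D0 D1, 1 / (D : ℝ) ^ 3 * ((NS G D α β γ).card : ℝ) := by
    apply Finset.sum_le_sum
    intro G hG
    have hG1 : 1 ≤ G := (mem_Icc.1 hG).1
    have hG0 : (0 : ℝ) < G := by exact_mod_cast hG1
    have h2 := le_sumD (D1 := D1) R K hadm hG hR hK hRρ hD0 hD0' hD1
    calc _ = 1 / (((G * α : ℕ) : ℝ) ^ 2 * ((G * β : ℕ) : ℝ) ^ 2) *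
          (n6 α β γ * ((G : ℝ) ^ 2 * α * β / (12 * γ)) * (lam G - (78 / R + 2 / K))) := by
          push_cast; field_simp
      _ ≤ _ := mul_le_mul_of_nonneg_left h2 (by positivity)
  have h2 : ∑ G ∈ Icc 1 30, 1 / (((G * α : ℕ) : ℝ) ^ 2 * ((G * β : ℕ) : ℝ) ^ 2) *
      ∑ D ∈ Ico D0 D1, 1 / (D : ℝ) ^ 3 * ((NS G D α β γ).card : ℝ) ≤
      ∑ G ∈ Gs X α β, 1 / (((G * α : ℕ) : ℝ) ^ 2 * ((G * β : ℕ) : ℝ) ^ 2) *
      ∑ D ∈ Ico D0 D1, 1 / (D : ℝ) ^ 3 * ((NS G D α β γ).card : ℝ) :=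
    Finset.sum_le_sum_of_subset_of_nonneg hsub (fun G _ _ => by positivity)
  refine le_trans ?_ (h1.trans h2)
  rw [← Finset.mul_sum, Finset.sum_sub_distrib, ← Finset.mul_sum]
  apply mul_le_mul_of_nonneg_left _ (by positivity)
  have h3 : Summable (fun n : ℕ => 1 / (n : ℝ) ^ 2) := hasSum_zeta_two.summable
  have h4 : ∑ G ∈ Icc (1 : ℕ) 30, 1 / (G : ℝ) ^ 2 ≤ 2 := by
    calc ∑ G ∈ Icc (1 : ℕ) 30, 1 / (G : ℝ) ^ 2 ≤ ∑' n : ℕ, 1 / (n : ℝ) ^ 2 :=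
          h3.sum_le_tsum _ (fun n _ => by positivity)
      _ = Real.pi ^ 2 / 6 := hasSum_zeta_two.tsum_eq
      _ ≤ 2 := by nlinarith [Real.pi_lt_d2, Real.pi_pos]
  have h5 : (78 / R + 2 / K) * ∑ G ∈ Icc (1 : ℕ) 30, 1 / (G : ℝ) ^ 2 ≤ (78 / R + 2 / K) * 2 :=
    mul_le_mul_of_nonneg_left h4 (by positivity)
  have h6 := lam_sum
  linarith

end Pool.Agent.K7.H63.TQ
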