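import Mathlib
import Pool.Agent.K7.H63.TQ.Push
import Pool.Agent.K7.H63.TQ.Sums3

/-! From pairs of forms to triples: the inequality at one `D`, and the sum over `D`. -/

set_option autoImplicit false

namespace Pool.Agent.K7.H63.TQ

open Finset

/-- a symmetric sum over all pairs -/
theorem sum_sym (X D : ℕ) (h : (ℕ × ℕ) × (ℕ × ℕ) → ℝ) (hs : ∀ f g, h (f, g) = h (g, f)) :
    ∑ x ∈ VN X D ×ˢ VN X D, h x = ∑ f ∈ VN X D, h (f, f) + 2 * ∑ x ∈ QD X D, h x := by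
  have h1 := Finset.sum_filter_add_sum_filter_not (VN X D ×ˢ VN X D)
    (fun x => x.2.1 * x.1.2 < x.1.1 * x.2.2) h
  have h2 := Finset.sum_filter_add_sum_filter_not
    ((VN X D ×ˢ VN X D).filter (fun x => ¬ x.2.1 * x.1.2 < x.1.1 * x.2.2))
    (fun x => x.1.1 * x.2.2 < x.2.1 * x.1.2) h
  have h3 : ∑ x ∈ ((VN X D ×ˢ VN X D).filter (fun x => ¬ x.2.1 * x.1.2 < x.1.1 * x.2.2)).filter
      (fun x => x.1.1 * x.2.2 < x.2.1 * x.1.2), h x = ∑ x ∈ QD X D, h x := by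
    refine Finset.sum_nbij' (fun x => (x.2, x.1)) (fun x => (x.2, x.1)) ?_ ?_ ?_ ?_ ?_
    · rintro ⟨f, g⟩ hx
      obtain ⟨h4, h5⟩ := mem_filter.1 hx
      obtain ⟨h6, h7⟩ := mem_filter.1 h4
      obtain ⟨h8, h9⟩ := mem_product.1 h6
      exact mem_filter.2 ⟨mem_product.2 ⟨h9, h8⟩, h5⟩
    · rintro ⟨f, g⟩ hx
      obtain ⟨h6, h7⟩ := mem_filter.1 hx
      obtain ⟨h8, h9⟩ := mem_product.1 h6
      simp only at h7
      exact mem_filter.2 ⟨mem_filter.2 ⟨mem_product.2 ⟨h9, h8⟩, not_lt.2 h7.le⟩, h7⟩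
    · intro x _; rfl
    · intro x _; rfl
    · rintro ⟨f, g⟩ _; exact hs f g
  have h4 : ∑ x ∈ ((VN X D ×ˢ VN X D).filter (fun x => ¬ x.2.1 * x.1.2 < x.1.1 * x.2.2)).filter
      (fun x => ¬ x.1.1 * x.2.2 < x.2.1 * x.1.2), h x = ∑ f ∈ VN X D, h (f, f) := by
    have key : ∀ x ∈ ((VN X D ×ˢ VN X D).filter (fun x => ¬ x.2.1 * x.1.2 < x.1.1 * x.2.2)).filter
      (fun x => ¬ x.1.1 * x.2.2 < x.2.1 * x.1.2), x.1 ∈ VN X D ∧ x.1 = x.2 := by
      rintro ⟨⟨a, b⟩, a', b'⟩ hx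
      obtain ⟨h4, h5⟩ := mem_filter.1 hx
      obtain ⟨h6, h7⟩ := mem_filter.1 h4
      obtain ⟨h8, h9⟩ := mem_product.1 h6
      refine ⟨h8, ?_⟩
      obtain ⟨⟨ha1, haX⟩, hb, hb6, hba⟩ := mem_VN.1 h8
      obtain ⟨⟨ha1', haX'⟩, hb', hb6', hba'⟩ := mem_VN.1 h9
      simp only at h5 h7 ha1 hba ha1' hba' ⊢
      have h10 : a * b' = a' * b := by omega
      have h11 : a ∣ a' := by
        have : a ∣ a' * b := by rw [← h10]; exact dvd_mul_right _ _
        exact (Nat.Coprime.dvd_mul_right hba.symm).1 this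
      have h12 : a' ∣ a := by
        have : a' ∣ a * b' := by rw [h10]; exact dvd_mul_right _ _
        exact (Nat.Coprime.dvd_mul_right hba'.symm).1 this
      have h13 := Nat.dvd_antisymm h11 h12
      subst h13
      have h14 := Nat.eq_of_mul_eq_mul_left (by omega : 0 < a) h10
      rw [h14]
    refine Finset.sum_nbij' (fun x => x.1) (fun f => (f, f)) ?_ ?_ ?_ ?_ ?_
    · intro x hx; exact (key x hx).1
    · intro f hf
      refine mem_filter.2 ⟨mem_filter.2 ⟨mem_product.2 ⟨hf, hf⟩, ?_⟩, ?_⟩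
      · exact lt_irrefl _
      · exact lt_irrefl _
    · rintro ⟨f, g⟩ hx
      have := (key _ hx).2
      simp only at this ⊢
      rw [this]
    · intro f _; rfl
    · rintro ⟨f, g⟩ hx
      have := (key _ hx).2
      simp only at this ⊢
      rw [this]
  have h5 : ∑ x ∈ (VN X D ×ˢ VN X D).filter (fun x => x.2.1 * x.1.2 < x.1.1 * x.2.2), h x =
    ∑ x ∈ QD X D, h x := rfl
  rw [← h1, ← h2, h3, h4, h5]
  ring

/-- the embedding of the forms -/
def io (f : ℕ × ℕ) : ℤ × ℤ := ((f.1 : ℤ), (f.2 : ℤ))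

theorem io_inj : Function.Injective io := by
  rintro ⟨a, b⟩ ⟨a', b'⟩ h
  simp only [io, Prod.mk.injEq, Nat.cast_inj] at h
  rw [h.1, h.2]

/-- any four of the forms have no fixed prime divisor -/
theorem adm_VN (X D : ℕ) (f : Fin 4 → ℤ × ℤ) (hf : ∀ i, f i ∈ (VN X D).image io) : Adm4 f := by
  intro p hp
  have hform : ∀ i, ∃ a b : ℕ, f i = ((a : ℤ), (b : ℤ)) ∧ 1 ≤ a ∧ Nat.Coprime b 6 ∧ Nat.Coprime b a := by
    intro i
    obtain ⟨g, hg, hgf⟩ := mem_image.1 (hf i)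
    obtain ⟨⟨ha1, -⟩, -, hb6, hba⟩ := mem_VN.1 hg
    exact ⟨g.1, g.2, hgf.symm, ha1, hb6, hba⟩
  by_cases hp5 : p < 5
  · refine ⟨0, fun i => ?_⟩
    obtain ⟨a, b, h1, -, h3, -⟩ := hform i
    rw [h1]
    simp only [mul_zero, zero_add]
    intro h4
    have h5 : p ∣ b := by exact_mod_cast h4
    have hp6 : p ∣ 6 := by
      have := hp.two_le
      interval_cases p
      · norm_num
      · norm_num
      · exact absurd hp (by norm_num)
    exact Nat.not_coprime_of_dvd_of_dvd hp.one_lt h5 hp6 h3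
  · push Not at hp5
    obtain ⟨n, hn⟩ := Pool.Agent.H361R2.exists_avoid' (m := 4) hp (by omega)
      (fun i => (f i).1) (fun i => (f i).2) (by
        rintro i ⟨h1, h2⟩
        obtain ⟨a, b, h3, -, -, h4⟩ := hform i
        rw [h3] at h1 h2
        simp only at h1 h2
        have h5 : p ∣ a := by exact_mod_cast h1
        have h6 : p ∣ b := by exact_mod_cast h2
        exact Nat.not_coprime_of_dvd_of_dvd hp.one_lt h6 h5 h4)
    exact ⟨n, hn⟩

/-- a lower bound for the total weight -/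
theorem W_lower (X D : ℕ) (hX : 1 ≤ X) : ((D : ℝ) - 5) / 3 ≤ ∑ f ∈ VN X D, wt f := by
  classical
  have hper : ∀ t, Nat.Coprime t 6 ↔ Nat.Coprime (t % 6) 6 := by
    intro z
    unfold Nat.Coprime
    rw [Nat.gcd_comm z 6, Nat.gcd_rec 6 z]
  have h1 := le_card_six (fun b => Nat.Coprime b 6) hper D
  have h2 : ((range 6).filter (fun b => Nat.Coprime b 6)).card = 2 := by decide
  rw [h2] at h1
  have h3 : ((range D).filter (fun b => Nat.Coprime b 6)).image (fun b => (1, b)) ⊆ VN X D := by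
    intro f hf
    obtain ⟨b, hb, rfl⟩ := mem_image.1 hf
    obtain ⟨h4, h5⟩ := mem_filter.1 hb
    rw [mem_range] at h4
    exact mem_VN.2 ⟨⟨le_rfl, hX⟩, by simpa using h4, h5, Nat.coprime_one_right _⟩
  have h4 : ∑ f ∈ ((range D).filter (fun b => Nat.Coprime b 6)).image (fun b => ((1, b) : ℕ × ℕ)), wt f ≤
      ∑ f ∈ VN X D, wt f :=
    Finset.sum_le_sum_of_subset_of_nonneg h3 (fun f _ _ => by unfold wt; positivity)
  rw [Finset.sum_image (by intro b _ b' _ h; simpa using h)] at h4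
  have h5 : ∑ b ∈ (range D).filter (fun b => Nat.Coprime b 6), wt ((1, b) : ℕ × ℕ) =
      (((range D).filter (fun b => Nat.Coprime b 6)).card : ℝ) := by
    simp [wt]
  rw [h5] at h4
  push_cast at h1
  linarith

/-- the weight on pairs of integers -/
noncomputable def wz (g : ℤ × ℤ) : ℝ := 1 / (g.1 : ℝ) ^ 2

theorem wz_io (f : ℕ × ℕ) : wz (io f) = wt f := by
  simp [wz, io, wt]

open Classical in
/-- **the inequality at one `D`** -/
theorem push_D (K : ℕ) (hK : 1 ≤ K) (ε : ℝ) (hε : 0 < ε) (hε1 : ε ≤ 1 / 10) : ∃ Dm : ℕ, 2 ≤ Dm ∧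
    ∀ D : ℕ, Dm ≤ D → ∀ X : ℕ, 1 ≤ X →
    ∀ (F : Set (ℤ × ℤ)) (R : ℤ × ℤ → ℤ × ℤ → Prop), (∀ x y, R x y → R y x) →
    HitR K F R → (∀ f ∈ VN X D, io f ∈ F) →
    (1 / 3 - 3 * ε) * ∑ x ∈ QD X D, wt x.1 * wt x.2 ≤
      ∑ x ∈ QD X D, wt x.1 * wt x.2 * (if R (io x.1) (io x.2) then 1 else 0) := by
  obtain ⟨κ, hκ, H⟩ := third_w K hK ε hε
  obtain ⟨κ', hκ'⟩ : ∃ κ' : ℝ, κ' = min κ (ε / 4) := ⟨_, rfl⟩
  have hκ'0 : 0 < κ' := by rw [hκ']; exact lt_min hκ (by positivity)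
  have hκ'κ : κ' ≤ κ := by rw [hκ']; exact min_le_left _ _
  have hκ'ε : κ' ≤ ε / 4 := by rw [hκ']; exact min_le_right _ _
  obtain ⟨Dm, hDm⟩ := exists_nat_ge (3 / κ' + 5)
  refine ⟨max Dm 2, le_max_right _ _, ?_⟩
  intro D hD X hX F R hsymm hq hF
  have hD' : 3 / κ' + 5 ≤ (D : ℝ) := hDm.trans (by exact_mod_cast (le_max_left _ _).trans hD)
  obtain ⟨W, hW⟩ : ∃ W : ℝ, W = ∑ f ∈ VN X D, wt f := ⟨_, rfl⟩
  have hWl : 1 / κ' ≤ W := by
    rw [hW]
    refine le_trans ?_ (W_lower X D hX)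
    rw [le_div_iff₀ (by norm_num)]
    have : 1 / κ' * 3 = 3 / κ' := by ring
    rw [this]; linarith
  have hW0 : 0 < W := lt_of_lt_of_le (by positivity) hWl
  have hWκ : 1 ≤ κ' * W := by
    rw [div_le_iff₀ hκ'0] at hWl
    linarith
  have hwt0 : ∀ f : ℕ × ℕ, 0 ≤ wt f := fun f => by unfold wt; positivity
  have hwt1 : ∀ f ∈ VN X D, wt f ≤ 1 := by
    intro f hf
    have h1 : (1 : ℝ) ≤ f.1 := by exact_mod_cast (mem_VN.1 hf).1.1
    unfold wt
    rw [div_le_one (by positivity)]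
    nlinarith
  -- the weighted theorem
  have hsumim : ∀ h : ℤ × ℤ → ℝ, ∑ g ∈ (VN X D).image io, h g = ∑ f ∈ VN X D, h (io f) := by
    intro h
    rw [Finset.sum_image (fun f _ g _ hfg => io_inj hfg)]
  have h1 := H F R hsymm hq ((VN X D).image io) (by
      intro f hf
      obtain ⟨g, hg, rfl⟩ := mem_image.1 hf
      exact hF g hg) (adm_VN X D) wz (by
      intro f _; unfold wz; positivity) (by
      intro f hf
      obtain ⟨g, hg, rfl⟩ := mem_image.1 hf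
      rw [hsumim, wz_io, Finset.sum_congr rfl (fun f _ => wz_io f), ← hW]
      calc wt g ≤ 1 := hwt1 g hg
        _ ≤ κ' * W := hWκ
        _ ≤ κ * W := mul_le_mul_of_nonneg_right hκ'κ hW0.le)
  rw [hsumim, Finset.sum_congr rfl (fun f _ => wz_io f), ← hW, hsumim] at h1
  have h2 : ∑ f ∈ VN X D, ∑ g ∈ (VN X D).image io, wz (io f) *
      wz g * (if R (io f) g then 1 else 0) =
      ∑ x ∈ VN X D ×ˢ VN X D, wt x.1 * wt x.2 * (if R (io x.1) (io x.2) then 1 else 0) := by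
    rw [Finset.sum_product]
    apply Finset.sum_congr rfl
    intro f _
    rw [hsumim]
    apply Finset.sum_congr rfl
    intro g _
    rw [wz_io, wz_io]
  rw [h2] at h1
  have h3 : W ^ 2 = ∑ x ∈ VN X D ×ˢ VN X D, wt x.1 * wt x.2 := by
    rw [Finset.sum_product, hW, pow_two, Finset.sum_mul_sum]
  rw [sum_sym X D (fun x => wt x.1 * wt x.2) (fun f g => mul_comm _ _)] at h3
  rw [sum_sym X D (fun x => wt x.1 * wt x.2 * (if R (io x.1) (io x.2) then 1 else 0))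
    (fun f g => by
      have : R (io f) (io g) ↔ R (io g) (io f) := ⟨hsymm _ _, hsymm _ _⟩
      simp only [this]
      ring)] at h1
  obtain ⟨d, hd⟩ : ∃ d : ℝ, d = ∑ f ∈ VN X D, wt f * wt f := ⟨_, rfl⟩
  have hdle : d ≤ κ' * W ^ 2 := by
    rw [hd]
    calc ∑ f ∈ VN X D, wt f * wt f ≤ ∑ f ∈ VN X D, wt f * (κ' * W) :=
          Finset.sum_le_sum (fun f hf => mul_le_mul_of_nonneg_left ((hwt1 f hf).trans hWκ) (hwt0 f))
      _ = κ' * W ^ 2 := by rw [← Finset.sum_mul, ← hW]; ring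
  have hd0 : 0 ≤ d := by rw [hd]; exact Finset.sum_nonneg fun f _ => mul_nonneg (hwt0 f) (hwt0 f)
  have hd' : ∑ f ∈ VN X D, wt f * wt f * (if R (io f) (io f) then (1 : ℝ) else 0) ≤ d := by
    rw [hd]
    apply Finset.sum_le_sum
    intro f _
    have := mul_nonneg (hwt0 f) (hwt0 f)
    split_ifs
    · simp
    · simpa using this
  obtain ⟨S, hS⟩ : ∃ S : ℝ, S = ∑ x ∈ QD X D, wt x.1 * wt x.2 := ⟨_, rfl⟩
  obtain ⟨SR, hSR⟩ : ∃ SR : ℝ, SR = ∑ x ∈ QD X D, wt x.1 * wt x.2 *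
    (if R (io x.1) (io x.2) then 1 else 0) := ⟨_, rfl⟩
  simp only at h1 h3
  rw [← hS, ← hd] at h3
  rw [← hSR] at h1
  rw [← hS, ← hSR]
  have hS0 : 0 ≤ S := by
    rw [hS]; exact Finset.sum_nonneg fun x _ => mul_nonneg (hwt0 _) (hwt0 _)
  -- arithmetic
  have h4 : (1 / 3 - ε) * W ^ 2 ≤ d + 2 * SR := by linarith
  have h5 : d ≤ ε / 4 * W ^ 2 := hdle.trans (mul_le_mul_of_nonneg_right hκ'ε (by positivity))
  have h6 : (1 - ε / 4) * W ^ 2 ≤ 2 * S := by linarith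
  have h7 : W ^ 2 ≤ 4 * S := by nlinarith [sq_nonneg W]
  have h8 : 2 * S ≤ W ^ 2 := by linarith
  nlinarith

end Pool.Agent.K7.H63.TQ
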