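import Mathlib
import Pool.Agent.K7.H63.TQ.Reg

/-! Logarithmic sums over admissible triples: lower bound and regularity. -/

set_option autoImplicit false

namespace Pool.Agent.K7.H63.TQ

open Finset

theorem sum_sq (X : ℕ) : ∑ m ∈ (Icc 5 X).filter (fun m => Nat.Coprime m 6), 1 / (m : ℝ) ^ 2 ≤ 1 / 4 := by
  have h1 : ∑ m ∈ (Icc 5 X).filter (fun m => Nat.Coprime m 6), 1 / (m : ℝ) ^ 2 ≤
      ∑ m ∈ Ico 5 (X + 1), 1 / (m : ℝ) ^ 2 := by
    apply Finset.sum_le_sum_of_subset_of_nonneg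
    · intro m hm
      have := mem_Icc.1 (mem_filter.1 hm).1
      rw [mem_Ico]; omega
    · intro m _ _; positivity
  refine h1.trans ?_
  rcases le_or_gt 5 (X + 1) with h | h
  · have h2 := tele_le (fun m : ℕ => 1 / (m : ℝ) ^ 2) (fun m : ℕ => 1 / ((m : ℝ) - 1)) 5 (by
      intro d hd
      have hd' : (5 : ℝ) ≤ d := by exact_mod_cast hd
      have hdp : (0 : ℝ) < d := by linarith
      have hd1 : (0 : ℝ) < (d : ℝ) - 1 := by linarith
      push_cast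
      have e5 : (d : ℝ) + 1 - 1 = d := by ring
      rw [e5, div_sub_div _ _ hd1.ne' hdp.ne', div_le_div_iff₀ (by positivity) (by positivity)]
      nlinarith) (X + 1) h
    refine h2.trans ?_
    push_cast
    have h3 : (5 : ℝ) ≤ (X : ℝ) + 1 := by exact_mod_cast h
    have h4 : (0 : ℝ) ≤ 1 / ((X : ℝ) + 1 - 1) := by
      apply div_nonneg zero_le_one; linarith
    norm_num at h4 ⊢
  · rw [Finset.Ico_eq_empty (by omega), Finset.sum_empty]
    norm_num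

/-- a positive proportion of the triples is core -/
theorem Cs_lower (X Y : ℕ) : 1 / 4 * ((∑ a ∈ S6 X, 1 / (a : ℝ)) * ((∑ a ∈ S6 X, 1 / (a : ℝ)) *
    ∑ c ∈ Se Y, 1 / (c : ℝ))) ≤ Cs X 1 Y := by
  classical
  obtain ⟨s, hs⟩ : ∃ s : ℝ, s = ∑ a ∈ S6 X, 1 / (a : ℝ) := ⟨_, rfl⟩
  obtain ⟨e, he⟩ : ∃ e : ℝ, e = ∑ c ∈ Se Y, 1 / (c : ℝ) := ⟨_, rfl⟩
  have hs0 : 0 ≤ s := by rw [hs]; exact Finset.sum_nonneg fun a _ => by positivity
  have he0 : 0 ≤ e := by rw [he]; exact Finset.sum_nonneg fun a _ => by positivity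
  obtain ⟨M, hM⟩ : ∃ M : Finset ℕ, M = (Icc 5 X).filter (fun m => Nat.Coprime m 6) := ⟨_, rfl⟩
  obtain ⟨B, hB⟩ : ∃ B : ℕ → Finset (ℕ × ℕ × ℕ), B = fun m =>
    ((S6 X).filter (fun a => m ∣ a) ×ˢ (S6 X).filter (fun a => m ∣ a) ×ˢ Se Y) ∪
    (((S6 X).filter (fun a => m ∣ a) ×ˢ S6 X ×ˢ (Se Y).filter (fun a => m ∣ a)) ∪
    (S6 X ×ˢ (S6 X).filter (fun a => m ∣ a) ×ˢ (Se Y).filter (fun a => m ∣ a))) := ⟨_, rfl⟩
  have hsub : S6 X ×ˢ S6 X ×ˢ Se Y ⊆ (Rg X 1 Y).filter Core ∪ M.biUnion B := by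
    rintro ⟨α, β, γ⟩ hT
    obtain ⟨h1, h2⟩ := mem_product.1 hT
    obtain ⟨h3, h4⟩ := mem_product.1 h2
    simp only at h1 h3 h4
    obtain ⟨a1, a2⟩ := mem_filter.1 h1
    obtain ⟨b1, b2⟩ := mem_filter.1 h3
    obtain ⟨c1, c2, c3⟩ := mem_filter.1 h4
    have a1' := mem_Icc.1 a1
    have b1' := mem_Icc.1 b1
    have c1' := mem_Icc.1 c1
    have key : ∀ x y : ℕ, x ∈ S6 X → ¬ Nat.Coprime x y → ∃ m ∈ M, m ∣ x ∧ m ∣ y := by
      intro x y hx hxy
      obtain ⟨hx1, hx2⟩ := mem_filter.1 hx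
      have hx1' := mem_Icc.1 hx1
      obtain ⟨p, hp, hpx, hpy⟩ := Nat.Prime.not_coprime_iff_dvd.1 hxy
      refine ⟨p, ?_, hpx, hpy⟩
      rw [hM]
      have hp6 : Nat.Coprime p 6 := Nat.Coprime.coprime_dvd_left hpx hx2
      refine mem_filter.2 ⟨mem_Icc.2 ⟨?_, (Nat.le_of_dvd (by omega) hpx).trans hx1'.2⟩, hp6⟩
      by_contra hlt
      push Not at hlt
      have := hp.two_le
      interval_cases p
      · exact absurd hp6 (by norm_num)
      · exact absurd hp6 (by norm_num)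
      · exact absurd hp (by norm_num)
    rw [mem_union]
    by_cases hαβ : Nat.Coprime α β
    · by_cases hαγ : Nat.Coprime α γ
      · by_cases hβγ : Nat.Coprime β γ
        · left
          refine mem_filter.2 ⟨mem_Rg.2 ⟨a1', b1', c1'⟩, ?_⟩
          refine ⟨⟨a1'.1, b1'.1, c1'.1, hαβ, hαγ, hβγ, ?_⟩, ?_⟩
          · rintro ⟨-, -, h5⟩
            exact (Nat.not_even_iff_odd.2 h5) (even_iff_two_dvd.2 c2)
          · intro i
            fin_cases i
            · show ¬ 3 ∣ α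
              intro h; exact Nat.not_coprime_of_dvd_of_dvd (by norm_num) h (by norm_num) a2
            · show ¬ 3 ∣ β
              intro h; exact Nat.not_coprime_of_dvd_of_dvd (by norm_num) h (by norm_num) b2
            · exact c3
        · right
          obtain ⟨m, hm, h5, h6⟩ := key β γ h3 hβγ
          rw [mem_biUnion]
          refine ⟨m, hm, ?_⟩
          rw [hB]
          simp only [mem_union, mem_product, mem_filter]
          tauto
      · right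
        obtain ⟨m, hm, h5, h6⟩ := key α γ h1 hαγ
        rw [mem_biUnion]
        refine ⟨m, hm, ?_⟩
        rw [hB]
        simp only [mem_union, mem_product, mem_filter]
        tauto
    · right
      obtain ⟨m, hm, h5, h6⟩ := key α β h1 hαβ
      rw [mem_biUnion]
      refine ⟨m, hm, ?_⟩
      rw [hB]
      simp only [mem_union, mem_product, mem_filter]
      tauto
  have hun : ∀ A B : Finset (ℕ × ℕ × ℕ), ∑ T ∈ A ∪ B, tt T ≤ ∑ T ∈ A, tt T + ∑ T ∈ B, tt T := by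
    intro A B
    rw [← Finset.sum_union_inter]
    have : 0 ≤ ∑ T ∈ A ∩ B, tt T := Finset.sum_nonneg fun T _ => tt_nonneg T
    linarith
  have hbun : ∀ N : Finset ℕ, ∑ T ∈ N.biUnion B, tt T ≤ ∑ m ∈ N, ∑ T ∈ B m, tt T := by
    intro N
    induction N using Finset.induction_on with
    | empty => simp
    | insert m N hm ih =>
      rw [Finset.biUnion_insert, Finset.sum_insert hm]
      exact (hun _ _).trans (add_le_add le_rfl ih)
  have h1 := Finset.sum_le_sum_of_subset_of_nonneg (f := tt) hsub (fun T _ _ => tt_nonneg T)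
  have h2 := hun ((Rg X 1 Y).filter Core) (M.biUnion B)
  have h3 := hbun M
  rw [sum_tt, ← hs, ← he] at h1
  have hCs : ∑ T ∈ (Rg X 1 Y).filter Core, tt T = Cs X 1 Y := rfl
  rw [hCs] at h2
  have h4 : ∀ m ∈ M, ∑ T ∈ B m, tt T ≤ 3 * (s * (s * e)) * (1 / (m : ℝ) ^ 2) := by
    intro m hm
    rw [hM] at hm
    obtain ⟨hm1, hm6⟩ := mem_filter.1 hm
    have hm1' : 1 ≤ m := by have := (mem_Icc.1 hm1).1; omega
    have hm0 : (0 : ℝ) < m := by exact_mod_cast hm1'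
    have u1 := S6_mul X m hm1'
    have u2 := Se_mul Y m hm1' hm6
    rw [← hs] at u1
    rw [← he] at u2
    rw [hB]
    have v1 := hun ((S6 X).filter (fun a => m ∣ a) ×ˢ (S6 X).filter (fun a => m ∣ a) ×ˢ Se Y)
      (((S6 X).filter (fun a => m ∣ a) ×ˢ S6 X ×ˢ (Se Y).filter (fun a => m ∣ a)) ∪
      (S6 X ×ˢ (S6 X).filter (fun a => m ∣ a) ×ˢ (Se Y).filter (fun a => m ∣ a)))
    have v2 := hun ((S6 X).filter (fun a => m ∣ a) ×ˢ S6 X ×ˢ (Se Y).filter (fun a => m ∣ a))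
      (S6 X ×ˢ (S6 X).filter (fun a => m ∣ a) ×ˢ (Se Y).filter (fun a => m ∣ a))
    rw [sum_tt, ← he] at v1
    rw [sum_tt, sum_tt, ← hs] at v2
    have p1 : 0 ≤ ∑ a ∈ (S6 X).filter (fun a => m ∣ a), 1 / (a : ℝ) :=
      Finset.sum_nonneg fun a _ => by positivity
    have p2 : 0 ≤ ∑ a ∈ (Se Y).filter (fun a => m ∣ a), 1 / (a : ℝ) :=
      Finset.sum_nonneg fun a _ => by positivity
    obtain ⟨x, hx⟩ : ∃ x : ℝ, x = ∑ a ∈ (S6 X).filter (fun a => m ∣ a), 1 / (a : ℝ) := ⟨_, rfl⟩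
    obtain ⟨y, hy⟩ : ∃ y : ℝ, y = ∑ a ∈ (Se Y).filter (fun a => m ∣ a), 1 / (a : ℝ) := ⟨_, rfl⟩
    rw [← hx] at u1 v1 v2 p1
    rw [← hy] at u2 v2 p2
    have w1 : x * (x * e) ≤ (1 / m * s) * ((1 / m * s) * e) := by gcongr
    have w2 : x * (s * y) ≤ (1 / m * s) * (s * (1 / m * e)) := by gcongr
    have w3 : s * (x * y) ≤ s * ((1 / m * s) * (1 / m * e)) := by gcongr
    have e1 : 3 * (s * (s * e)) * (1 / (m : ℝ) ^ 2) = (1 / m * s) * ((1 / m * s) * e) +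
        ((1 / m * s) * (s * (1 / m * e)) + s * ((1 / m * s) * (1 / m * e))) := by
      field_simp; ring
    rw [e1]
    linarith
  have h5 := Finset.sum_le_sum h4
  rw [← Finset.mul_sum] at h5
  have h6 : ∑ m ∈ M, 1 / (m : ℝ) ^ 2 ≤ 1 / 4 := by rw [hM]; exact sum_sq X
  have h7 : 3 * (s * (s * e)) * ∑ m ∈ M, 1 / (m : ℝ) ^ 2 ≤ 3 * (s * (s * e)) * (1 / 4) :=
    mul_le_mul_of_nonneg_left h6 (by positivity)
  rw [← hs, ← he]
  linarith

/-- a lower bound in terms of harmonic sums -/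
theorem Cs_lower' : ∃ N : ℕ, 1 ≤ N ∧ ∀ X Y : ℕ, N ≤ X → N ≤ Y →
    1 / 20000 * (hh X * (hh X * hh Y)) ≤ Cs X 1 Y := by
  obtain ⟨N, hN⟩ := (hh_tendsto.eventually (Filter.eventually_ge_atTop (2 * (1 + Real.log 12)))).exists_forall_of_atTop
  refine ⟨max N 16, by omega, ?_⟩
  intro X Y hX hY
  have hX16 : 16 ≤ X := (le_max_right _ _).trans hX
  have hY16 : 16 ≤ Y := (le_max_right _ _).trans hY
  have hXN := hN X ((le_max_left _ _).trans hX)
  have hYN := hN Y ((le_max_left _ _).trans hY)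
  have h1 : hh X / 2 ≤ hh ((X - 1) / 6) := by
    have h2 := hh_div (Q := 12) (by norm_num) X (by omega)
    have h3 : hh (X / 12) ≤ hh ((X - 1) / 6) := hh_mono (by omega)
    push_cast at h2
    linarith
  have h2 : hh Y / 2 ≤ hh ((Y - 2) / 6) := by
    have h2 := hh_div (Q := 12) (by norm_num) Y (by omega)
    have h3 : hh (Y / 12) ≤ hh ((Y - 2) / 6) := hh_mono (by omega)
    push_cast at h2
    linarith
  have h3 : hh X / 14 ≤ ∑ a ∈ S6 X, 1 / (a : ℝ) := by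
    have := S6_lower X; linarith
  have h4 : hh Y / 16 ≤ ∑ a ∈ Se Y, 1 / (a : ℝ) := by
    have := Se_lower Y; linarith
  refine le_trans ?_ (Cs_lower X Y)
  have hX0 := hh_nonneg X
  have hY0 := hh_nonneg Y
  have h5 : (hh X / 14) * ((hh X / 14) * (hh Y / 16)) ≤ (∑ a ∈ S6 X, 1 / (a : ℝ)) *
      ((∑ a ∈ S6 X, 1 / (a : ℝ)) * ∑ c ∈ Se Y, 1 / (c : ℝ)) := by
    gcongr
  have h6 : 0 ≤ hh X * (hh X * hh Y) := by positivity
  have h7 : (hh X / 14) * ((hh X / 14) * (hh Y / 16)) = 1 / 3136 * (hh X * (hh X * hh Y)) := by ring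
  rw [h7] at h5
  linarith

/-- **regularity** -/
theorem reg (ε : ℝ) (hε : 0 < ε) (Q : ℕ) (hQ : 1 ≤ Q) : ∃ (X0 : ℕ) (B : ℝ), 1 ≤ X0 ∧ 0 < B ∧
    ∀ X : ℕ, X0 ≤ X → ∀ Y1 Q' Y : ℕ, 1 ≤ Q' → X0 ≤ Y →
    B * (hh Y1 + (1 + Real.log Q')) ≤ hh Y →
    (1 - ε) * Cs X 1 Y ≤ Cs (X / Q) Y1 (Y / Q') := by
  obtain ⟨N, hN1, hN⟩ := Cs_lower'
  have hlogQ : 0 ≤ Real.log Q := Real.log_natCast_nonneg Q
  obtain ⟨X0, hX0⟩ := (hh_tendsto.eventually (Filter.eventually_ge_atTop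
    (20000 * (4 * (1 + Real.log Q)) / ε))).exists_forall_of_atTop
  refine ⟨max X0 N, 40000 / ε, hN1.trans (le_max_right _ _), by positivity, ?_⟩
  intro X hX Y1 Q' Y hQ' hY hYY
  have hXX := hX0 X ((le_max_left _ _).trans hX)
  have hXN : N ≤ X := (le_max_right _ _).trans hX
  have hlogQ' : 0 ≤ Real.log Q' := Real.log_natCast_nonneg Q'
  have hYN : N ≤ Y := (le_max_right _ _).trans hY
  have h1 := Cs_diff X Y Q Y1 Q' hQ hQ' (by omega) (by omega)
  have h2 := hN X Y hXN hYN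
  have hx0 := hh_nonneg X
  have hy0 := hh_nonneg Y
  rw [div_le_iff₀ hε] at hXX
  rw [div_mul_eq_mul_div, div_le_iff₀ hε] at hYY
  -- the two boundary terms
  have h3 : 2 * ((1 + Real.log Q) * (hh X * hh Y)) ≤ ε / 2 * (1 / 20000 * (hh X * (hh X * hh Y))) := by
    have h4 : 0 ≤ hh X * hh Y := by positivity
    have h5 := mul_le_mul_of_nonneg_right hXX h4
    nlinarith
  have h4 : hh X * (hh X * (hh Y1 + (1 + Real.log Q'))) ≤
      ε / 2 * (1 / 20000 * (hh X * (hh X * hh Y))) := by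
    have h4 : 0 ≤ hh X * hh X := by positivity
    have h5 := mul_le_mul_of_nonneg_right hYY h4
    nlinarith
  have h5 : ε / 2 * (1 / 20000 * (hh X * (hh X * hh Y))) ≤ ε / 2 * Cs X 1 Y :=
    mul_le_mul_of_nonneg_left h2 (by positivity)
  linarith

end Pool.Agent.K7.H63.TQ
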