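import Mathlib
import Pool.Agent.K7.H63.TQ.Push2
import Pool.Agent.K7.H63.TQ.Reg2

/-! A quarter of all triples, for an abstract relation. -/

set_option autoImplicit false

namespace Pool.Agent.K7.H63.TQ

open Finset

open Classical in
/-- the sum over `D` -/
theorem push_sum (X Y D0 D1 : ℕ) (hD1 : X * X * D1 ≤ Y) (c : ℝ) (hc : 0 ≤ c) (R : ℤ × ℤ → ℤ × ℤ → Prop)
    (Gd : ℕ × ℕ × ℕ → Prop)
    (hpush : ∀ D ∈ Ico D0 D1, c * ∑ x ∈ QD X D, wt x.1 * wt x.2 ≤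
      ∑ x ∈ QD X D, wt x.1 * wt x.2 * (if R (io x.1) (io x.2) then 1 else 0))
    (hRG : ∀ D ∈ Ico D0 D1, ∀ x ∈ QD X D, R (io x.1) (io x.2) → Gd (tau x))
    (𝒯 : Finset (ℕ × ℕ × ℕ)) (h𝒯 : ∀ T ∈ 𝒯, Ad T) :
    c * ∑ T ∈ 𝒯, PT X D0 D1 T.1 T.2.1 T.2.2 ≤
      ∑ T ∈ (Rg X 1 Y).filter (fun T => Ad T ∧ Gd T), PT X D0 D1 T.1 T.2.1 T.2.2 := by
  have hwt0 : ∀ f : ℕ × ℕ, 0 ≤ wt f := fun f => by unfold wt; positivity
  -- the lower part
  have h1 : ∀ D ∈ Ico D0 D1, ∑ T ∈ 𝒯, PD X D T.1 T.2.1 T.2.2 ≤ ∑ x ∈ QD X D, wt x.1 * wt x.2 := by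
    intro D _
    have h2 : ∀ T ∈ 𝒯, PD X D T.1 T.2.1 T.2.2 =
        ∑ x ∈ (QD X D).filter (fun x => tau x = T), wt x.1 * wt x.2 := by
      intro T hT
      exact (fiber (X := X) (D := D) (h𝒯 T hT)).symm
    rw [Finset.sum_congr rfl h2]
    apply Finset.sum_fiberwise_le_sum_of_sum_fiber_nonneg
    intro T _
    exact Finset.sum_nonneg fun x _ => mul_nonneg (hwt0 _) (hwt0 _)
  -- the upper part
  have h2 : ∀ D ∈ Ico D0 D1,
      ∑ x ∈ QD X D, wt x.1 * wt x.2 * (if R (io x.1) (io x.2) then 1 else 0) ≤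
      ∑ T ∈ (Rg X 1 Y).filter (fun T => Ad T ∧ Gd T), PD X D T.1 T.2.1 T.2.2 := by
    intro D hD
    have h3 : ∑ x ∈ QD X D, wt x.1 * wt x.2 * (if R (io x.1) (io x.2) then (1 : ℝ) else 0) =
        ∑ x ∈ (QD X D).filter (fun x => R (io x.1) (io x.2)), wt x.1 * wt x.2 := by
      rw [Finset.sum_filter]
      apply Finset.sum_congr rfl
      intro x _
      split_ifs <;> ring
    have hmaps : ∀ x ∈ (QD X D).filter (fun x => R (io x.1) (io x.2)),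
        tau x ∈ (Rg X 1 Y).filter (fun T => Ad T ∧ Gd T) := by
      intro x hx
      obtain ⟨hx1, hx2⟩ := mem_filter.1 hx
      have h4 := hRG D hD x hx1 hx2
      obtain ⟨G, α, β, γ, hG, e1, e2, e3, hadm, e4, e5, hγ, hα, hβ⟩ := decomp hx1
      rw [e4] at h4 ⊢
      refine mem_filter.2 ⟨mem_Rg.2 ⟨⟨hadm.1, hα⟩, ⟨hadm.2.1, hβ⟩, hadm.2.2.1, ?_⟩, hadm, h4⟩
      refine hγ.trans (le_trans ?_ hD1)
      exact Nat.mul_le_mul_left _ (mem_Ico.1 hD).2.le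
    rw [h3, ← Finset.sum_fiberwise_of_maps_to hmaps]
    apply Finset.sum_le_sum
    intro T hT
    have hTa : Ad T := (mem_filter.1 hT).2.1
    have h4 := fiber (X := X) (D := D) hTa
    rw [← h4]
    apply Finset.sum_le_sum_of_subset_of_nonneg
    · intro x hx
      obtain ⟨hx1, hx2⟩ := mem_filter.1 hx
      exact mem_filter.2 ⟨(mem_filter.1 hx1).1, hx2⟩
    · intro x _ _; exact mul_nonneg (hwt0 _) (hwt0 _)
  have h3 : ∀ 𝒮 : Finset (ℕ × ℕ × ℕ), ∑ T ∈ 𝒮, PT X D0 D1 T.1 T.2.1 T.2.2 =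
      ∑ D ∈ Ico D0 D1, 1 / (D : ℝ) ^ 3 * ∑ T ∈ 𝒮, PD X D T.1 T.2.1 T.2.2 := by
    intro 𝒮
    simp only [PT_eq]
    rw [Finset.sum_comm]
    apply Finset.sum_congr rfl
    intro D _
    rw [Finset.mul_sum]
  rw [h3, h3, Finset.mul_sum]
  apply Finset.sum_le_sum
  intro D hD
  calc c * (1 / (D : ℝ) ^ 3 * ∑ T ∈ 𝒯, PD X D T.1 T.2.1 T.2.2)
      = 1 / (D : ℝ) ^ 3 * (c * ∑ T ∈ 𝒯, PD X D T.1 T.2.1 T.2.2) := by ring
    _ ≤ 1 / (D : ℝ) ^ 3 * ∑ T ∈ (Rg X 1 Y).filter (fun T => Ad T ∧ Gd T), PD X D T.1 T.2.1 T.2.2 := by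
        apply mul_le_mul_of_nonneg_left _ (by positivity)
        exact (mul_le_mul_of_nonneg_left (h1 D hD) hc).trans ((hpush D hD).trans (h2 D hD))

open Classical in
/-- **a quarter of all triples, abstract form** -/
theorem quarter_abs (K : ℕ) (hK : 1 ≤ K) : ∃ X0 C : ℕ, 2 ≤ X0 ∧ ∀ X : ℕ, X0 ≤ X →
    ∀ Y : ℕ, X ^ C ≤ Y → ∀ (F : Set (ℤ × ℤ)) (R : ℤ × ℤ → ℤ × ℤ → Prop), (∀ x y, R x y → R y x) →
    HitR K F R → (∀ f : ℕ × ℕ, 1 ≤ f.1 → f.1 ≤ X → f.2 ≤ Y → io f ∈ F) →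
    ∀ Gd : ℕ × ℕ × ℕ → Prop,
    (∀ G α β γ b b' : ℕ, 1 ≤ G → AdmT α β γ → G * α ≤ X → G * β ≤ X → b ≤ Y → b' ≤ Y →
      α * b' = β * b + γ → R (io (G * α, b)) (io (G * β, b')) → Gd (α, β, γ)) →
    1 / 4 * ∑ T ∈ (Rg X 1 Y).filter Ad, tt T ≤
      ∑ T ∈ (Rg X 1 Y).filter (fun T => Ad T ∧ Gd T), tt T := by
  obtain ⟨Dm, hDm2, hpush⟩ := push_D K hK (1 / 3000) (by norm_num) (by norm_num)
  obtain ⟨D0, hD0def⟩ : ∃ D0 : ℕ, D0 = max Dm 30000 := ⟨_, rfl⟩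
  have hD0Dm : Dm ≤ D0 := by rw [hD0def]; exact le_max_left _ _
  have hD030 : 30000 ≤ D0 := by rw [hD0def]; exact le_max_right _ _
  obtain ⟨X0, B, hX01, hB0, hreg⟩ := reg (1 / 1000) (by norm_num) (30 * 3 ^ 8) (by norm_num)
  obtain ⟨M3, hM3⟩ : ∃ M3 : ℝ, M3 = 2 + Real.log (30 * max 156000 D0) + Real.log (4000 * 3 ^ 8) :=
    ⟨_, rfl⟩
  obtain ⟨X1, hX1def⟩ : ∃ X1 : ℕ, Real.exp M3 ≤ X1 := exists_nat_ge _
  obtain ⟨C, hC⟩ : ∃ C : ℕ, max (5 * B) 1 ≤ C := exists_nat_ge _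
  refine ⟨max (max X0 X1) 2, C, le_max_right _ _, ?_⟩
  intro X hXmax Y hY F R hsymm hq hF Gd hRG
  have hX : X0 ≤ X := (le_max_left _ _).trans ((le_max_left _ _).trans hXmax)
  have hXX1 : X1 ≤ X := (le_max_right _ _).trans ((le_max_left _ _).trans hXmax)
  have hX2 : 2 ≤ X := (le_max_right _ _).trans hXmax
  have hX1 : 1 ≤ X := hX01.trans hX
  have hC1 : 1 ≤ C := by
    have : (1 : ℝ) ≤ C := (le_max_right _ _).trans hC
    exact_mod_cast this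
  have hXY : X ≤ Y := (Nat.le_self_pow (by omega) X).trans hY
  obtain ⟨Y1, hY1⟩ : ∃ Y1 : ℕ, Y1 = 30 * X * X * max 156000 D0 := ⟨_, rfl⟩
  have hXr : (0 : ℝ) < X := by exact_mod_cast hX1
  have hlogX : M3 ≤ Real.log X := by
    rw [Real.le_log_iff_exp_le hXr]
    exact hX1def.trans (by exact_mod_cast hXX1)
  have hYlog : B * (hh Y1 + (1 + Real.log ((X * X * 4000 * 3 ^ 8 : ℕ) : ℝ))) ≤ hh Y := by
    have hmx : (0 : ℝ) < 30 * (max 156000 D0 : ℕ) := by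
      have : 0 < max 156000 D0 := by omega
      have : (0 : ℝ) < (max 156000 D0 : ℕ) := by exact_mod_cast this
      positivity
    have a1 : hh Y1 ≤ 1 + (Real.log (30 * (max 156000 D0 : ℕ)) + 2 * Real.log X) := by
      refine (hh_le Y1).trans ?_
      rw [hY1]
      have e : ((30 * X * X * max 156000 D0 : ℕ) : ℝ) = (30 * (max 156000 D0 : ℕ)) * (X : ℝ) ^ 2 := by
        push_cast; ring
      rw [e, Real.log_mul hmx.ne' (by positivity), Real.log_pow]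
      push_cast; linarith
    have a2 : Real.log ((X * X * 4000 * 3 ^ 8 : ℕ) : ℝ) = Real.log (4000 * 3 ^ 8) + 2 * Real.log X := by
      have e : ((X * X * 4000 * 3 ^ 8 : ℕ) : ℝ) = (4000 * 3 ^ 8) * (X : ℝ) ^ 2 := by
        push_cast; ring
      rw [e, Real.log_mul (by positivity) (by positivity), Real.log_pow]
      push_cast; ring
    have a3 : hh Y1 + (1 + Real.log ((X * X * 4000 * 3 ^ 8 : ℕ) : ℝ)) ≤ 5 * Real.log X := by
      rw [a2]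
      push_cast at a1 hM3
      linarith
    have a4 : (C : ℝ) * Real.log X ≤ hh Y := by
      refine le_trans ?_ (log_le_hh Y)
      rw [← Real.log_pow]
      apply Real.log_le_log (by positivity)
      have : ((X ^ C : ℕ) : ℝ) ≤ Y := by exact_mod_cast hY
      push_cast at this
      linarith
    have hlog0 : 0 ≤ Real.log X := Real.log_natCast_nonneg X
    have a5 : 5 * B ≤ C := (le_max_left _ _).trans hC
    calc B * (hh Y1 + (1 + Real.log ((X * X * 4000 * 3 ^ 8 : ℕ) : ℝ))) ≤ B * (5 * Real.log X) :=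
          mul_le_mul_of_nonneg_left a3 hB0.le
      _ = 5 * B * Real.log X := by ring
      _ ≤ C * Real.log X := mul_le_mul_of_nonneg_right a5 hlog0
      _ ≤ hh Y := a4
  have hregY := hreg X hX Y1 (X * X * 4000 * 3 ^ 8) Y (by
    have : 1 ≤ X * X := Nat.mul_pos hX1 hX1
    omega) (hX.trans hXY) hYlog
  obtain ⟨D1, hD1⟩ : ∃ D1 : ℕ, D1 = Y / (X * X) := ⟨_, rfl⟩
  have hXX : 1 ≤ X * X := Nat.mul_pos hX1 hX1
  have hXD1 : X * X * D1 ≤ Y := by rw [hD1]; exact Nat.mul_div_le _ _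
  have hbound : ∀ D ∈ Ico D0 D1, ∀ f ∈ VN X D, f.2 ≤ Y := by
    intro D hD f hf
    obtain ⟨⟨-, h1⟩, h2, -⟩ := mem_VN.1 hf
    have h3 : D ≤ D1 := (mem_Ico.1 hD).2.le
    calc f.2 ≤ f.1 * D := h2.le
      _ ≤ X * D1 := Nat.mul_le_mul h1 h3
      _ ≤ X * X * D1 := by
          rw [mul_assoc]; exact Nat.le_mul_of_pos_left _ hX1
      _ ≤ Y := hXD1
  -- the set of triples for the lower bound
  obtain ⟨𝒯, h𝒯def⟩ : ∃ 𝒯, 𝒯 = (Rg (X / 30) Y1 (D1 / 4000)).filter Ad := ⟨_, rfl⟩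
  have hmain := push_sum X Y D0 D1 hXD1 (1 / 3 - 3 * (1 / 3000)) (by norm_num) R Gd (by
      intro D hD
      exact hpush D (hD0Dm.trans (mem_Ico.1 hD).1) X hX1 F R hsymm hq (by
        intro f hf
        obtain ⟨⟨h1, h2⟩, -⟩ := mem_VN.1 hf
        exact hF f h1 h2 (hbound D hD f hf))) (by
      intro D hD x hx hR
      obtain ⟨G, α, β, γ, hG, e1, e2, e3, hadm, e4, e5, -, -, -⟩ := decomp hx
      obtain ⟨h1, h2⟩ := mem_filter.1 hx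
      obtain ⟨h3, h4⟩ := mem_product.1 h1
      have h5 := (mem_VN.1 h3).1.2
      have h6 := (mem_VN.1 h4).1.2
      rw [e1] at h5
      rw [e2] at h6
      rw [e4]
      refine hRG G α β γ x.1.2 x.2.2 hG hadm h5 h6 (hbound D hD _ h3) (hbound D hD _ h4) e3 ?_
      have e6 : ((G * α, x.1.2) : ℕ × ℕ) = x.1 := by rw [← e1]
      have e7 : ((G * β, x.2.2) : ℕ × ℕ) = x.2 := by rw [← e2]
      rw [e6, e7]; exact hR) 𝒯 (by
      intro T hT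
      rw [h𝒯def] at hT
      exact (mem_filter.1 hT).2)
  -- upper bound for the weights
  have hπ : Real.pi ^ 2 / 6 ≤ 1.64495 := by
    have h1 := Real.pi_lt_d4
    have h2 := Real.pi_pos
    nlinarith
  have hD0r : (30000 : ℝ) ≤ D0 := by exact_mod_cast hD030
  have he : 1 + 2 / ((D0 : ℝ) - 1) + 24 / D0 ≤ 1.001 := by
    have h1 : 2 / ((D0 : ℝ) - 1) ≤ 2 / 29999 := by
      apply div_le_div_of_nonneg_left (by norm_num) (by norm_num); linarith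
    have h2 : 24 / (D0 : ℝ) ≤ 24 / 30000 := by
      apply div_le_div_of_nonneg_left (by norm_num) (by norm_num); linarith
    norm_num at h1 h2 ⊢
    linarith
  have hup : ∑ T ∈ (Rg X 1 Y).filter (fun T => Ad T ∧ Gd T), PT X D0 D1 T.1 T.2.1 T.2.2 ≤
      2 * (1 / 12) * 1.001 * 1.64495 * ∑ T ∈ (Rg X 1 Y).filter (fun T => Ad T ∧ Gd T), tt T := by
    rw [Finset.mul_sum]
    apply Finset.sum_le_sum
    intro T hT
    have hTa : Ad T := (mem_filter.1 hT).2.1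
    have h1 := PT_le (X := X) (D0 := D0) (D1 := D1) hTa (by omega)
    have hn : (n6 T.1 T.2.1 T.2.2 : ℝ) ≤ 2 := by exact_mod_cast n6_le _ _ _
    have ha : (0 : ℝ) < T.1 := by exact_mod_cast hTa.1
    have hb : (0 : ℝ) < T.2.1 := by exact_mod_cast hTa.2.1
    have hc : (0 : ℝ) < T.2.2 := by exact_mod_cast hTa.2.2.1
    have hD01 : (0 : ℝ) < (D0 : ℝ) - 1 := by linarith
    calc PT X D0 D1 T.1 T.2.1 T.2.2 ≤ n6 T.1 T.2.1 T.2.2 * (1 / (12 * (T.1 * T.2.1 * T.2.2))) *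
          (1 + 2 / ((D0 : ℝ) - 1) + 24 / D0) * (Real.pi ^ 2 / 6) := h1
      _ ≤ 2 * (1 / (12 * (T.1 * T.2.1 * T.2.2))) * 1.001 * 1.64495 := by gcongr
      _ = 2 * (1 / 12) * 1.001 * 1.64495 * tt T := by
          unfold tt; field_simp
  -- lower bound for the weights
  have hlow : (1 / 12) * (1575 / 1000 - 2 * (78 / 156000 + 2 / 4000)) *
      ∑ T ∈ 𝒯, (n6 T.1 T.2.1 T.2.2 : ℝ) * tt T ≤ ∑ T ∈ 𝒯, PT X D0 D1 T.1 T.2.1 T.2.2 := by
    rw [Finset.mul_sum]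
    apply Finset.sum_le_sum
    intro T hT
    rw [h𝒯def] at hT
    obtain ⟨hT1, hTa⟩ := mem_filter.1 hT
    obtain ⟨⟨ha1, haX⟩, ⟨hb1, hbX⟩, hc1, hcY⟩ := mem_Rg.1 hT1
    have hTa' : AdmT T.1 T.2.1 T.2.2 := hTa
    have ha : (0 : ℝ) < T.1 := by exact_mod_cast ha1
    have hb : (0 : ℝ) < T.2.1 := by exact_mod_cast hb1
    have hc : (0 : ℝ) < T.2.2 := by exact_mod_cast hTa'.2.2.1
    have h30a : 30 * T.1 ≤ X := by
      have := Nat.mul_div_le X 30; omega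
    have h30b : 30 * T.2.1 ≤ X := by
      have := Nat.mul_div_le X 30; omega
    have haX' : T.1 ≤ X := by omega
    have hbX' : T.2.1 ≤ X := by omega
    have hρ : ((max 156000 D0 : ℕ) : ℝ) ≤ (T.2.2 : ℝ) / (30 * T.1 * T.2.1) := by
      rw [le_div_iff₀ (by positivity)]
      have h1 : max 156000 D0 * (30 * T.1 * T.2.1) ≤ T.2.2 := by
        refine le_trans ?_ hc1
        rw [hY1]
        calc max 156000 D0 * (30 * T.1 * T.2.1) ≤ max 156000 D0 * (30 * X * X) := by gcongr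
          _ = 30 * X * X * max 156000 D0 := by ring
      exact_mod_cast h1
    have hR : (156000 : ℝ) ≤ (T.2.2 : ℝ) / (30 * T.1 * T.2.1) := by
      refine le_trans ?_ hρ
      exact_mod_cast le_max_left 156000 D0
    have hD : (D0 : ℝ) ≤ (T.2.2 : ℝ) / (30 * T.1 * T.2.1) := by
      refine le_trans ?_ hρ
      exact_mod_cast le_max_right 156000 D0
    have hK4 : (4000 : ℝ) * ((T.2.2 : ℝ) / (T.1 * T.2.1)) ≤ D1 := by
      have h1 : 4000 * T.2.2 ≤ D1 := by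
        have := Nat.mul_div_le D1 4000
        omega
      have h2 : (4000 : ℝ) * T.2.2 ≤ D1 := by exact_mod_cast h1
      have h3 : (T.2.2 : ℝ) / (T.1 * T.2.1) ≤ T.2.2 := by
        apply div_le_self hc.le
        have a1 : (1 : ℝ) ≤ T.1 := by exact_mod_cast ha1
        have b1 : (1 : ℝ) ≤ T.2.1 := by exact_mod_cast hb1
        nlinarith
      linarith
    have h1 := le_PT (X := X) (D0 := D0) (D1 := D1) 156000 4000 hTa' (by norm_num) (by norm_num) hR hD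
      (by omega) hK4 h30a h30b
    refine le_trans (le_of_eq ?_) h1
    unfold tt
    field_simp
  -- the sum over `𝒯`
  have hn6 := le_n6 8 (X / 30) Y1 (D1 / 4000)
  rw [← h𝒯def] at hn6
  have e1 : X / 30 / 3 ^ 8 = X / (30 * 3 ^ 8) := Nat.div_div_eq_div_mul _ _ _
  have e2 : D1 / 4000 / 3 ^ 8 = Y / (X * X * 4000 * 3 ^ 8) := by
    rw [hD1, Nat.div_div_eq_div_mul, Nat.div_div_eq_div_mul, ← mul_assoc (X * X)]
  rw [e1, e2] at hn6
  have hall := all_le X Y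
  have hCs0 := Cs_nonneg X 1 Y
  obtain ⟨C1, hC1⟩ : ∃ C1 : ℝ, C1 = Cs (X / (30 * 3 ^ 8)) Y1 (Y / (X * X * 4000 * 3 ^ 8)) := ⟨_, rfl⟩
  obtain ⟨C0, hC0⟩ : ∃ C0 : ℝ, C0 = Cs X 1 Y := ⟨_, rfl⟩
  obtain ⟨s1, hs1⟩ : ∃ s1 : ℝ, s1 = ∑ T ∈ 𝒯, (n6 T.1 T.2.1 T.2.2 : ℝ) * tt T := ⟨_, rfl⟩
  obtain ⟨s2, hs2⟩ : ∃ s2 : ℝ, s2 = ∑ T ∈ (Rg X 1 Y).filter (fun T => Ad T ∧ Gd T), tt T := ⟨_, rfl⟩
  obtain ⟨s3, hs3⟩ : ∃ s3 : ℝ, s3 = ∑ T ∈ (Rg X 1 Y).filter Ad, tt T := ⟨_, rfl⟩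
  obtain ⟨P1, hP1⟩ : ∃ P1 : ℝ, P1 = ∑ T ∈ 𝒯, PT X D0 D1 T.1 T.2.1 T.2.2 := ⟨_, rfl⟩
  rw [← hC1, ← hC0] at hregY
  rw [← hC1, ← hs1] at hn6
  rw [← hs3, ← hC0] at hall
  rw [← hs1, ← hP1] at hlow
  rw [← hP1] at hmain
  rw [← hs2] at hup
  rw [← hC0] at hCs0
  rw [← hs3, ← hs2]
  norm_num at hregY hn6 hall hlow hmain hup ⊢
  linarith

end Pool.Agent.K7.H63.TQ
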