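import Mathlib
import Pool.Agent.K7.H63.TQ.Main
import Pool.Agent.R482.Box1
import Pool.Agent.TH899.UG.PairsP

/-! The relation between two linear forms of being simultaneously prime: for many `n`, and at one scale. -/

set_option autoImplicit false

namespace Pool.Agent.K7.H63.TQ

open Finset Filter

/-- both forms are prime for at least `N ^ (1 - η)` integers `n` with `N / 8 ≤ n ≤ N / 4` -/
def RN (N : ℕ) (η : ℝ) (f g : ℤ × ℤ) : Prop :=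
  (N : ℝ) ^ (1 - η) ≤ (((Icc 1 N).filter (fun n : ℕ => (1 / 8 : ℝ) * N ≤ n ∧ (n : ℝ) ≤ 1 / 4 * N ∧
    (f.1 * n + f.2).toNat.Prime ∧ (g.1 * n + g.2).toNat.Prime)).card : ℝ)

theorem RN_symm (N : ℕ) (η : ℝ) (f g : ℤ × ℤ) (h : RN N η f g) : RN N η g f := by
  unfold RN at h ⊢
  have e : (Icc 1 N).filter (fun n : ℕ => (1 / 8 : ℝ) * N ≤ n ∧ (n : ℝ) ≤ 1 / 4 * N ∧
    (f.1 * n + f.2).toNat.Prime ∧ (g.1 * n + g.2).toNat.Prime) =
    (Icc 1 N).filter (fun n : ℕ => (1 / 8 : ℝ) * N ≤ n ∧ (n : ℝ) ≤ 1 / 4 * N ∧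
    (g.1 * n + g.2).toNat.Prime ∧ (f.1 * n + f.2).toNat.Prime) := by
    apply Finset.filter_congr
    intro n _
    tauto
  rwa [e] at h

/-- the forms admitted at the scale `N` -/
def FN (X N : ℕ) : Set (ℤ × ℤ) := {f | 1 ≤ f.1 ∧ f.1 ≤ X ∧ 0 ≤ f.2 ∧ 5 * f.2 ≤ 6 * (N : ℤ)}

/-- two of four classes at one scale -/
theorem hit_scale : ∃ K : ℕ, 1 ≤ K ∧ ∀ X : ℕ, ∀ η : ℝ, 0 < η → ∀ᶠ N : ℕ in atTop,
    HitR K (FN X N) (RN N η) := by
  obtain ⟨c₀, hc₀, hc₁, hex⟩ := Pool.Agent.TH899.UG.NW.exactW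
  obtain ⟨K, hK, hex⟩ := hex (1 / 8) (1 / 4) le_rfl (by norm_num) le_rfl 4 1 (by norm_num)
    (by push_cast; linarith)
  refine ⟨K, hK, fun X η hη => ?_⟩
  filter_upwards [hex X η hη] with N hN A hF hinj hadm
  obtain ⟨S, σ, hS, hcard⟩ := hN (fun g i => (A g i).1) (fun g i => (A g i).2)
    (fun g i => by
      obtain ⟨h1, -⟩ := hF g i
      intro h
      rw [h] at h1
      omega)
    (fun g i => by
      obtain ⟨h1, h2, -⟩ := hF g i
      rw [abs_of_nonneg (by linarith)]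
      exact h2)
    (fun g i => by
      obtain ⟨-, -, h3, h4⟩ := hF g i
      rw [abs_of_nonneg h3]
      exact h4)
    (fun g i y hy _ => by
      obtain ⟨h1, -, h3, -⟩ := hF g i
      have h1' : (1 : ℝ) ≤ ((A g i).1 : ℝ) := by exact_mod_cast h1
      have h3' : (0 : ℝ) ≤ ((A g i).2 : ℝ) := by exact_mod_cast h3
      have hN0 : (0 : ℝ) ≤ N := Nat.cast_nonneg _
      have hy0 : 0 ≤ y := by linarith
      have h5 : y ≤ ((A g i).1 : ℝ) * y := le_mul_of_one_le_left hy0 h1'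
      linarith)
    (by
      intro x y hxy
      apply hinj
      simp only [Prod.mk.injEq] at hxy
      exact Prod.ext hxy.1 hxy.2)
    (fun p hp => hadm p hp)
  obtain ⟨g1, hg1, g2, hg2, hg12⟩ := Finset.one_lt_card.1 (by omega : 1 < S.card)
  refine ⟨g1, g2, σ g1, σ g2, hg12, ?_⟩
  refine hcard.trans ?_
  rw [Nat.cast_le]
  apply card_le_card
  intro n hn
  obtain ⟨h1, h2, h3, h4⟩ := mem_filter.1 hn
  exact mem_filter.2 ⟨h1, h2, h3, h4 g1 hg1, h4 g2 hg2⟩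

/-- two of four classes -/
theorem hit_big : ∃ K : ℕ, 1 ≤ K ∧ HitR K {f | 1 ≤ f.1} Pool.Agent.TH899.UG.PairBig := by
  obtain ⟨K, hK, H⟩ := Pool.Agent.TH899.UG.fourC
  refine ⟨K, hK, fun A hF hinj hadm => ?_⟩
  obtain ⟨S, σ, hS, hbig⟩ := H (fun g i => (A g i).1) (fun g i => (A g i).2)
    (fun g i => by
      have h1 : 1 ≤ (A g i).1 := hF g i
      show 0 < (A g i).1
      omega)
    (by
      intro x y hxy
      apply hinj
      simp only [Prod.mk.injEq] at hxy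
      exact Prod.ext hxy.1 hxy.2)
    (fun p hp => hadm p hp)
  obtain ⟨g1, hg1, g2, hg2, hg12⟩ := Finset.one_lt_card.1 (by omega : 1 < S.card)
  refine ⟨g1, g2, σ g1, σ g2, hg12, ?_⟩
  refine hbig.mono ?_
  intro n hn
  exact ⟨hn g1 hg1, hn g2 hg2⟩

/-- `HitR` for a smaller set of forms -/
theorem HitR.mono {K : ℕ} {F F' : Set (ℤ × ℤ)} {R : ℤ × ℤ → ℤ × ℤ → Prop} (h : HitR K F R)
    (hF : F' ⊆ F) : HitR K F' R := fun A hA => h A fun g i => hF (hA g i)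

open Classical in
/-- **a quarter of all triples** -/
theorem quarter_big : ∃ X0 C : ℕ, 2 ≤ X0 ∧ ∀ X : ℕ, X0 ≤ X → ∀ Y : ℕ, X ^ C ≤ Y →
    1 / 4 * ∑ T ∈ (Rg X 1 Y).filter Ad, tt T ≤
      ∑ T ∈ (Rg X 1 Y).filter (fun T => Ad T ∧ Pool.Agent.H732R3.BigQ.Big
        {q : ℕ | q.Prime ∧ ∃ p : ℕ, p.Prime ∧ (T.1 : ℤ) * p - (T.2.1 : ℤ) * q = (T.2.2 : ℤ)}), tt T := by
  obtain ⟨K, hK, hhit⟩ := hit_big
  obtain ⟨X0, C, hX0, H⟩ := quarter_abs K hK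
  refine ⟨X0, C, hX0, fun X hX Y hY => ?_⟩
  refine H X hX Y hY {f | 1 ≤ f.1} Pool.Agent.TH899.UG.PairBig (fun x y h => h.symm) hhit ?_ _ ?_
  · intro f h1 _ _
    show (1 : ℤ) ≤ (f.1 : ℤ)
    exact_mod_cast h1
  · intro G α β γ b b' hG hadm hGα hGβ _ _ hsol hR
    show Pool.Agent.H732R3.BigQ.Big
        {q : ℕ | q.Prime ∧ ∃ p : ℕ, p.Prime ∧ (α : ℤ) * p - (β : ℤ) * q = (γ : ℤ)}
    have hR' : Pool.Agent.H732R3.BigQ.Big {n : ℕ | (0 < ((G * α : ℕ) : ℤ) * (n : ℤ) + (b : ℤ) ∧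
        Prime (((G * α : ℕ) : ℤ) * (n : ℤ) + (b : ℤ))) ∧ (0 < ((G * β : ℕ) : ℤ) * (n : ℤ) + (b' : ℤ) ∧
        Prime (((G * β : ℕ) : ℤ) * (n : ℤ) + (b' : ℤ)))} := hR
    refine Pool.Agent.H732R3.BigQ.Big.affine hR' (G * α) (b : ℤ) (Nat.mul_pos hG hadm.1)
      (fun n => (((G * α : ℕ) : ℤ) * (n : ℤ) + (b : ℤ)).toNat) ?_ ?_
    · intro n hn
      exact Int.toNat_of_nonneg hn.1.1.le
    · intro n hn
      obtain ⟨⟨h1, h2⟩, h3, h4⟩ := hn
      refine ⟨?_, (((G * β : ℕ) : ℤ) * (n : ℤ) + (b' : ℤ)).toNat, ?_, ?_⟩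
      · rw [Nat.prime_iff_prime_int, Int.toNat_of_nonneg h1.le]
        exact h2
      · rw [Nat.prime_iff_prime_int, Int.toNat_of_nonneg h3.le]
        exact h4
      · rw [Int.toNat_of_nonneg h1.le, Int.toNat_of_nonneg h3.le]
        have e : (α : ℤ) * b' = β * b + γ := by exact_mod_cast hsol
        push_cast
        linear_combination e

open Classical in
/-- **a quarter of all triples, at every scale** -/
theorem quarter_scale : ∃ X0 C : ℕ, 2 ≤ X0 ∧ ∀ X : ℕ, X0 ≤ X → ∀ η : ℝ, 0 < η → η ≤ 1 →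
    ∀ᶠ Z : ℕ in atTop, ∀ Y : ℕ, X ^ C ≤ Y → 1000 * X ^ 2 * Y ≤ Z →
    1 / 4 * ∑ T ∈ (Rg X 1 Y).filter Ad, tt T ≤
      ∑ T ∈ (Rg X 1 Y).filter (fun T => Ad T ∧ (Z : ℝ) ^ (1 - η) ≤
        ((Pool.Agent.R482.solq T.1 T.2.1 (T.2.2 : ℤ) (Z / (1000 * X : ℕ)) Z).ncard : ℝ)), tt T := by
  obtain ⟨K, hK, hhit⟩ := hit_scale
  obtain ⟨X0, C, hX0, H⟩ := quarter_abs K hK
  refine ⟨X0, C, hX0, fun X hX η hη hη1 => ?_⟩
  have hX1 : 1 ≤ X := by omega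
  have hdivt : Tendsto (fun Z : ℕ => Z / X ^ 1) atTop atTop := by
    refine tendsto_atTop.2 fun B => ?_
    filter_upwards [eventually_ge_atTop (B * X ^ 1)] with Z hZ
    exact (Nat.le_div_iff_mul_le (by positivity)).2 hZ
  filter_upwards [hdivt.eventually (hhit X (η / 2) (by positivity)),
    Pool.Agent.Y863.AA.scale X 1 hX1 η hη hη1,
    hdivt.eventually (eventually_ge_atTop 1)] with Z hN hsc hN1 Y hY hYZ
  obtain ⟨N, hNdef⟩ : ∃ N : ℕ, N = Z / X ^ 1 := ⟨_, rfl⟩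
  rw [← hNdef] at hN hsc hN1
  rw [pow_one] at hNdef
  have hN0 : (0 : ℝ) < N := by exact_mod_cast hN1
  have hXr : (0 : ℝ) < X := by exact_mod_cast hX1
  have hXr1 : (1 : ℝ) ≤ X := by exact_mod_cast hX1
  -- `Y` is small compared with `N`
  have hYN : 1000 * Y ≤ N := by
    rw [hNdef, Nat.le_div_iff_mul_le (by omega)]
    calc 1000 * Y * X ≤ 1000 * X ^ 2 * Y := by nlinarith [Nat.mul_le_mul_left (1000 * Y * X) hX1]
      _ ≤ Z := hYZ
  refine H X hX Y hY (FN X N) (RN N (η / 2)) (fun x y h => RN_symm N _ x y h) hN ?_ _ ?_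
  · intro f h1 h2 h3
    refine ⟨?_, ?_, ?_, ?_⟩
    · show (1 : ℤ) ≤ (f.1 : ℤ); exact_mod_cast h1
    · show (f.1 : ℤ) ≤ X; exact_mod_cast h2
    · show (0 : ℤ) ≤ (f.2 : ℤ); exact Nat.cast_nonneg _
    · show 5 * (f.2 : ℤ) ≤ 6 * (N : ℤ)
      have : 5 * f.2 ≤ 6 * N := by omega
      exact_mod_cast this
  · intro G α β γ b b' hG hadm hGα hGβ hb hb' hsol hR
    show (Z : ℝ) ^ (1 - η) ≤
        ((Pool.Agent.R482.solq α β (γ : ℤ) (Z / (1000 * X : ℕ)) Z).ncard : ℝ)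
    have hGα0 : 0 < G * α := Nat.mul_pos hG hadm.1
    refine hsc.2.trans (le_trans hR ?_)
    rw [Nat.cast_le]
    have e1 : (γ : ℤ) = ((1 : ℕ) : ℤ) * (γ : ℤ) := by push_cast; ring
    rw [e1]
    refine Pool.Agent.R482.pair_count (α₁ := G * α) (α₂ := G * β) (β₁ := (b : ℤ)) (β₂ := (b' : ℤ))
      (G := G) (t := 1) (a := α) (b := β) hG rfl rfl ?_ hGα0 _ _ _ ?_
    · have e : (α : ℤ) * b' = β * b + γ := by exact_mod_cast hsol
      push_cast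
      linear_combination (G : ℤ) * e
    intro n hn
    obtain ⟨hnI, hn1, hn2, hn3, hn4⟩ := mem_filter.1 hn
    have hb0 : (0 : ℝ) ≤ b := Nat.cast_nonneg _
    have hbN : (b : ℝ) ≤ N / 1000 := by
      have h1 : 1000 * b ≤ N := by omega
      have h2 : (1000 : ℝ) * b ≤ N := by exact_mod_cast h1
      linarith
    have h6 : ((((G * α : ℕ) : ℤ) * n + (b : ℤ) : ℤ) : ℝ) = ((G * α : ℕ) : ℝ) * n + b := by
      push_cast; ring
    have h7 : (1 : ℝ) ≤ ((G * α : ℕ) : ℝ) := by exact_mod_cast hGα0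
    have h8 : ((G * α : ℕ) : ℝ) ≤ X := by exact_mod_cast hGα
    have hn0 : (0 : ℝ) ≤ n := Nat.cast_nonneg _
    refine ⟨hn3, hn4, ?_, ?_⟩
    · rw [h6]
      have h9 : (Z : ℝ) ≤ N * (2 * (X : ℝ) ^ 1) := (div_le_iff₀ (by positivity)).1 hsc.1
      rw [pow_one] at h9
      have h10 : (0 : ℝ) < ((1000 * X : ℕ) : ℝ) := by positivity
      have h11 : (n : ℝ) ≤ ((G * α : ℕ) : ℝ) * n := le_mul_of_one_le_left hn0 h7
      have h12 : (Z : ℝ) / ((1000 * X : ℕ) : ℝ) ≤ n := by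
        rw [div_le_iff₀ h10]
        push_cast
        nlinarith
      linarith
    · rw [h6]
      have h9 : (N : ℝ) * (X : ℝ) ≤ Z := by
        have := Nat.div_mul_le_self Z X
        rw [← hNdef] at this
        exact_mod_cast this
      have h10 : (N : ℝ) ≤ N * (X : ℝ) := le_mul_of_one_le_right hN0.le hXr1
      have h11 : ((G * α : ℕ) : ℝ) * n ≤ (X : ℝ) * (1 / 4 * N) :=
        mul_le_mul h8 hn2 hn0 (by positivity)
      linarith

end Pool.Agent.K7.H63.TQ
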